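import Pool.Agent.MP_429080_ag.FR.B
import Pool.Agent.MP_429080_ag.FR.E

attribute [-instance] SemilinearMapClass.distribMulActionSemiHomClass SMulZeroClass.toSMul
  NonUnitalAlgHomClass.toNonUnitalRingHomClass SemigroupAction.toSMul Ideal.Quotient.instRingQuotient
  ContinuousSemilinearMapClass.toSemilinearMapClass RKHS.instFunLike SeminormedCommRing.toCommRing
  NormedCommRing.toCommRing CoalgHomClass.toSemilinearMapClass NormedAlgebra.toAlgebra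
  MonTypeEquivalenceMon.monMonoid instIsFractionRing RingHomClass.toLinearMapClassNNRat
  IsLocalRing.toNontrivial BialgHomClass.toAlgHomClass
  instNonUnitalAlgHomClassOfNonUnitalAlgEquivClass MulRingSeminormClass.toMonoidWithZeroHomClass
  SetLike.GradeZero.instCommSemiring littleWedderburn SemilinearIsometryClass.toSemilinearMapClass
  RingConeClass.toSubsemiringClass RingHomClass.toLinearMapClassRat LinearOrder.toDecidableEq
  Ideal.instIsTwoSided Fintype.decidableExistsFintype AlgEquivClass.toAlgHomClass Bialgebra.toAlgebra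
  decidableEq_of_subsingleton
  NonUnitalAlgHomClass.instSemilinearMapClassOfNonUnitalAlgSemiHomClassToMonoidHomRingHom
  FinEnum.decEq SetLike.GradeZero.instSemiring IdemCommSemiring.toCommSemiring
  MulSemiringActionSemiHomClass.toDistribMulActionSemiHomClass

/-! Loci of points over a countable set, and some dimension theory. -/

namespace Pool.Agent.MP_429080_ag.H91

open MvPolynomial Module Pool.Agent.EGH Pool.Agent.MP_d171e3_nt Pool.Agent.MP_429080_ag.H26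
open Pool.Agent.MP_429080_ag.H26.T
  Pool.Agent.MP_429080_ag.H73

set_option linter.unusedSectionVars false

variable {ι κ : Type} [Fintype ι] [Fintype κ] {S S' : Set ℂ} {D : Dr} {ξ ξ' : ι → ℂ}
  {η η' : κ → ℂ} {f g : P ι} {I 𝔭 𝔮 : Ideal (P ι)}

/-- a derivation applied to the coefficients -/
noncomputable def dc (D : Dr) (f : P ι) : P ι := ∑ m ∈ f.support, monomial m (D (coeff m f))

/-- ideals defined over `S` -/
def StI (S : Set ℂ) (I : Ideal (P ι)) : Prop := ∀ D ∈ Der S, ∀ f ∈ I, dc D f ∈ I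

/-- the locus of `ξ` over `S` -/
noncomputable def Lc (S : Set ℂ) (ξ : ι → ℂ) : Ideal (P ι) :=
  Ideal.span {f | Ov (cf S) f ∧ eval ξ f = 0}

section PartDiff

theorem min_pow {R : Type} [CommRing R] {I p : Ideal R} (hp : p ∈ I.minimalPrimes) {x : R}
    (hx : x ∈ p) : ∃ N : ℕ, ∃ s ∉ p, s * x ^ N ∈ I := by
  by_contra hn
  have := hp.isPrime
  obtain ⟨q, hq, h1, h2⟩ := I.exists_le_prime_disjoint (p.primeCompl ⊔ Submonoid.powers x)
    (Set.disjoint_left.2 fun a ha hb => by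
      obtain ⟨s, hs, _, ⟨N, rfl⟩, rfl⟩ := Submonoid.mem_sup.1 hb
      exact hn ⟨N, s, hs, ha⟩)
  exact Set.disjoint_left.1 h2 (hp.2 ⟨hq, h1⟩ (fun a ha => by_contra fun h =>
    Set.disjoint_left.1 h2 ha (Submonoid.mem_sup_left h)) hx)
      (Submonoid.mem_sup_right (Submonoid.mem_powers x))

theorem coeff_dc (D : Dr) (f : P ι) (m : ι →₀ ℕ) : coeff m (dc D f) = D (coeff m f) := by
  classical
  simp only [dc, coeff_sum, coeff_monomial, Finset.sum_ite_eq']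
  split_ifs with h
  exacts [rfl, by rw [notMem_support_iff.1 h, map_zero]]

theorem dc_add (D : Dr) (f g : P ι) : dc D (f + g) = dc D f + dc D g := by
  ext m
  simp [coeff_dc]

theorem dc_sub (D : Dr) (f g : P ι) : dc D (f - g) = dc D f - dc D g := by
  ext m
  simp [coeff_dc]

theorem dc_mul (D : Dr) (f g : P ι) : dc D (f * g) = dc D f * g + f * dc D g := by
  classical
  ext m
  simp only [coeff_add, coeff_dc, coeff_mul, map_sum, ← Finset.sum_add_distrib, D.leibniz,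
    smul_eq_mul]
  exact Finset.sum_congr rfl fun p _ => by ring

theorem dc_ov (hD : D ∈ Der S) (hf : Ov (cf S) f) : dc D f = 0 := by
  ext m
  rw [coeff_dc, hf m D hD, coeff_zero]

theorem dc_C (D : Dr) (a : ℂ) : dc D (C a : P ι) = C (D a) := by
  classical
  ext m
  simp [coeff_dc, coeff_C, apply_ite D]

theorem dc_X (D : Dr) (i : ι) : dc D (X i : P ι) = 0 :=
  dc_ov (S := ∅) (fun _ h => h.elim) (ov_X' i)

theorem dc_pow (D : Dr) (f : P ι) (N : ℕ) : dc D (f ^ (N + 1)) = (N + 1 : ℕ) * f ^ N * dc D f := by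
  induction N with
  | zero => simp
  | succ N h =>
    rw [pow_succ, dc_mul, h]
    push_cast
    ring

theorem dc_rename (D : Dr) (r : ι → κ) (f : P ι) : dc D (rename r f) = rename r (dc D f) := by
  induction f using MvPolynomial.induction_on with
  | C a => simp [dc_C]
  | add f g hf hg => simp [dc_add, hf, hg]
  | mul_X f i hf => simp [dc_mul, dc_X, hf]

theorem ap_eval' (D : Dr) (f : P ι) (y : ι → ℂ) :
    D (eval y f) = eval y (dc D f) + grad f y ⬝ᵥ ap D y := by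
  classical
  induction f using MvPolynomial.induction_on with
  | C a => simp only [eval_C, dc_C, dotProduct, grad, derivation_C, map_zero, zero_mul, Finset.sum_const_zero, add_zero]
  | add f g hf hg =>
    rw [map_add, map_add, hf, hg, dc_add, map_add, grad_add, add_dotProduct]
    ring
  | mul_X f i hf =>
    have : grad (X i : P ι) y ⬝ᵥ ap D y = D (y i) := by
      simp only [dotProduct, grad, pderiv_X, Pi.single_apply, apply_ite, map_one, map_zero, ap, ite_mul, one_mul, zero_mul, Finset.sum_ite_eq, Finset.mem_univ, ↓ reduceIte]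
    simp only [map_mul, D.leibniz, hf, dc_mul, dc_X, grad_mul, add_dotProduct, smul_dotProduct,
      this, eval_X, smul_eq_mul, mul_zero, add_zero]
    ring

theorem stI_span {T : Set (P ι)} (h : ∀ f ∈ T, Ov (cf S) f) : StI S (Ideal.span T) := by
  intro D hD f hf
  induction hf using Submodule.span_induction with
  | mem f hf => rw [dc_ov hD (h f hf)]; exact zero_mem _
  | zero => rw [dc_ov hD ov_zero]; exact zero_mem _
  | add f g _ _ hf hg => rw [dc_add]; exact add_mem hf hg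
  | smul a f h1 hf =>
    rw [smul_eq_mul, dc_mul]
    exact add_mem (Ideal.mul_mem_left _ _ h1) (Ideal.mul_mem_left _ _ hf)

theorem StI.mono (h : StI S I) (hS : S ⊆ cf S') : StI S' I := fun D hD => h D (Der_anti hS hD)

theorem StI.mono' (h : StI S I) (hS : S ⊆ S') : StI S' I := h.mono (hS.trans subset_cf)

theorem StI.sup {J : Ideal (P ι)} (h : StI S I) (h' : StI S J) : StI S (I ⊔ J) := by
  intro D hD f hf
  obtain ⟨a, ha, b, hb, rfl⟩ := Submodule.mem_sup.1 hf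
  rw [dc_add]
  exact Submodule.add_mem_sup (h D hD a ha) (h' D hD b hb)

theorem StI.colon (h : StI S I) (hg : Ov (cf S) g) : StI S (I.colon {g}) := by
  intro D hD f hf
  have := h D hD _ (Submodule.mem_colon_singleton.1 hf)
  rw [smul_eq_mul, dc_mul, dc_ov hD hg, mul_zero, add_zero] at this
  exact Submodule.mem_colon_singleton.2 this

theorem StI.comap {J : Ideal (P κ)} (h : StI S J) (r : ι → κ) :
    StI S (J.comap (rename r : P ι →ₐ[ℂ] P κ)) := fun D hD f hf =>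
  Ideal.mem_comap.2 (dc_rename D r f ▸ h D hD _ hf)

theorem StI.le_span (h : StI S I) : I ≤ Ideal.span {f | f ∈ I ∧ Ov (cf S) f} := by
  classical
  intro f hf
  let L : (f.support → ℂ) →ₗ[ℂ] P ι := ∑ a : f.support, (monomial a.1).comp (LinearMap.proj a)
  have hL : ∀ v, L v = ∑ a : f.support, monomial a.1 (v a) := fun v => by simp only [L, Finset.univ_eq_attach, LinearMap.coe_sum, LinearMap.coe_comp, LinearMap.coe_proj, Finset.sum_apply, Function.comp_apply, Function.eval]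
  have h1 : Stab S ((I.restrictScalars ℂ).comap L) := fun D hD v hv => by
    have e : dc D (L v) = L (ap D v) := by
      ext m
      simp only [hL, coeff_dc, coeff_sum, coeff_monomial, map_sum, apply_ite D, map_zero, ap]
    exact e.subst (motive := (· ∈ I)) (h D hD _ hv)
  have h2 : L (fun a => f.coeff a) = f := by
    rw [hL, Finset.sum_coe_sort f.support fun a => monomial a (f.coeff a)]
    exact f.as_sum.symm
  refine h2.subst (motive := (· ∈ Ideal.span _)) ((Submodule.span_le (p := ((Ideal.span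
    {f | f ∈ I ∧ Ov (cf S) f}).restrictScalars ℂ).comap L)).2 (fun v hv => Ideal.subset_span
      ⟨hv.1, ?_⟩) (h1.le_span (h2.symm.subst (motive := (· ∈ I)) hf)))
  rw [hL]
  refine ov_sum fun a _ m => ?_
  rw [coeff_monomial]
  split_ifs
  exacts [hv.2 a, zero_mem _]

theorem StI.min (h : StI S I) (hp : 𝔭 ∈ I.minimalPrimes) : StI S 𝔭 := by
  classical
  intro D hD f hf
  have hP := hp.isPrime
  have hex := min_pow hp hf
  obtain ⟨s, hs, e⟩ := Nat.find_spec hex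
  obtain ⟨N, hN⟩ : ∃ N, Nat.find hex = N + 1 := Nat.exists_eq_succ_of_ne_zero fun e0 =>
    hs (by rw [e0, pow_zero, mul_one] at e; exact hp.le e)
  rw [hN] at e
  by_contra hn
  refine Nat.find_min hex (m := N) (by omega) ⟨(N + 1 : ℕ) * (s * (s * dc D f)), fun e1 => ?_, ?_⟩
  · refine (hP.mem_or_mem e1).elim (fun e2 => hP.ne_top (Ideal.eq_top_of_isUnit_mem _ e2 ?_))
      fun e2 => (hP.mem_or_mem e2).elim hs fun e3 => (hP.mem_or_mem e3).elim hs hn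
    rw [← map_natCast (C : ℂ →+* P ι)]
    exact (Ne.isUnit (Nat.cast_ne_zero.2 N.succ_ne_zero)).map _
  · convert sub_mem (I.mul_mem_left s (h D hD _ e)) (I.mul_mem_left (dc D s) e) using 1
    rw [dc_mul, dc_pow]
    ring

theorem StI.exists_ne (h : StI S I) (hξ : ξ ∉ vZ I) :
    ∃ f ∈ I, Ov (cf S) f ∧ eval ξ f ≠ 0 := by
  by_contra hn
  exact hξ (vZ_anti h.le_span (mem_vZ_span.2 fun f hf => by_contra fun e => hn ⟨f, hf.1, hf.2, e⟩))

theorem StI.sp (h : StI S I) (hξ : ξ ∈ vZ I) (hs : Sp S ξ ξ') : ξ' ∈ vZ I :=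
  vZ_anti h.le_span (mem_vZ_span.2 fun f hf => hs f hf.2 (mem_vZ.1 hξ f hf.1))

theorem StI.der {Z : Set (ι → ℂ)} (h : StI S (vI Z)) (hξ : ξ ∈ Z) : dv S ξ ≤ tangent Z ξ := by
  rintro _ ⟨D, hD, rfl⟩ f hf
  have := ap_eval' D f ξ
  rw [mem_van.1 hf ξ hξ, mem_van.1 (h D hD f hf) ξ hξ, map_zero, zero_add] at this
  exact this.symm

theorem exists_stI (hS : S.Countable) (I : Ideal (P ι)) :
    ∃ S' : Set ℂ, S'.Countable ∧ S ⊆ S' ∧ StI S' I := by
  obtain ⟨m, G, rfl⟩ := Submodule.fg_iff_exists_fin_generating_family.1 (IsNoetherian.noetherian I)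
  obtain ⟨S', h1, h2, h3⟩ := exists_ov hS G
  exact ⟨S', h1, h2, stI_span (Set.forall_mem_range.2 h3)⟩

theorem StI.gens (h : StI S I) :
    ∃ (m : ℕ) (G : Fin m → P ι), (∀ i, Ov (cf S) (G i)) ∧ I = Ideal.span (Set.range G) := by
  have h1 : I = Ideal.span {f | f ∈ I ∧ Ov (cf S) f} :=
    le_antisymm h.le_span (Ideal.span_le.2 fun _ hf => hf.1)
  obtain ⟨s, hs, hs'⟩ := (Submodule.fg_span_iff_fg_span_finset_subset
    (R := P ι) {f | f ∈ I ∧ Ov (cf S) f}).1 (IsNoetherian.noetherian _)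
  refine ⟨s.card, fun i => s.equivFin.symm i, fun i => (hs (s.equivFin.symm i).2).2,
    h1.trans (hs'.trans (congrArg _ ?_))⟩
  rw [show (fun i => (s.equivFin.symm i : P ι)) = Subtype.val ∘ s.equivFin.symm from rfl,
    s.equivFin.symm.surjective.range_comp, Subtype.range_coe]

end PartDiff

section PartLc

theorem stI_lc (S : Set ℂ) (ξ : ι → ℂ) : StI S (Lc S ξ) := stI_span fun _ hf => hf.1

theorem StI.le_lc (h : StI S I) (hξ : ξ ∈ vZ I) : I ≤ Lc S ξ :=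
  h.le_span.trans (Ideal.span_mono fun f hf => ⟨hf.2, mem_vZ.1 hξ f hf.1⟩)

theorem lc_prime (S : Set ℂ) (ξ : ι → ℂ) : (Lc S ξ).IsPrime := by
  obtain ⟨𝔭, h1, h2, -, -, h3⟩ := l3 S ξ
  exact le_antisymm (((stI_lc S ξ).min h3).le_lc h2) h3.le ▸ h1

theorem mem_lc : ξ' ∈ vZ (Lc S ξ) ↔ Sp S ξ ξ' :=
  mem_vZ_span.trans ⟨fun h f h1 h2 => h f ⟨h1, h2⟩, fun h f hf => h f hf.1 hf.2⟩

theorem ov_mem_lc (hf : Ov (cf S) f) : f ∈ Lc S ξ ↔ eval ξ f = 0 :=
  ⟨mem_vZ.1 (mem_lc.2 (Sp.refl S ξ)) f, fun h => Ideal.subset_span ⟨hf, h⟩⟩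

theorem lc_le : Lc S ξ ≤ Lc S ξ' ↔ Sp S ξ ξ' :=
  ⟨fun h => mem_lc.1 (vZ_anti h (mem_lc.2 (Sp.refl _ _))), fun h =>
    (stI_lc S ξ).le_lc (mem_lc.2 h)⟩

theorem gnr_lc (S : Set ℂ) (ξ : ι → ℂ) : Gnr (cf S) (vZ (Lc S ξ)) ξ :=
  ⟨mem_lc.2 (Sp.refl _ _), fun f hf h => mem_van.2 fun _ hy => mem_lc.1 hy f hf h⟩

theorem dm_lc (S : Set ℂ) (ξ : ι → ℂ) : dm (Lc S ξ) = td S ξ := by
  obtain ⟨𝔭, h1, -, h2, -, h3⟩ := l3 S ξ
  exact le_antisymm (gnr_td (lc_prime S ξ) (gnr_lc S ξ))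
    (h2.trans (dm_anti (lc_prime S ξ) h1 h3.le))

theorem lc_mono (h : S ⊆ cf S') (ξ : ι → ℂ) : Lc S ξ ≤ Lc S' ξ :=
  Ideal.span_mono fun _ hf => ⟨Ov.mono hf.1 (cf_mono h), hf.2⟩

/-- GT -/
theorem lc_eq (hq : 𝔮.IsPrime) (h : StI S 𝔮) (hξ : ξ ∈ vZ 𝔮) (hd : dm 𝔮 ≤ td S ξ) :
    Lc S ξ = 𝔮 := (eq_of_dm hq (lc_prime S ξ) (h.le_lc hξ) (hd.trans (dm_lc S ξ).ge)).symm

theorem StI.td_le (hq : 𝔮.IsPrime) (h : StI S 𝔮) (hξ : ξ ∈ vZ 𝔮) : td S ξ ≤ dm 𝔮 :=
  (dm_lc S ξ).ge.trans (dm_anti hq (lc_prime S ξ) (h.le_lc hξ))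

theorem td_sp (h : Sp S ξ ξ') : td S ξ' ≤ td S ξ :=
  (StI.td_le (lc_prime S ξ) (stI_lc S ξ) (mem_lc.2 h)).trans (dm_lc S ξ).le

/-- EQ -/
theorem lc_eq_of_sp (h : Sp S ξ ξ') (hd : td S ξ ≤ td S ξ') : Lc S ξ' = Lc S ξ :=
  lc_eq (lc_prime S ξ) (stI_lc S ξ) (mem_lc.2 h) ((dm_lc S ξ).le.trans hd)

theorem lc_comp (S : Set ℂ) (η : κ → ℂ) (r : ι → κ) :
    (Lc S η).comap (rename r : P ι →ₐ[ℂ] P κ) = Lc S (η ∘ r) :=
  le_antisymm (((stI_lc S η).comap r).le_lc (mem_vZ.2 fun f hf => (eval_rename r η f).symm.trans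
    (mem_vZ.1 (mem_lc.2 (Sp.refl S η)) _ hf))) (Ideal.span_le.2 fun f hf =>
      Ideal.subset_span ⟨ov_rename r hf.1, (eval_rename r η f).trans hf.2⟩)

theorem lc_tangent (S : Set ℂ) (ξ : ι → ℂ) : tangent (vZ (Lc S ξ)) ξ = dv S ξ :=
  le_antisymm (gnr_tangent (gnr_lc S ξ))
    (StI.der ((vI_vZ (lc_prime S ξ)).symm ▸ stI_lc S ξ) (gnr_lc S ξ).1)

theorem gen_lc (hS : S.Countable) (hq : 𝔮.IsPrime) (hf : f ∉ 𝔮) :
    ∃ ξ ∈ vZ 𝔮, eval ξ f ≠ 0 ∧ Lc S ξ ≤ 𝔮 ∧ dm 𝔮 ≤ td S ξ := by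
  obtain ⟨ξ, h1, h2, h3, -, h4⟩ := gen hS hq hf
  exact ⟨ξ, h1, h2, Ideal.span_le.2 fun g hg => (vI_vZ hq).le (h4.2 g hg.1 hg.2), h3⟩

/-- SPX -/
theorem spx {E : P (ι ⊕ κ)} (hE : Ov (cf S) E) (h : Sp S ξ ξ')
    (h0 : ∀ w, eval (Sum.elim ξ w) E = 0) (w : κ → ℂ) : eval (Sum.elim ξ' w) E = 0 := by
  have e : ∀ (y : ι → ℂ) (v : κ → ℂ),
      ev y (Sum.elim X fun k => C (v k) : ι ⊕ κ → P ι) = Sum.elim y v := fun y v => by
    ext (i | i) <;> simp [ev]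
  have e' : ∀ v : κ → ℂ, eval v (aeval (Sum.elim (fun i => C (ξ' i)) X) E) =
      eval (Sum.elim ξ' v) E := fun v => by
    rw [gmeet_eval]
    congr 2
    ext (i | i) <;> simp
  rw [← e', MvPolynomial.funext_set (fun _ : κ => (cf S : Set ℂ)) (fun _ =>
    Set.infinite_of_injective_forall_mem Nat.cast_injective fun n : ℕ => natCast_mem _ n)
    (p := aeval _ E) (q := 0) fun v hv => ?_, map_zero]
  have h1 := h.ev (s := Sum.elim X fun k => C (v k))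
    (by rintro (i | i); exacts [ov_X' i, ov_C (hv i trivial)])
  rw [e, e] at h1
  rw [e', h1 E hE (h0 v), map_zero]

theorem sp_adj (h : Sp (adj S ξ) η η') : Sp S (Sum.elim ξ η) (Sum.elim ξ η') := by
  have e : ∀ v : κ → ℂ, ev v (Sum.elim (fun i => C (ξ i)) X : ι ⊕ κ → P κ) = Sum.elim ξ v :=
    fun v => by ext (i | i) <;> simp [ev]
  rw [← e, ← e]
  exact (h.ev (by rintro (i | i); exacts [ov_C (rt_adj S ξ i), ov_X' i])).anti' (subset_adj _ _)

theorem sp_elim (h : Sp S ξ ξ') (hη : ∀ w, Sp (adj S ξ) η w) (η' : κ → ℂ) :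
    Sp S (Sum.elim ξ η) (Sum.elim ξ' η') := fun E hE h0 =>
  spx hE h (fun w => sp_adj (hη w) E hE h0) η'

theorem td_one {c : ℂ} (hc : c ∉ cf S) : td S (fun _ : Unit => c) = 1 :=
  le_antisymm (td_le_card _ _) (Nat.pos_of_ne_zero fun h => hc (td_eq_zero.1 h ()))

theorem sp_one {c : ℂ} (hc : c ∉ cf S) (c' : ℂ) : Sp S (fun _ : Unit => c) fun _ => c' := by
  have h1 : ∀ y : Unit → ℂ, y ∈ vZ ⊥ := fun y => mem_vZ.2 fun f hf => by
    rw [Ideal.mem_bot.1 hf, map_zero]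
  exact mem_lc.1 (lc_eq Ideal.isPrime_bot (fun D hD f hf => by
    rw [Ideal.mem_bot.1 hf, dc_ov hD ov_zero]
    exact zero_mem _) (h1 _) (by rw [dm_bot, td_one hc]; rfl) ▸ h1 _)

end PartLc

section PartPel

/-- extension of a point along a valuation ring -/
theorem pel_val {F : Type} [Field F] (φ : P ι →+* F) (hφ : ∀ p, φ p = 0 → eval ξ' p = 0)
    {y : κ → F} {k₀ : κ} (hy : y k₀ ≠ 0) : ∃ j, y j ≠ 0 ∧ ∃ η' : κ → ℂ, η' j = 1 ∧
      ∀ f : P (ι ⊕ κ), eval₂Hom (φ.comp C) (Sum.elim (fun i => φ (X i)) fun k => y k / y j) f = 0 →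
        eval (Sum.elim ξ' η') f = 0 := by
  have h1 : (RingHom.ker (eval ξ')).map φ.rangeRestrict ≠ ⊤ := by
    intro h
    obtain ⟨p, hp, e⟩ := (Ideal.mem_map_iff_of_surjective _ φ.rangeRestrict_surjective).1
      ((Ideal.eq_top_iff_one _).1 h)
    have h2 := hφ (p - 1) (by rw [map_sub, map_one]; exact sub_eq_zero.2 (congrArg Subtype.val e))
    rw [map_sub, RingHom.mem_ker.1 hp] at h2
    simp at h2
  obtain ⟨V, hV, hm⟩ := Ideal.image_subset_nonunits_valuationSubring _ h1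
  have : Nonempty κ := ⟨k₀⟩
  obtain ⟨j, hj⟩ := Finite.exists_max fun k => V.valuation (y k)
  have hj0 : y j ≠ 0 := fun h => hy (by simpa only [h, map_zero, nonpos_iff_eq_zero, map_eq_zero] using hj k₀)
  have hd : ∀ k, y k / y j ∈ V := fun k => by
    rw [← V.valuation_le_one_iff, map_div₀]
    exact div_le_one_of_le₀ (hj k) zero_le
  let ψ : P ι →+* V := φ.codRestrict V.toSubring fun p => hV ⟨p, rfl⟩
  let ρ := IsLocalRing.residue V
  let Θ : P κ →+* V := eval₂Hom (ψ.comp C) fun k => ⟨_, hd k⟩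
  have hJ : (RingHom.ker (ρ.comp Θ)).IsPrime := RingHom.ker_isPrime _
  obtain ⟨η', hη', -⟩ := exists_pt hJ ((Ideal.ne_top_iff_one _).1 hJ.ne_top)
  refine ⟨j, hj0, η', ?_, fun f hf => ?_⟩
  · have h2 : Θ (X j - 1) = 0 := Subtype.ext (by simp only [Θ, coe_eval₂Hom, eval₂_sub, eval₂_X, ne_eq, hj0, not_false_eq_true, div_self, eval₂_one, AddSubgroupClass.coe_sub, OneMemClass.coe_one, sub_self, ZeroMemClass.coe_zero])
    have h3 := hη' (X j - 1) (by rw [RingHom.mem_ker, RingHom.comp_apply, h2, map_zero])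
    simpa only [aeval_eq_eval, map_sub, eval_X, map_one, sub_eq_zero] using h3
  · let Θ' : P (ι ⊕ κ) →+* V :=
      eval₂Hom (ψ.comp C) (Sum.elim (fun i => ψ (X i)) fun k => ⟨_, hd k⟩)
    let a : P (ι ⊕ κ) →ₐ[ℂ] P κ := aeval (Sum.elim (fun i => C (ξ' i)) X)
    have h2 : V.subtype.comp Θ' =
        eval₂Hom (φ.comp C) (Sum.elim (fun i => φ (X i)) fun k => y k / y j) :=
      MvPolynomial.ringHom_ext (fun r => by simp only [Θ', ψ, comp_eval₂Hom, ValuationSubring.subtype_apply, eval₂Hom_C, RingHom.coe_comp, ValuationSubring.coe_subtype, Function.comp_apply, RingHom.codRestrict_apply]) (by rintro (i | k) <;> simp only [Θ', ψ, comp_eval₂Hom, ValuationSubring.subtype_apply, eval₂Hom_X', Sum.elim_inl, RingHom.codRestrict_apply, Sum.elim_inr])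
    have h3 : Θ' f = 0 := Subtype.ext ((RingHom.congr_fun h2 f).trans hf)
    have h4 : (ρ.comp Θ).comp a.toRingHom = ρ.comp Θ' := by
      refine MvPolynomial.ringHom_ext (fun r => by simp only [Θ, comp_eval₂Hom, a, aeval_eq_bind₁, AlgHom.toRingHom_eq_coe, RingHom.coe_comp, coe_eval₂Hom, RingHom.coe_coe, Function.comp_apply, algHom_C, algebraMap_eq, eval₂_C, Θ', eval₂Hom_C]) ?_
      rintro (i | k)
      · have h5 : φ (C (ξ' i) - X i) ∈ V.nonunits :=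
          hm ⟨φ.rangeRestrict _, Ideal.mem_map_of_mem _ (by simp [RingHom.mem_ker]), rfl⟩
        have h6 : ρ (ψ (C (ξ' i) - X i)) = 0 := (IsLocalRing.residue_eq_zero_iff _).2
          (ValuationSubring.coe_mem_nonunits_iff.1 h5)
        rw [map_sub, map_sub, sub_eq_zero] at h6
        simpa only [Θ, comp_eval₂Hom, a, aeval_eq_bind₁, AlgHom.toRingHom_eq_coe, RingHom.coe_comp, coe_eval₂Hom, RingHom.coe_coe, Function.comp_apply, bind₁_X_right, Sum.elim_inl, eval₂_C, Θ', eval₂Hom_X'] using h6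
      · simp only [Θ, comp_eval₂Hom, a, aeval_eq_bind₁, AlgHom.toRingHom_eq_coe, RingHom.coe_comp, coe_eval₂Hom, RingHom.coe_coe, Function.comp_apply, bind₁_X_right, Sum.elim_inr, eval₂_X, Θ', eval₂Hom_X']
    have h5 : a f ∈ RingHom.ker (ρ.comp Θ) := by
      have h6 := RingHom.congr_fun h4 f
      rw [RingHom.comp_apply ρ Θ', h3, map_zero] at h6
      exact h6
    have h6 : eval η' (a f) = 0 := hη' _ h5
    rw [gmeet_eval] at h6
    convert h6 using 3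
    ext (i | k) <;> simp

theorem pel (hS : S.Countable) (h : Sp S ξ ξ') (hη : η ≠ 0) :
    ∃ (a : ℂ) (η' : κ → ℂ), a ≠ 0 ∧ η' ≠ 0 ∧ Sp S (Sum.elim ξ (a • η)) (Sum.elim ξ' η') := by
  let ω : ι ⊕ κ ⊕ κ → ℂ := Sum.elim ξ (Sum.elim η fun k => (η k)⁻¹)
  have hp := lc_prime S ω
  let F := FractionRing (P (ι ⊕ κ ⊕ κ) ⧸ Lc S ω)
  let π : P (ι ⊕ κ ⊕ κ) →+* F := (algebraMap _ F).comp (Ideal.Quotient.mk (Lc S ω))
  have hπ : ∀ f, π f = 0 ↔ f ∈ Lc S ω := fun f => by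
    rw [RingHom.comp_apply, map_eq_zero_iff _ (IsFractionRing.injective _ F),
      Ideal.Quotient.eq_zero_iff_mem]
  have hy : ∀ k, π (X (Sum.inr (Sum.inl k))) = 0 ↔ η k = 0 := fun k => by
    rw [hπ, ov_mem_lc (ov_X' _), eval_X]
    rfl
  obtain ⟨k₀, hk⟩ := Function.ne_iff.1 hη
  obtain ⟨j, hj, η', h1, h2⟩ := pel_val (ξ' := ξ')
    (π.comp (rename Sum.inl : P ι →ₐ[ℂ] P (ι ⊕ κ ⊕ κ)).toRingHom)
    (fun p hp => mem_lc.2 h p (by
      have h3 : p ∈ (Lc S ω).comap (rename Sum.inl : P ι →ₐ[ℂ] P (ι ⊕ κ ⊕ κ)) := (hπ _).1 hp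
      rwa [lc_comp] at h3))
    (y := fun k => π (X (Sum.inr (Sum.inl k)))) (k₀ := k₀) fun e => hk ((hy k₀).1 e)
  have hj' : η j ≠ 0 := fun e => hj ((hy j).2 e)
  refine ⟨(η j)⁻¹, η', inv_ne_zero hj', fun e => by simp [e] at h1, fun f hf h0 => h2 f ?_⟩
  let s : ι ⊕ κ → P (ι ⊕ κ ⊕ κ) := Sum.elim (fun i => X (Sum.inl i))
    fun k => X (Sum.inr (Sum.inr j)) * X (Sum.inr (Sum.inl k))
  have h3 : π (aeval s f) = 0 := by
    rw [hπ, ov_mem_lc (ov_aeval (by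
      rintro (i | k)
      exacts [ov_X' _, ov_mul (ov_X' _) (ov_X' _)]) hf), gmeet_eval, ← h0]
    congr 2
    ext (i | k) <;> simp [s, ω]
  have h4 : π (X (Sum.inr (Sum.inr j))) = (π (X (Sum.inr (Sum.inl j))))⁻¹ := by
    refine eq_inv_of_mul_eq_one_left ?_
    rw [← map_mul, ← sub_eq_zero, ← map_one π, ← map_sub, hπ,
      ov_mem_lc (ov_sub (ov_mul (ov_X' _) (ov_X' _)) ov_one)]
    simp [ω, hj']
  rw [← h3]
  refine RingHom.congr_fun (g := π.comp (aeval s : P (ι ⊕ κ) →ₐ[ℂ] _).toRingHom)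
    (MvPolynomial.ringHom_ext (fun r => by simp only [AlgHom.toRingHom_eq_coe, RingHom.coe_comp, RingHom.coe_coe, Function.comp_apply, rename_X, eval₂Hom_C, algHom_C, algebraMap_eq, aeval_eq_bind₁]) ?_) f
  rintro (i | k)
  · simp only [AlgHom.toRingHom_eq_coe, RingHom.coe_comp, RingHom.coe_coe, Function.comp_apply, rename_X, eval₂Hom_X', Sum.elim_inl, s, aeval_eq_bind₁, bind₁_X_right]
  · simp only [AlgHom.toRingHom_eq_coe, RingHom.coe_comp, RingHom.coe_coe, Function.comp_apply, rename_X, div_eq_inv_mul, eval₂Hom_X', Sum.elim_inr, s, aeval_eq_bind₁, bind₁_X_right, map_mul, h4]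

end PartPel

section PartGeo
variable {σ : Type} [Fintype σ] {C : Set (σ → ℂ)} {c : ℕ}

theorem diag (hC : Sm C c) (hS : S.Countable) {𝔯 : Ideal (P (σ ⊕ κ))} (hr : 𝔯.IsPrime)
    (hrC : ∀ y w, Sum.elim y w ∈ vZ 𝔯 → y ∈ C) {𝔭 : Ideal (P σ)} (hp : 𝔭.IsPrime)
    (hpC : ∀ y ∈ vZ 𝔭, y ∈ C) {y : σ → ℂ} {w : κ → ℂ} (h1 : Sum.elim y w ∈ vZ 𝔯)
    (h2 : y ∈ vZ 𝔭) (h0 : y ≠ 0) :
    ∃ a a', Sum.elim a a' ∈ vZ 𝔯 ∧ a ∈ vZ 𝔭 ∧ Sp S (Sum.elim a a') (Sum.elim y w) ∧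
      dm 𝔯 + dm 𝔭 ≤ td S (Sum.elim a a') + dm (vI C) := by
  obtain ⟨S₀, a1, -, a2⟩ := exists_stI hS 𝔯
  obtain ⟨T, b1, b2, b3⟩ := exists_stI a1 𝔭
  replace a2 := a2.mono' b2
  obtain ⟨ξ, c1, -, c2, c3, -⟩ := gen (adj_countable b1 y) hr ((Ideal.ne_top_iff_one _).1 hr.ne_top)
  obtain ⟨η, d1, -, d2, d3, -⟩ := gen (adj_countable b1 ξ) hp ((Ideal.ne_top_iff_one _).1 hp.ne_top)
  have e1 : Sp T (Sum.elim η ξ) (Sum.elim y (Sum.elim y w)) := by
    refine Sp.trans ?_ (sp_adj (c3 _ h1))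
    convert (sp_adj (d3 _ h2)).comp Sum.swap using 1 <;> ext (i | i) <;> rfl
  have e2 : dm 𝔯 + dm 𝔭 ≤ dm (Lc T (Sum.elim η ξ)) := by
    have := td_adj_le T y ξ
    rw [dm_lc, td_tower, td_swap]
    omega
  obtain ⟨G, G1, G2⟩ := exists_bas hC (hpC y h2) h0
  obtain ⟨m, l, l1, l2, l3⟩ := cot G (fun i => mem_van.1 (G1 i) y (hpC y h2)) G2
  let δ : P σ → P (σ ⊕ σ ⊕ κ) := fun u => rename Sum.inl u - rename (Sum.inr ∘ Sum.inl) u
  have hδ : ∀ θ u, eval θ (δ u) = eval (θ ∘ Sum.inl) u - eval ((θ ∘ Sum.inr) ∘ Sum.inl) u :=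
    fun θ u => by
      rw [map_sub, eval_rename, eval_rename]
      rfl
  obtain ⟨𝔮, q1, q2, q3, q4, q5, -⟩ := cut_at (lc_prime T _) (fun i => δ (l i)) (mem_lc.2 e1)
    fun i => (hδ _ _).trans (sub_self _)
  have h3 : ∀ θ ∈ vZ 𝔮, θ ∘ Sum.inl ∈ vZ 𝔭 ∧ θ ∘ Sum.inr ∈ vZ 𝔯 := fun θ hθ =>
    ⟨b3.sp d1 ((mem_lc.1 (vZ_anti q2 hθ)).comp Sum.inl),
      a2.sp c1 ((mem_lc.1 (vZ_anti q2 hθ)).comp Sum.inr)⟩
  have h4 : ∀ u : P σ, eval y u = 0 →
      rename Sum.inl u ∈ vI {(Sum.elim y (Sum.elim y w) : σ ⊕ σ ⊕ κ → ℂ)} ∧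
      rename (Sum.inr ∘ Sum.inl) u ∈ vI {(Sum.elim y (Sum.elim y w) : σ ⊕ σ ⊕ κ → ℂ)} :=
    fun u hu => ⟨gloc_mem.2 ((eval_rename _ _ _).trans hu), gloc_mem.2 ((eval_rename _ _ _).trans hu)⟩
  have h5 : ∀ u v, δ (u * v) = rename Sum.inl u * δ v + rename (Sum.inr ∘ Sum.inl) v * δ u :=
    fun u v => by
      simp only [δ, map_mul]
      ring
  let K : Ideal (P σ) :=
    { carrier := {u | eval y u = 0 ∧
        δ u ∈ 𝔮 ⊔ vI {Sum.elim y (Sum.elim y w)} * Ideal.span (Set.range δ)}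
      zero_mem' := by simp only [δ, Set.mem_ofPred_eq, map_zero, rename_zero, sub_self, ZeroMemClass.zero_mem, and_self]
      add_mem' := fun {u v} hu hv => ⟨by rw [map_add, hu.1, hv.1, add_zero], by
        convert add_mem hu.2 hv.2 using 1
        simp only [δ, map_add]
        ring⟩
      smul_mem' := fun u v hv => ⟨by rw [smul_eq_mul, map_mul, hv.1, mul_zero], by
        rw [smul_eq_mul, h5]
        exact add_mem (Ideal.mul_mem_left _ _ hv.2) (Ideal.mem_sup_right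
          (Ideal.mul_mem_mul (h4 v hv.1).2 (Ideal.subset_span ⟨u, rfl⟩)))⟩ }
  have h6 : vI {y} ≤ K := l3.trans (sup_le (sup_le (Ideal.span_le.2 (Set.range_subset_iff.2 fun i =>
    ⟨mem_van.1 (G1 i) y (hpC y h2), Ideal.mem_sup_left (vI_vZ q1 ▸ mem_van.2 fun θ hθ => by
      rw [hδ, mem_van.1 (G1 i) _ (hpC _ (h3 θ hθ).1), mem_van.1 (G1 i) _ (hrC _ ((θ ∘ Sum.inr) ∘
        Sum.inr) (by simpa only [Sum.elim_comp_inl_inr] using (h3 θ hθ).2)), sub_self])⟩))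
    (Ideal.span_le.2 (Set.range_subset_iff.2 fun i => ⟨l2 i, Ideal.mem_sup_left (q3 i)⟩)))
    ((pow_two _).le.trans (Ideal.mul_le.2 fun u hu v hv =>
      ⟨by rw [map_mul, gloc_mem.1 hu, zero_mul], Ideal.mem_sup_right (h5 u v ▸ add_mem
        (Ideal.mul_mem_mul (h4 u (gloc_mem.1 hu)).1 (Ideal.subset_span ⟨v, rfl⟩))
        (Ideal.mul_mem_mul (h4 v (gloc_mem.1 hv)).2 (Ideal.subset_span ⟨u, rfl⟩)))⟩)))
  obtain ⟨s, s1, s2⟩ := nak (J := Ideal.span (Set.range δ)) (J' := 𝔮)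
    (Ideal.span_le.2 (Set.range_subset_iff.2 fun u => by
      have := (h6 (gloc_mem.2 (show eval y (u - MvPolynomial.C (eval y u)) = 0 by simp))).2
      simpa only [δ, SetLike.mem_coe, map_sub, algHom_C, algebraMap_eq, sub_sub_sub_cancel_right] using this))
  obtain ⟨θ, t1, -, t2, t3, -⟩ := gen hS q1 ((Ideal.ne_top_iff_one _).1 q1.ne_top)
  have h7 : θ = (θ ∘ Sum.inr) ∘ Sum.elim Sum.inl id := by
    ext (i | i)
    · have := mem_vZ.1 t1 _ ((q1.mem_or_mem (s2 _ (Ideal.subset_span ⟨X i, rfl⟩))).resolve_left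
        fun e => s1 (mem_vZ.1 q4 _ e))
      simpa [δ, sub_eq_zero] using this
    · rfl
  refine ⟨(θ ∘ Sum.inr) ∘ Sum.inl, (θ ∘ Sum.inr) ∘ Sum.inr, ?_⟩
  rw [Sum.elim_comp_inl_inr]
  refine ⟨(h3 θ t1).2, (congrArg (· ∘ Sum.inl) h7).subst (motive := (· ∈ vZ 𝔭)) (h3 θ t1).1,
    (t3 _ q4).comp Sum.inr, ?_⟩
  have h8 := td_comp_le S (θ ∘ Sum.inr) (Sum.elim Sum.inl id)
  have h9 := hC.dim
  rw [← h7] at h8
  rw [Fintype.card_fin] at q5 l1
  omega

theorem hart (hC : Sm C c) {g h : P σ} (hh : h ∉ vI C) {𝔭 : Ideal (P σ)}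
    (hp : 𝔭 ∈ ((vI C ⊔ Ideal.span {h}).colon {g}).minimalPrimes) {y : σ → ℂ} (hy : y ∈ vZ 𝔭)
    (h0 : y ≠ 0) : dm (vI C) ≤ dm 𝔭 + 1 ∧
      ∃ (π A s : P σ) (N : ℕ), π ∈ 𝔭 ∧ A ∉ 𝔭 ∧ 0 < N ∧ s * g * π ^ N - A * h ∈ vI C := by
  classical
  have hP := hp.isPrime
  have hI := hC.prime
  have h1 : vI C ≤ 𝔭 := fun f hf => hp.le (Submodule.mem_colon_singleton.2
    (Ideal.mem_sup_left (Ideal.mul_mem_right _ _ hf)))
  have h2 : dm 𝔭 < dm (vI C) := dm_lt (h1.lt_of_ne fun e => hh (e.ge (hp.le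
    (Submodule.mem_colon_singleton.2 (Ideal.mem_sup_right (Ideal.mem_span_singleton.2 ⟨g, rfl⟩))))))
  have key : ∀ s π N, s * π ^ N ∈ (vI C ⊔ Ideal.span {h}).colon {g} ↔
      ∃ A, s * g * π ^ N - A * h ∈ vI C := fun s π N => by
    rw [Submodule.mem_colon_singleton, smul_eq_mul, mul_right_comm, sup_comm,
      Ideal.mem_span_singleton_sup]
    exact ⟨fun ⟨A, i, hi, e⟩ => ⟨A, by rwa [← e, add_sub_cancel_left]⟩,
      fun ⟨A, e⟩ => ⟨A, _, e, add_sub_cancel _ _⟩⟩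
  obtain ⟨j, hj⟩ := Function.ne_iff.1 h0
  obtain ⟨S, a1, -, a2⟩ := exists_stI Set.countable_empty 𝔭
  obtain ⟨a, ha, a3, -, a4⟩ := gen_lc a1 hP (f := X j) fun e => hj (by simpa using mem_vZ.1 hy _ e)
  have ha0 : a ≠ 0 := fun e => a3 (by simp [e])
  have haC : a ∈ C := hC.closed.le (vZ_anti h1 ha)
  have hd := hC.dim
  obtain ⟨_, hα, hn⟩ : ∃ α ∈ Nm (vZ 𝔭) a, α ∉ Nm C a := SetLike.not_le_iff_exists.1 fun e => by
    have e1 := Submodule.finrank_mono e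
    have e2 := dual_rank (vZ 𝔭) a
    have e3 := lc_tangent S a
    rw [lc_eq hP a2 ha a4] at e3
    have e4 := a2.td_le hP ha
    rw [hC.rk a haC ha0] at e1
    rw [e3] at e2
    change _ + td S a = _ at e2
    omega
  obtain ⟨π, hπ, rfl⟩ := mem_nm.1 hα
  rw [vI_vZ hP] at hπ
  obtain ⟨G, G1, G2⟩ := exists_bas hC haC ha0
  obtain ⟨𝔮, q1, q2, q3, q4, q5, -⟩ := cut_at hI (fun _ : Unit => π) (vZ_anti h1 ha)
    fun _ => mem_vZ.1 ha π hπ
  rw [Fintype.card_unit] at q5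
  obtain ⟨s₀, s1, s2⟩ := loc q1 q4 (fun o : Option (Fin c) => o.elim π G)
    (by rintro (_ | i); exacts [q3 (), q2 (G1 i)])
    (linearIndependent_option.2 ⟨G2, fun e => hn (Submodule.span_le.2
      (Set.range_subset_iff.2 fun i => grad_mem_nm (G1 i) a) e)⟩) (by simp only [Fintype.card_option, Fintype.card_fin]; omega)
  have s3 : s₀ ∉ 𝔭 := fun e => s1 (mem_vZ.1 ha _ e)
  replace s2 : ∀ u ∈ 𝔮, s₀ * u ∈ Ideal.span {π} ⊔ vI C := fun u hu => Ideal.span_le.2 (by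
    rintro _ ⟨_ | i, rfl⟩
    exacts [Ideal.mem_sup_left (Ideal.mem_span_singleton_self π), Ideal.mem_sup_right (G1 i)])
      (s2 u hu)
  have h3 : 𝔮 ≤ 𝔭 := fun u hu => (hP.mem_or_mem
    (sup_le ((Ideal.span_singleton_le_iff_mem _).2 hπ) h1 (s2 u hu))).resolve_left s3
  have hex := min_pow hp hπ
  obtain ⟨s, hs, e⟩ := Nat.find_spec hex
  obtain ⟨N, hN⟩ : ∃ N, Nat.find hex = N + 1 := Nat.exists_eq_succ_of_ne_zero fun e0 =>
    hs (by rw [e0, pow_zero, mul_one] at e; exact hp.le e)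
  rw [hN] at e
  obtain ⟨A, hA⟩ := (key _ _ _).1 e
  have h4 : A ∉ 𝔮 := fun e' => by
    obtain ⟨B, i, hi, e1⟩ := Ideal.mem_span_singleton_sup.1 (s2 A e')
    refine Nat.find_min hex (m := N) (by omega) ⟨s₀ * s, fun e2 => (hP.mem_or_mem e2).elim s3 hs,
      (key _ _ _).2 ⟨B, (hI.mem_or_mem (y := π) ?_).resolve_right fun e2 =>
        hn (grad_mem_nm e2 a)⟩⟩
    convert add_mem (Ideal.mul_mem_left _ s₀ hA) (Ideal.mul_mem_right h _ hi) using 1
    linear_combination -h * e1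
  have h5 : 𝔭 ≤ 𝔮 := fun u hu => by
    obtain ⟨M, s', hs', e'⟩ := min_pow hp hu
    obtain ⟨A', hA'⟩ := (key _ _ _).1 e'
    have e1 : A * (s' * u ^ M) - A' * s * π ^ N * π ∈ vI C := (hI.mem_or_mem (y := h) (by
      convert sub_mem (Ideal.mul_mem_left _ (s * π ^ (N + 1)) hA')
        (Ideal.mul_mem_left _ (s' * u ^ M) hA) using 1
      ring)).resolve_right hh
    have e2 := add_mem (q2 e1) (Ideal.mul_mem_left _ (A' * s * π ^ N) (q3 ()))
    rw [sub_add_cancel] at e2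
    exact q1.mem_of_pow_mem M ((q1.mem_or_mem ((q1.mem_or_mem e2).resolve_left h4)).resolve_left
      fun e3 => hs' (h3 e3))
  exact ⟨le_antisymm h3 h5 ▸ q5, π, A, s, N + 1, hπ, fun e => h4 (h5 e), N.succ_pos, hA⟩

end PartGeo

end Pool.Agent.MP_429080_ag.H91
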