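import Pool.Agent.MP_429080_ag.H91.Lc

/-! Field automorphisms of the complex numbers: transitivity on generic points, fixed elements,
reduced bases. -/

namespace Pool.Agent.MP_429080_ag.H91

open MvPolynomial Module Pool.Agent.EGH Pool.Agent.MP_d171e3_nt Pool.Agent.MP_429080_ag.H26
open Pool.Agent.MP_429080_ag.H26.T
  Pool.Agent.MP_429080_ag.H73

set_option linter.unusedSectionVars false

section aut

theorem a8_equiv {R K L : Type} [CommRing R] [IsDomain R] [Countable R] [Field K] [Field L]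
    [IsAlgClosed K] [IsAlgClosed L] [Algebra R K] [Algebra R L] [FaithfulSMul R K]
    [FaithfulSMul R L] (hK : Cardinal.aleph0 < Cardinal.mk K) (h : Cardinal.mk K = Cardinal.mk L) :
    ∃ e : K ≃+* L, ∀ r, e (algebraMap R K r) = algebraMap R L r := by
  obtain ⟨s, hs⟩ := exists_isTranscendenceBasis R K
  obtain ⟨t, ht⟩ := exists_isTranscendenceBasis R L
  have h1 := IsAlgClosed.cardinal_eq_cardinal_transcendence_basis_of_aleph0_lt' _ hs
    Cardinal.mk_le_aleph0 hK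
  have h2 := IsAlgClosed.cardinal_eq_cardinal_transcendence_basis_of_aleph0_lt' _ ht
    Cardinal.mk_le_aleph0 (h ▸ hK)
  obtain ⟨e⟩ := Cardinal.eq.1 (h1.symm.trans (h.trans h2))
  have := IsAlgClosed.isAlgClosure_of_transcendence_basis _ hs
  have := IsAlgClosed.isAlgClosure_of_transcendence_basis _ ht
  let e' := (hs.1.aevalEquiv.symm.trans (renameEquiv R e)).trans ht.1.aevalEquiv
  refine ⟨IsAlgClosure.equivOfEquiv K L e'.toRingEquiv, fun r => ?_⟩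
  rw [IsScalarTower.algebraMap_apply R (Algebra.adjoin R (Set.range ((↑) : s → K))) K,
    IsAlgClosure.equivOfEquiv_algebraMap,
    IsScalarTower.algebraMap_apply R (Algebra.adjoin R (Set.range ((↑) : t → L))) L]
  exact congrArg _ (e'.commutes r)

/-- two maps of a countable ring with the same kernel differ by an automorphism -/
theorem a8_aut {R : Type} [CommRing R] [Countable R] (φ ψ : R →+* ℂ)
    (h : ∀ r, φ r = 0 ↔ ψ r = 0) : ∃ σ : ℂ ≃+* ℂ, ∀ r, σ (φ r) = ψ r := by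
  have hp : (RingHom.ker φ).IsPrime := RingHom.ker_isPrime φ
  have hc : Countable (R ⧸ RingHom.ker φ) := Ideal.Quotient.mk_surjective.countable
  let φ' := RingHom.kerLift φ
  let ψ' := Ideal.Quotient.lift (RingHom.ker φ) ψ fun r hr => (h r).1 hr
  have h1 : Function.Injective φ' := RingHom.kerLift_injective φ
  have h2 : Function.Injective ψ' := RingHom.lift_injective_of_ker_le_ideal _ _ fun r hr => (h r).2 hr
  obtain ⟨e, he⟩ := @a8_equiv (R ⧸ RingHom.ker φ) ℂ ℂ _ _ _ _ _ _ _ φ'.toAlgebra ψ'.toAlgebra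
    ((@faithfulSMul_iff_algebraMap_injective _ _ _ _ φ'.toAlgebra).2 h1)
    ((@faithfulSMul_iff_algebraMap_injective _ _ _ _ ψ'.toAlgebra).2 h2)
    (by rw [Cardinal.mk_complex]; exact Cardinal.aleph0_lt_continuum) rfl
  exact ⟨e, fun r => he (Ideal.Quotient.mk _ r)⟩

/-- automorphisms fixing the constants of `S` -/
def Fx (S : Set ℂ) (θ : ℂ ≃+* ℂ) : Prop := ∀ u ∈ cf S, θ u = u

variable {ι κ : Type} {S S' : Set ℂ} {θ θ' : ℂ ≃+* ℂ} {ξ ξ' : ι → ℂ} {η : κ → ℂ}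

theorem act_apply (θ : ℂ ≃+* ℂ) (ξ : ι → ℂ) (i : ι) : (θ ∘ ξ) i = θ (ξ i) := rfl

theorem act_add (θ : ℂ ≃+* ℂ) (ξ ξ' : ι → ℂ) : (θ ∘ (ξ + ξ')) = (θ ∘ ξ) + (θ ∘ ξ') := by
  ext i; simp

theorem act_sub (θ : ℂ ≃+* ℂ) (ξ ξ' : ι → ℂ) : (θ ∘ (ξ - ξ')) = (θ ∘ ξ) - (θ ∘ ξ') := by
  ext i; simp

theorem act_zero (θ : ℂ ≃+* ℂ) : (θ ∘ (0 : ι → ℂ)) = 0 := by
  ext i; simp

theorem act_smul (θ : ℂ ≃+* ℂ) (a : ℂ) (ξ : ι → ℂ) : (θ ∘ (a • ξ)) = θ a • (θ ∘ ξ) := by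
  ext i; simp

theorem act_sum {A : Type} (θ : ℂ ≃+* ℂ) (s : Finset A) (v : A → ι → ℂ) :
    (θ ∘ (∑ a ∈ s, v a)) = ∑ a ∈ s, (θ ∘ (v a)) := by
  ext i; simp [Finset.sum_apply]

theorem act_elim (θ : ℂ ≃+* ℂ) (ξ : ι → ℂ) (η : κ → ℂ) :
    (θ ∘ (Sum.elim ξ η)) = Sum.elim (θ ∘ ξ) (θ ∘ η) := by
  ext (i | i) <;> rfl

theorem act_dot [Fintype ι] (θ : ℂ ≃+* ℂ) (α v : ι → ℂ) :
    (θ ∘ α) ⬝ᵥ (θ ∘ v) = θ (α ⬝ᵥ v) := by
  simp [dotProduct]

theorem act_symm_act (θ : ℂ ≃+* ℂ) (ξ : ι → ℂ) : (θ.symm ∘ (θ ∘ ξ)) = ξ := by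
  ext i; simp

theorem act_act_symm (θ : ℂ ≃+* ℂ) (ξ : ι → ℂ) : (θ ∘ (θ.symm ∘ ξ)) = ξ := by
  ext i; simp

theorem act_trans (θ θ' : ℂ ≃+* ℂ) (ξ : ι → ℂ) : ((θ.trans θ') ∘ ξ) = (θ' ∘ (θ ∘ ξ)) := rfl

theorem act_inj (θ : ℂ ≃+* ℂ) (h : (θ ∘ ξ) = (θ ∘ ξ')) : ξ = ξ' := by
  rw [← act_symm_act θ ξ, h, act_symm_act]

theorem act_ne (θ : ℂ ≃+* ℂ) (h : ξ ≠ 0) : (θ ∘ ξ) ≠ 0 := fun e =>
  h (act_inj θ (e.trans (act_zero θ).symm))

theorem act_symm_eq (h : (θ ∘ ξ) = ξ') : (θ.symm ∘ ξ') = ξ := by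
  rw [← h, act_symm_act]

theorem Fx.refl (S : Set ℂ) : Fx S (RingEquiv.refl ℂ) := fun _ _ => rfl

theorem Fx.symm (h : Fx S θ) : Fx S θ.symm := fun u hu => by
  rw [RingEquiv.symm_apply_eq, h u hu]

theorem Fx.trans (h : Fx S θ) (h' : Fx S θ') : Fx S (θ.trans θ') := fun u hu => by
  rw [RingEquiv.trans_apply, h u hu, h' u hu]

theorem Fx.anti (h : Fx S' θ) (hS : S ⊆ cf S') : Fx S θ := fun u hu => h u (cf_mono hS hu)

theorem Fx.anti' (h : Fx S' θ) (hS : S ⊆ S') : Fx S θ := h.anti (hS.trans subset_cf)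

theorem Fx.rt (h : Fx S θ) (hξ : Rt S ξ) : (θ ∘ ξ) = ξ := _root_.funext fun i => h _ (hξ i)

theorem eval_map_aut (θ : ℂ ≃+* ℂ) (f : P ι) (y : ι → ℂ) :
    eval (θ ∘ y) (map (θ : ℂ →+* ℂ) f) = θ (eval y f) := by
  induction f using MvPolynomial.induction_on with
  | C a => simp
  | add f g hf hg => simp only [map_add, hf, hg]
  | mul_X f i hf => simp only [map_mul, hf, map_X, eval_X, Function.comp_apply]

theorem coeff_actP (θ : ℂ ≃+* ℂ) (f : P ι) (d : ι →₀ ℕ) : (map (θ : ℂ →+* ℂ) f).coeff d = θ (f.coeff d) :=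
  coeff_map _ _ _

theorem actP_symm (θ : ℂ ≃+* ℂ) (f : P ι) : map (θ.symm : ℂ →+* ℂ) (map (θ : ℂ →+* ℂ) f) = f := by
  ext d; simp [coeff_actP]

theorem actP_symm' (θ : ℂ ≃+* ℂ) (f : P ι) : map (θ : ℂ →+* ℂ) (map (θ.symm : ℂ →+* ℂ) f) = f := actP_symm θ.symm f

theorem actP_hom (θ : ℂ ≃+* ℂ) {f : P ι} {d : ℕ} (h : f.IsHomogeneous d) :
    (map (θ : ℂ →+* ℂ) f).IsHomogeneous d := h.map _

theorem Fx.actP_eq (h : Fx S θ) {f : P ι} (hf : Ov (cf S) f) : map (θ : ℂ →+* ℂ) f = f := by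
  ext d
  rw [coeff_actP, h _ (hf d)]

theorem Fx.eval (h : Fx S θ) {f : P ι} (hf : Ov (cf S) f) (y : ι → ℂ) :
    eval (θ ∘ y) f = θ (eval y f) := by
  rw [← eval_map_aut, h.actP_eq hf]

theorem Fx.ev (h : Fx S θ) {s : κ → P ι} (hs : ∀ k, Ov (cf S) (s k)) (y : ι → ℂ) :
    ev (θ ∘ y) s = (θ ∘ (ev y s)) := _root_.funext fun k => h.eval (hs k) y

theorem grad_act (θ : ℂ ≃+* ℂ) (f : P ι) (y : ι → ℂ) :
    grad (map (θ : ℂ →+* ℂ) f) (θ ∘ y) = (θ ∘ (grad f y)) := by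
  ext i
  rw [act_apply, grad, grad, pderiv_map, eval_map_aut]

theorem Fx.grad (h : Fx S θ) {f : P ι} (hf : Ov (cf S) f) (y : ι → ℂ) :
    grad f (θ ∘ y) = (θ ∘ (grad f y)) := by
  rw [← grad_act, h.actP_eq hf]

theorem Fx.sp (h : Fx S θ) (ξ : ι → ℂ) : Sp S ξ (θ ∘ ξ) := fun f hf h0 => by
  rw [h.eval hf, h0, map_zero]

theorem Fx.sp' (h : Fx S θ) (ξ : ι → ℂ) : Sp S (θ ∘ ξ) ξ := by
  simpa only [act_symm_act] using h.symm.sp (θ ∘ ξ)

theorem Fx.map [Fintype ι] [Fintype κ] (h : Fx S θ) {φ : (ι → ℂ) →ₗ[ℂ] (κ → ℂ)} (hφ : RtL S φ)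
    (y : ι → ℂ) : φ (θ ∘ y) = (θ ∘ (φ y)) := by
  obtain ⟨s, h1, -, h2⟩ := hφ.exists_ev
  rw [← h2, ← h2, h.ev h1]

theorem vI_act [Fintype ι] {T T' : Set (ι → ℂ)} (h : ∀ y ∈ T', (θ.symm ∘ y) ∈ T) {f : P ι} (hf : f ∈ vI T) :
    map (θ : ℂ →+* ℂ) f ∈ vI T' := mem_van.2 fun y hy => by
  rw [← act_act_symm θ y, eval_map_aut, mem_van.1 hf _ (h y hy), map_zero]

/-- AUT -/
theorem aut_sp [Fintype ι] (hS : S.Countable) (h : Sp S ξ ξ') (h' : Sp S ξ' ξ) :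
    ∃ θ : ℂ ≃+* ℂ, Fx S θ ∧ (θ ∘ ξ) = ξ' := by
  have := cf_countable hS
  have hc : Countable (MvPolynomial ι (cf S)) :=
    Cardinal.mk_le_aleph0_iff.1 (MvPolynomial.cardinalMk_le_max.trans
      (max_le (max_le Cardinal.mk_le_aleph0 Cardinal.mk_le_aleph0) le_rfl))
  have e : ∀ (y : ι → ℂ) (r : MvPolynomial ι (cf S)),
      eval₂Hom (cf S).subtype y r = eval y (map (cf S).subtype r) := fun y r =>
    (eval_map _ _ _).symm
  obtain ⟨θ, hθ⟩ := a8_aut (eval₂Hom (cf S).subtype ξ) (eval₂Hom (cf S).subtype ξ') fun r => by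
    rw [e, e]
    exact ⟨h _ (ov_iff.2 ⟨r, rfl⟩), h' _ (ov_iff.2 ⟨r, rfl⟩)⟩
  refine ⟨θ, fun u hu => ?_, _root_.funext fun i => ?_⟩
  · simpa using hθ (C ⟨u, hu⟩)
  · simpa using hθ (X i)

theorem a8_conj (F : Subfield ℂ) {l : ℂ} (hl : l ∉ F) :
    ∃ l' : ℂ, l' ≠ l ∧ ∀ p : Polynomial F, Polynomial.aeval l p = 0 ↔ Polynomial.aeval l' p = 0 := by
  by_cases ha : IsAlgebraic F l
  · have hi : IsIntegral F l := ha.isIntegral
    have h2 : 2 ≤ (minpoly F l).natDegree :=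
      (minpoly.two_le_natDegree_iff hi).2 fun ⟨u, hu⟩ => hl (hu ▸ u.2)
    have h3 : Fintype.card ((minpoly F l).rootSet ℂ) = (minpoly F l).natDegree :=
      Polynomial.card_rootSet_eq_natDegree (minpoly.irreducible hi).separable
        (IsAlgClosed.splits _)
    have h4 : l ∈ (minpoly F l).rootSet ℂ :=
      (Polynomial.mem_rootSet_of_ne (minpoly.ne_zero hi)).2 (minpoly.aeval F l)
    obtain ⟨⟨l', h5⟩, h6⟩ := Fintype.exists_ne_of_one_lt_card
      (α := (minpoly F l).rootSet ℂ) (h3 ▸ h2) ⟨l, h4⟩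
    have h7 : minpoly F l = minpoly F l' := minpoly.eq_of_irreducible_of_monic
      (minpoly.irreducible hi) ((Polynomial.mem_rootSet_of_ne (minpoly.ne_zero hi)).1 h5)
      (minpoly.monic hi)
    exact ⟨l', fun e => h6 (Subtype.ext e), fun p => by
      rw [← minpoly.dvd_iff, ← minpoly.dvd_iff, h7]⟩
  · have hb : ¬ IsAlgebraic F (l + 1) := fun h => ha (by
      simpa using h.sub (isAlgebraic_one (R := F) (A := ℂ)))
    refine ⟨l + 1, by simp, fun p => ⟨fun h => ?_, fun h => ?_⟩⟩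
    · rw [(transcendental_iff.1 ha) p h, map_zero]
    · rw [(transcendental_iff.1 hb) p h, map_zero]

/-- FIX -/
theorem fix [Fintype ι] (hS : S.Countable) (x : ι → ℂ) {l : ℂ}
    (h : ∀ θ : ℂ ≃+* ℂ, Fx S θ → (θ ∘ x) = x → θ l = l) :
    ∃ g h : P ι, Ov (cf S) g ∧ Ov (cf S) h ∧ eval x h ≠ 0 ∧ eval x g = l * eval x h := by
  have := cf_countable hS
  let T : Set ℂ := (cf S : Set ℂ) ∪ Set.range x
  have hT : T.Countable := (Set.countable_coe_iff.1 this).union (Set.countable_range x)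
  have h0 : Countable (Subfield.closure T) := Cardinal.mk_le_aleph0_iff.1
    ((Subfield.cardinalMk_closure_le_max T).trans (max_le hT.le_aleph0 le_rfl))
  have hl : l ∈ Subfield.closure T := by
    by_contra hl
    obtain ⟨l', h1, h2⟩ := a8_conj _ hl
    have h4 : Countable (Polynomial (Subfield.closure T)) := Cardinal.mk_le_aleph0_iff.1
      (Polynomial.cardinalMk_le_max.trans (max_le Cardinal.mk_le_aleph0 le_rfl))
    obtain ⟨θ, hθ⟩ := a8_aut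
      (Polynomial.aeval l : Polynomial (Subfield.closure T) →ₐ[_] ℂ).toRingHom
      (Polynomial.aeval l' : Polynomial (Subfield.closure T) →ₐ[_] ℂ).toRingHom h2
    have h3 : ∀ u ∈ T, θ u = u := fun u hu => by
      have h5 := hθ (Polynomial.C ⟨u, Subfield.subset_closure hu⟩)
      simp only [AlgHom.toRingHom_eq_coe, RingHom.coe_coe, Polynomial.aeval_C] at h5
      exact h5
    refine h1 (Eq.trans ?_ (h θ (fun u hu => h3 u (Or.inl hu))
      (_root_.funext fun i => h3 _ (Or.inr ⟨i, rfl⟩))))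
    simpa using (hθ Polynomial.X).symm
  have hr : ∀ u ∈ Subring.closure T, ∃ g : P ι, Ov (cf S) g ∧ eval x g = u := fun u hu => by
    induction hu using Subring.closure_induction with
    | mem u hu =>
      rcases hu with hu | ⟨i, rfl⟩
      exacts [⟨C u, ov_C hu, eval_C u⟩, ⟨X i, ov_X' i, eval_X i⟩]
    | zero => exact ⟨0, ov_zero, map_zero _⟩
    | one => exact ⟨1, ov_one, map_one _⟩
    | add u v _ _ hu hv =>
      obtain ⟨f, f1, rfl⟩ := hu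
      obtain ⟨g, g1, rfl⟩ := hv
      exact ⟨f + g, ov_add f1 g1, map_add _ _ _⟩
    | neg u _ hu =>
      obtain ⟨f, f1, rfl⟩ := hu
      exact ⟨-f, ov_neg f1, map_neg _ _⟩
    | mul u v _ _ hu hv =>
      obtain ⟨f, f1, rfl⟩ := hu
      obtain ⟨g, g1, rfl⟩ := hv
      exact ⟨f * g, ov_mul f1 g1, map_mul _ _ _⟩
  obtain ⟨u, hu, v, hv, e⟩ := Subfield.mem_closure_iff.1 hl
  obtain ⟨g, g1, rfl⟩ := hr u hu
  obtain ⟨f, f1, rfl⟩ := hr v hv
  by_cases h1 : eval x f = 0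
  · exact ⟨0, 1, ov_zero, ov_one, by simp, by simp [← e, h1]⟩
  · exact ⟨g, f, g1, f1, h1, by rw [← e, div_mul_cancel₀ _ h1]⟩

/-- FIX for finitely many elements, common denominator -/
theorem fix_fam [Fintype ι] [Fintype κ] (hS : S.Countable) (x : ι → ℂ) {l : κ → ℂ}
    (h : ∀ θ : ℂ ≃+* ℂ, Fx S θ → (θ ∘ x) = x → (θ ∘ l) = l) :
    ∃ (g : κ → P ι) (h : P ι), (∀ k, Ov (cf S) (g k)) ∧ Ov (cf S) h ∧ eval x h ≠ 0 ∧
      ev x g = eval x h • l := by
  classical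
  choose g h g1 h1 h2 e using fun k => fix hS x (l := l k) fun θ a b => congrFun (h θ a b) k
  have hp : ∀ s : Finset κ, Ov (cf S) (∏ k ∈ s, h k) := fun s =>
    ov_iff.2 (prod_mem fun k _ => ov_iff.1 (h1 k))
  refine ⟨fun k => g k * ∏ j ∈ Finset.univ.erase k, h j, ∏ j, h j, fun k => ov_mul (g1 k) (hp _),
    hp _, by rw [map_prod]; exact Finset.prod_ne_zero_iff.2 fun k _ => h2 k,
    _root_.funext fun k => ?_⟩
  rw [← Finset.mul_prod_erase _ _ (Finset.mem_univ k)]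
  simp only [ev, map_mul, e, Pi.smul_apply, smul_eq_mul]
  ring

theorem span_act {T : Set (ι → ℂ)} {W : Submodule ℂ (ι → ℂ)} (h : ∀ v ∈ T, (θ ∘ v) ∈ W) :
    ∀ w ∈ Submodule.span ℂ T, (θ ∘ w) ∈ W := fun w hw => by
  induction hw using Submodule.span_induction with
  | mem v hv => exact h v hv
  | zero => rw [act_zero]; exact zero_mem _
  | add u v _ _ hu hv => rw [act_add]; exact add_mem hu hv
  | smul a v _ hv => rw [act_smul]; exact W.smul_mem _ hv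

theorem indep_act (θ : ℂ ≃+* ℂ) {A : Type} {v : A → ι → ℂ} (h : LinearIndependent ℂ v) :
    LinearIndependent ℂ fun a => (θ ∘ (v a)) := by
  rw [linearIndependent_iff'] at h ⊢
  intro s g hg a ha
  have h1 := congrArg (fun v => θ.symm ∘ v) hg
  simp only [act_sum, act_smul, act_symm_act, act_zero] at h1
  simpa using h s _ h1 a ha

theorem finrank_act [Fintype ι] {W W' : Submodule ℂ (ι → ℂ)} (h : ∀ w ∈ W, (θ ∘ w) ∈ W') :
    finrank ℂ W ≤ finrank ℂ W' := by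
  let b := Module.finBasis ℂ W
  have h1 := indep_act θ (b.linearIndependent.map' W.subtype W.ker_subtype)
  have h2 : LinearIndependent ℂ fun a => (⟨(θ ∘ (b a)), h _ (b a).2⟩ : W') :=
    LinearIndependent.of_comp W'.subtype h1
  simpa using h2.fintype_card_le_finrank

theorem ann_act [Fintype ι] {W W' : Submodule ℂ (ι → ℂ)} (h : ∀ w ∈ W', (θ.symm ∘ w) ∈ W) :
    ∀ v ∈ ann W, (θ ∘ v) ∈ ann W' := fun v hv α hα => by
  rw [← act_act_symm θ α, act_dot, hv _ (h α hα), map_zero]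

/-- conjugate derivations -/
theorem exists_conj (θ : ℂ ≃+* ℂ) (D : Dr) : ∃ D' : Dr, ∀ u, D' (θ u) = θ (D u) :=
  ⟨Derivation.mk' ((θ.toAddMonoidHom.comp (D.toLinearMap.toAddMonoidHom.comp
    θ.symm.toAddMonoidHom)).toIntLinearMap) fun u v => by simp, fun u => by simp⟩

theorem Der_act (h : ∀ s ∈ S', θ.symm s ∈ cf S) {D : Dr} (hD : D ∈ Der S) :
    ∃ D' ∈ Der S', ∀ u, D' (θ u) = θ (D u) := by
  obtain ⟨D', e⟩ := exists_conj θ D
  exact ⟨D', fun s hs => by rw [← θ.apply_symm_apply s, e, h s hs D hD, map_zero], e⟩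

theorem cf_act (h : ∀ s ∈ S, θ s ∈ cf S') {u : ℂ} (hu : u ∈ cf S) : θ u ∈ cf S' := fun D hD => by
  obtain ⟨D', h1, e⟩ := Der_act (θ := θ.symm) (S := S') (S' := S) h hD
  have h2 := e (θ u)
  rw [θ.symm_apply_apply, hu D' h1] at h2
  simpa using h2.symm

theorem dv_act (h : ∀ s ∈ S', θ.symm s ∈ cf S) (ξ : ι → ℂ) :
    ∀ v ∈ dv S ξ, (θ ∘ v) ∈ dv S' (θ ∘ ξ) := by
  rintro _ ⟨D, hD, rfl⟩
  obtain ⟨D', h1, e⟩ := Der_act h hD
  exact ⟨D', h1, _root_.funext fun i => e _⟩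

theorem td_act_le [Fintype ι] (h : ∀ s ∈ S', θ.symm s ∈ cf S) (ξ : ι → ℂ) :
    td S ξ ≤ td S' (θ ∘ ξ) := finrank_act (dv_act h ξ)

theorem td_act [Fintype ι] (h : ∀ s ∈ S, θ s ∈ cf S') (h' : ∀ s ∈ S', θ.symm s ∈ cf S)
    (ξ : ι → ℂ) : td S' (θ ∘ ξ) = td S ξ := by
  refine le_antisymm ?_ (td_act_le h' ξ)
  simpa only [act_symm_act] using td_act_le (θ := θ.symm) (S := S') (S' := S) h (θ ∘ ξ)

theorem Fx.adj_mem (h : Fx S θ) (η : κ → ℂ) : ∀ s ∈ adj S η, θ s ∈ cf (adj S (θ ∘ η)) := by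
  rintro s (hs | ⟨k, rfl⟩)
  · rw [h s (subset_cf hs)]
    exact subset_cf (Or.inl hs)
  · exact rt_adj S (θ ∘ η) k

theorem Fx.adj_mem' (h : Fx S θ) (η : κ → ℂ) :
    ∀ s ∈ adj S (θ ∘ η), θ.symm s ∈ cf (adj S η) := by
  simpa only [act_symm_act] using h.symm.adj_mem (θ ∘ η)

theorem Fx.td (h : Fx S θ) [Fintype ι] (ξ : ι → ℂ) : td S (θ ∘ ξ) = td S ξ :=
  td_act (fun s hs => by rw [h s (subset_cf hs)]; exact subset_cf hs)
    (fun s hs => by rw [h.symm s (subset_cf hs)]; exact subset_cf hs) ξ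

theorem Fx.td_adj (h : Fx S θ) [Fintype ι] (η : κ → ℂ) (ξ : ι → ℂ) :
    H73.td (adj S (θ ∘ η)) (θ ∘ ξ) = H73.td (adj S η) ξ :=
  td_act (h.adj_mem η) (h.adj_mem' η) ξ

theorem sp_act (h : ∀ s ∈ S', θ.symm s ∈ cf S) (hs : Sp S ξ ξ') : Sp S' (θ ∘ ξ) (θ ∘ ξ') := by
  intro f hf h0
  have h1 : Ov (cf S) (map (θ.symm : ℂ →+* ℂ) f) := fun d => by
    rw [coeff_actP]
    exact cf_act h (hf d)
  rw [← actP_symm' θ f, eval_map_aut] at h0 ⊢
  rw [hs _ h1 (by simpa using h0), map_zero]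

theorem Fx.mem_vZ [Fintype ι] (h : Fx S θ) {A : Type} {G : A → P ι} (hG : ∀ a, Ov (cf S) (G a))
    (hξ : ξ ∈ vZ (Ideal.span (Set.range G))) : (θ ∘ ξ) ∈ vZ (Ideal.span (Set.range G)) :=
  (h.sp ξ).mem_vZ hG hξ

theorem nm_act [Fintype ι] {T T' : Set (ι → ℂ)} (h : ∀ y ∈ T', (θ.symm ∘ y) ∈ T) (y : ι → ℂ) :
    ∀ v ∈ Nm T y, (θ ∘ v) ∈ Nm T' (θ ∘ y) := by
  refine span_act ?_
  rintro _ ⟨f, hf, rfl⟩
  rw [← grad_act]
  exact grad_mem_nm (vI_act h hf) _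

theorem tangent_act [Fintype ι] {T T' : Set (ι → ℂ)} (h : ∀ y ∈ T, (θ ∘ y) ∈ T') (y : ι → ℂ) :
    ∀ v ∈ tangent T y, (θ ∘ v) ∈ tangent T' (θ ∘ y) := fun v hv f hf => by
  have h1 := hv _ (vI_act (θ := θ.symm) h hf)
  change grad _ y ⬝ᵥ v = 0 at h1
  change grad f _ ⬝ᵥ _ = 0
  rw [← actP_symm' θ f, grad_act, act_dot, h1, map_zero]

/-- RREF -/
theorem rref_sub [Fintype ι] (W : Submodule ℂ (ι → ℂ)) :
    ∃ b : Fin (finrank ℂ W) → ι → ℂ, LinearIndependent ℂ b ∧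
      Submodule.span ℂ (Set.range b) = W ∧
      (∃ r : Fin (finrank ℂ W) → ι, ∀ i j, b i (r j) = if i = j then 1 else 0) ∧
      ∀ θ : ℂ ≃+* ℂ, (∀ w ∈ W, (θ ∘ w) ∈ W) → ∀ i, (θ ∘ (b i)) = b i := by
  classical
  let β := Module.finBasis ℂ W
  obtain ⟨r, hr⟩ := exists_minor (β.linearIndependent.map' W.subtype W.ker_subtype)
  let π : W →ₗ[ℂ] (Fin (finrank ℂ W) → ℂ) := (LinearMap.funLeft ℂ ℂ r).comp W.subtype
  have h1 : LinearIndependent ℂ fun a => π (β a) := Matrix.linearIndependent_rows_of_det_ne_zero hr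
  have h2 : Function.Injective π := by
    rw [← LinearMap.ker_eq_bot, eq_bot_iff]
    intro w hw
    have h3 : ∑ a, β.repr w a • π (β a) = 0 := by
      simp only [← map_smul, ← map_sum, β.sum_repr]
      exact hw
    rw [Submodule.mem_bot, ← β.sum_repr w]
    exact Finset.sum_eq_zero fun a _ => by
      rw [Fintype.linearIndependent_iff.1 h1 _ h3 a, zero_smul]
  let e := LinearMap.linearEquivOfInjective π h2 (by simp)
  let b := (Pi.basisFun ℂ (Fin (finrank ℂ W))).map e.symm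
  have h4 : ∀ i j, (b i : ι → ℂ) (r j) = if i = j then 1 else 0 := fun i j => by
    have h5 : π (b i) = Pi.single i 1 := by
      change e (b i) = _
      simp [b]
    exact (congrFun h5 j).trans (by rw [Pi.single_apply]; exact if_congr eq_comm rfl rfl)
  refine ⟨fun i => b i, b.linearIndependent.map' W.subtype W.ker_subtype, ?_, ⟨r, h4⟩,
    fun θ hθ i => ?_⟩
  · have h5 := congrArg (Submodule.map W.subtype) b.span_eq
    rwa [Submodule.map_span, ← Set.range_comp, Submodule.map_subtype_top] at h5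
  · refine congrArg Subtype.val (h2 (a₁ := ⟨_, hθ _ (b i).2⟩) (a₂ := b i)
      (_root_.funext fun j => ?_))
    change θ ((b i : ι → ℂ) (r j)) = (b i : ι → ℂ) (r j)
    rw [h4]
    split_ifs <;> simp

/-- RREF for ideals -/
theorem rref_ideal [Fintype ι] (J : Ideal (P ι)) :
    ∃ (m : ℕ) (f : Fin m → P ι), Ideal.span (Set.range f) = J ∧
      ∀ θ : ℂ ≃+* ℂ, (∀ g ∈ J, map (θ : ℂ →+* ℂ) g ∈ J) → ∀ i, map (θ : ℂ →+* ℂ) (f i) = f i := by
  classical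
  obtain ⟨s, hs⟩ := IsNoetherian.noetherian J
  let A : Finset (ι →₀ ℕ) := s.biUnion fun g => g.support
  let L : (A → ℂ) →ₗ[ℂ] P ι := ∑ a : A, (monomial a.1).comp (LinearMap.proj a)
  have hL : ∀ v, L v = ∑ a : A, monomial a.1 (v a) := fun v => by simp [L]
  have h1 : ∀ (θ : ℂ ≃+* ℂ) v, map (θ : ℂ →+* ℂ) (L v) = L (θ ∘ v) := fun θ v => by
    simp [hL]
  obtain ⟨b, -, b1, -, b2⟩ := rref_sub ((J.restrictScalars ℂ).comap L)
  have b3 : ∀ i, L (b i) ∈ J := fun i => b1.le (Submodule.subset_span ⟨i, rfl⟩)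
  refine ⟨_, fun i => L (b i), le_antisymm (Ideal.span_le.2 (Set.range_subset_iff.2 b3)) ?_,
    fun θ hθ i => by rw [h1, b2 θ fun w hw => by
      change L _ ∈ J
      rw [← h1]
      exact hθ _ hw]⟩
  refine hs.ge.trans (Ideal.span_le.2 fun g hg => ?_)
  have h2 : L (fun a => g.coeff a) = g := by
    rw [hL, Finset.sum_coe_sort A fun a => monomial a (g.coeff a)]
    refine Eq.trans (Finset.sum_subset (fun d hd => Finset.mem_biUnion.2 ⟨g, hg, hd⟩)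
      fun d _ hd => ?_).symm g.as_sum.symm
    rw [notMem_support_iff.1 hd, map_zero]
  have h3 : (fun a : A => g.coeff a) ∈ Submodule.span ℂ (Set.range b) := by
    rw [b1]
    change L _ ∈ J
    rw [h2]
    exact hs.le (Ideal.subset_span hg)
  obtain ⟨c, hc⟩ := (Submodule.mem_span_range_iff_exists_fun ℂ).1 h3
  rw [← h2, ← hc, map_sum]
  refine sum_mem fun i _ => ?_
  rw [map_smul, smul_eq_C_mul]
  exact Ideal.mul_mem_left _ _ (Ideal.subset_span ⟨i, rfl⟩)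

theorem aut_gen {A : Type} [CommRing A] [IsDomain A] [Countable A] (i j : A →+* ℂ)
    (hi : Function.Injective i) (hj : Function.Injective j) :
    ∃ τ : ℂ ≃+* ℂ, ∀ a, τ (i a) = j a :=
  a8_aut i j fun a => by rw [map_eq_zero_iff _ hi, map_eq_zero_iff _ hj]

theorem aut [Fintype ι] (hS : S.Countable) (h : Lc S ξ = Lc S ξ') : ∃ τ, Fx S τ ∧ τ ∘ ξ = ξ' :=
  aut_sp hS (lc_le.1 h.le) (lc_le.1 h.ge)

theorem Fx.lc [Fintype ι] (h : Fx S θ) (ξ : ι → ℂ) : Lc S (θ ∘ ξ) = Lc S ξ :=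
  le_antisymm (lc_le.2 (h.sp' ξ)) (lc_le.2 (h.sp ξ))

/-- the field of definition of an ideal -/
theorem rref [Fintype ι] (I : Ideal (P ι)) :
    ∃ (r : ℕ) (l : Fin r → ℂ), (∀ S : Set ℂ, Rt S l → StI S I) ∧
    ∀ τ : ℂ ≃+* ℂ, (∀ f ∈ I, map (τ : ℂ →+* ℂ) f ∈ I) → τ ∘ l = l := by
  obtain ⟨m, f, h1, h2⟩ := rref_ideal I
  let A := Σ i : Fin m, (f i).support
  let e := Fintype.equivFin A
  refine ⟨_, fun j => (f (e.symm j).1).coeff (e.symm j).2, fun S hS => ?_, fun τ hτ =>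
    _root_.funext fun j => ?_⟩
  · rw [← h1]
    refine stI_span (Set.forall_mem_range.2 fun i d => ?_)
    by_cases hd : d ∈ (f i).support
    · have h3 := hS (e ⟨i, d, hd⟩)
      beta_reduce at h3
      rwa [e.symm_apply_apply] at h3
    · rw [notMem_support_iff.1 hd]
      exact zero_mem _
  · rw [Function.comp_apply, ← coeff_actP, h2 τ hτ]

end aut

end Pool.Agent.MP_429080_ag.H91

/-! Definable conditions: constructible and invariant under automorphisms. What holds at one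
generic point holds at the general point. -/

namespace Pool.Agent.MP_429080_ag.H91

open MvPolynomial Module Pool.Agent.EGH Pool.Agent.MP_d171e3_nt Pool.Agent.MP_429080_ag.H26
open Pool.Agent.MP_429080_ag.H26.T
  Pool.Agent.MP_429080_ag.H73

set_option linter.unusedSectionVars false

section df
variable {ι κ : Type} [Fintype ι] [Fintype κ] {S : Set ℂ}

/-- the closed point of the spectrum -/
noncomputable def ptS (y : ι → ℂ) : PrimeSpectrum (P ι) := ⟨vI {y}, (pt_max y).isPrime⟩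

theorem mem_ptS {y : ι → ℂ} {f : P ι} : f ∈ (ptS y).asIdeal ↔ eval y f = 0 := gdim_pt

theorem con_piece {U : Set (PrimeSpectrum (P ι))} (hU : Topology.IsConstructible U)
    {q : PrimeSpectrum (P ι)} (hq : q ∈ U) :
    ∃ f, f ∉ q.asIdeal ∧ ∀ z ∈ vZ q.asIdeal, eval z f ≠ 0 → ptS z ∈ U := by
  obtain ⟨D, rfl⟩ := PrimeSpectrum.exists_constructibleSetData_iff.2 hU
  obtain ⟨B, hB, h1, h2⟩ := Set.mem_iUnion₂.1 hq
  refine ⟨B.f, fun h => h2 (Set.singleton_subset_iff.2 h), fun z hz h0 =>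
    Set.mem_iUnion₂.2 ⟨B, hB, fun g hg => mem_ptS.2 (mem_vZ.1 hz g (h1 hg)), fun h => h0 ?_⟩⟩
  exact mem_ptS.1 (Set.singleton_subset_iff.1 h)

/-- conditions definable over `S` -/
structure Df (S : Set ℂ) (Q : (ι → ℂ) → Prop) : Prop where
  con : ∃ U : Set (PrimeSpectrum (P ι)), Topology.IsConstructible U ∧ ∀ y, Q y ↔ ptS y ∈ U
  inv : ∀ θ, Fx S θ → ∀ y, Q y → Q (θ ∘ y)

/-- polynomial functions over `S` -/
def Pf (S : Set ℂ) (F : (ι → ℂ) → ℂ) : Prop := ∃ f : P ι, Ov (cf S) f ∧ ∀ y, eval y f = F y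

variable {Q Q' : (ι → ℂ) → Prop} {F F' : (ι → ℂ) → ℂ}

theorem Df.congr (h : Df S Q) (e : ∀ y, Q y ↔ Q' y) : Df S Q' := by
  rwa [← (_root_.funext fun y => propext (e y) : Q = Q')]

theorem Df.not (h : Df S Q) : Df S fun y => ¬ Q y := by
  obtain ⟨U, h1, h2⟩ := h.con
  refine ⟨⟨Uᶜ, h1.compl, fun y => not_congr (h2 y)⟩, fun θ hθ y hy h3 => hy ?_⟩
  simpa only [act_symm_act] using h.inv _ hθ.symm _ h3

theorem Df.all_fin {A : Type} [Finite A] {R : A → (ι → ℂ) → Prop} (h : ∀ a, Df S (R a)) :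
    Df S fun y => ∀ a, R a y := by
  choose U h1 h2 using fun a => (h a).con
  exact ⟨⟨⋂ a, U a, .iInter h1, fun y => by simp only [h2, Set.mem_iInter]⟩,
    fun θ hθ y hy a => (h a).inv θ hθ y (hy a)⟩

theorem Df.and (h : Df S Q) (h' : Df S Q') : Df S fun y => Q y ∧ Q' y := by
  obtain ⟨U, h1, h2⟩ := h.con
  obtain ⟨U', h3, h4⟩ := h'.con
  exact ⟨⟨U ∩ U', h1.inter h3, fun y => and_congr (h2 y) (h4 y)⟩,
    fun θ hθ y hy => ⟨h.inv θ hθ y hy.1, h'.inv θ hθ y hy.2⟩⟩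

theorem Df.imp (h : Df S Q) (h' : Df S Q') : Df S fun y => Q y → Q' y :=
  (h.and h'.not).not.congr fun y => by tauto

theorem Df.or (h : Df S Q) (h' : Df S Q') : Df S fun y => Q y ∨ Q' y :=
  (h.not.imp h').congr fun y => by tauto

theorem Df.iff (h : Df S Q) (h' : Df S Q') : Df S fun y => Q y ↔ Q' y :=
  ((h.imp h').and (h'.imp h)).congr fun y => by tauto

theorem Df.ex_fin {A : Type} [Finite A] {R : A → (ι → ℂ) → Prop} (h : ∀ a, Df S (R a)) :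
    Df S fun y => ∃ a, R a y :=
  (Df.all_fin fun a => (h a).not).not.congr fun y => by simp

theorem Df.ex {R : (ι → ℂ) → (κ → ℂ) → Prop}
    (h : Df S fun z : ι ⊕ κ → ℂ => R (z ∘ Sum.inl) (z ∘ Sum.inr)) : Df S fun y => ∃ w, R y w := by
  obtain ⟨U, h1, h2⟩ := h.con
  let π : P ι →ₐ[ℂ] P (ι ⊕ κ) := rename Sum.inl
  have h3 : (π : P ι →+* P (ι ⊕ κ)).FinitePresentation :=
    RingHom.FinitePresentation.of_finiteType.1
      (RingHom.FiniteType.of_comp_finiteType (f := algebraMap ℂ (P ι)) (by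
        rw [π.comp_algebraMap]
        exact RingHom.finiteType_algebraMap.2 inferInstance))
  refine ⟨⟨_, PrimeSpectrum.isConstructible_comap_image h3 h1, fun y => ⟨?_, ?_⟩⟩, ?_⟩
  · rintro ⟨w, hw⟩
    refine ⟨ptS (Sum.elim y w), (h2 _).1 hw, PrimeSpectrum.ext (Ideal.ext fun f => ?_)⟩
    change π f ∈ (ptS _).asIdeal ↔ _
    rw [mem_ptS, mem_ptS, eval_rename]
    rfl
  · rintro ⟨q, hq, e⟩
    obtain ⟨f, f1, f2⟩ := con_piece h1 hq
    rw [← vI_vZ q.isPrime, mem_van] at f1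
    push Not at f1
    obtain ⟨z, hz, h0⟩ := f1
    have h4 : z ∘ Sum.inl = y := _root_.funext fun i => by
      have h5 : X i - C (y i) ∈ (ptS y).asIdeal := mem_ptS.2 (by simp)
      rw [← e] at h5
      have h6 := mem_vZ.1 hz _ h5
      simpa [π, sub_eq_zero] using h6
    exact ⟨z ∘ Sum.inr, h4 ▸ (h2 z).2 (f2 z hz h0)⟩
  · rintro θ hθ y ⟨w, hw⟩
    exact ⟨(θ ∘ w), h.inv θ hθ (Sum.elim y w) hw⟩

theorem Df.all {R : (ι → ℂ) → (κ → ℂ) → Prop}
    (h : Df S fun z : ι ⊕ κ → ℂ => R (z ∘ Sum.inl) (z ∘ Sum.inr)) : Df S fun y => ∀ w, R y w :=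
  (Df.ex (R := fun y w => ¬ R y w) h.not).not.congr fun y => by simp

theorem Df.ex1 {R : (ι → ℂ) → ℂ → Prop}
    (h : Df S fun z : ι ⊕ Unit → ℂ => R (z ∘ Sum.inl) (z (Sum.inr ()))) :
    Df S fun y => ∃ s, R y s :=
  (Df.ex (R := fun y w => R y (w ())) h).congr fun _ =>
    ⟨fun ⟨w, hw⟩ => ⟨w (), hw⟩, fun ⟨s, hs⟩ => ⟨fun _ => s, hs⟩⟩

theorem Df.all1 {R : (ι → ℂ) → ℂ → Prop}
    (h : Df S fun z : ι ⊕ Unit → ℂ => R (z ∘ Sum.inl) (z (Sum.inr ()))) :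
    Df S fun y => ∀ s, R y s :=
  (Df.all (R := fun y w => R y (w ())) h).congr fun _ =>
    ⟨fun hw s => hw fun _ => s, fun hs w => hs (w ())⟩

theorem Pf.congr (h : Pf S F) (e : ∀ y, F y = F' y) : Pf S F' :=
  let ⟨f, h1, h2⟩ := h
  ⟨f, h1, fun y => (h2 y).trans (e y)⟩

theorem Pf.eq0 (h : Pf S F) : Df S fun y => F y = 0 := by
  obtain ⟨f, h1, h2⟩ := h
  refine ⟨⟨(PrimeSpectrum.basicOpen f : Set _)ᶜ, (PrimeSpectrum.isConstructible_basicOpen).compl,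
    fun y => ?_⟩, fun θ hθ y hy => by rw [← h2, hθ.eval h1, h2, hy, map_zero]⟩
  rw [← h2, ← mem_ptS]
  simp

theorem Pf.const {u : ℂ} (h : u ∈ cf S) : Pf S fun _ : ι → ℂ => u := ⟨C u, ov_C h, fun _ => eval_C u⟩

theorem Pf.zero : Pf S fun _ : ι → ℂ => 0 := Pf.const (zero_mem _)

theorem Pf.coord (i : ι) : Pf S fun y : ι → ℂ => y i := ⟨X i, ov_X' i, fun _ => eval_X i⟩

theorem Pf.add (h : Pf S F) (h' : Pf S F') : Pf S fun y => F y + F' y :=
  let ⟨f, h1, h2⟩ := h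
  let ⟨g, h3, h4⟩ := h'
  ⟨f + g, ov_add h1 h3, fun y => by rw [map_add, h2, h4]⟩

theorem Pf.sub (h : Pf S F) (h' : Pf S F') : Pf S fun y => F y - F' y :=
  let ⟨f, h1, h2⟩ := h
  let ⟨g, h3, h4⟩ := h'
  ⟨f - g, ov_sub h1 h3, fun y => by rw [map_sub, h2, h4]⟩

theorem Pf.mul (h : Pf S F) (h' : Pf S F') : Pf S fun y => F y * F' y :=
  let ⟨f, h1, h2⟩ := h
  let ⟨g, h3, h4⟩ := h'
  ⟨f * g, ov_mul h1 h3, fun y => by rw [map_mul, h2, h4]⟩

theorem Pf.sum {A : Type} (s : Finset A) {T : A → (ι → ℂ) → ℂ} (h : ∀ a, Pf S (T a)) :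
    Pf S fun y => ∑ a ∈ s, T a y := by
  choose f h1 h2 using h
  exact ⟨∑ a ∈ s, f a, ov_sum fun a _ => h1 a, fun y => by simp only [map_sum, h2]⟩

theorem Pf.eval {g : P κ} (hg : Ov (cf S) g) {V : (ι → ℂ) → κ → ℂ}
    (h : ∀ j, Pf S fun y => V y j) : Pf S fun y => eval (V y) g := by
  choose f h1 h2 using h
  exact ⟨aeval f g, ov_aeval h1 hg, fun y => (gmeet_eval f y g).trans
    (congrArg (fun v => MvPolynomial.eval v g) (_root_.funext fun j => h2 j y))⟩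

theorem Pf.dot {V W : (ι → ℂ) → κ → ℂ} (h : ∀ j, Pf S fun y => V y j)
    (h' : ∀ j, Pf S fun y => W y j) : Pf S fun y => V y ⬝ᵥ W y :=
  Pf.sum _ fun j => (h j).mul (h' j)

theorem Pf.eq (h : Pf S F) (h' : Pf S F') : Df S fun y => F y = F' y :=
  (h.sub h').eq0.congr fun _ => sub_eq_zero

theorem Df.veq {V W : (ι → ℂ) → κ → ℂ} (h : ∀ j, Pf S fun y => V y j)
    (h' : ∀ j, Pf S fun y => W y j) : Df S fun y => V y = W y :=
  (Df.all_fin fun j => (h j).eq (h' j)).congr fun _ => funext_iff.symm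

theorem Df.vz {A : Type} [Finite A] {G : A → P κ} (hG : ∀ a, Ov (cf S) (G a))
    {V : (ι → ℂ) → κ → ℂ} (h : ∀ j, Pf S fun y => V y j) :
    Df S fun y => V y ∈ vZ (Ideal.span (Set.range G)) :=
  (Df.all_fin fun a => (Pf.eval (hG a) h).eq0).congr fun _ => by
    rw [mem_vZ_span, Set.forall_mem_range]

theorem Df.indep {A : Type} [Fintype A] {V : (ι → ℂ) → A → κ → ℂ}
    (h : ∀ a j, Pf S fun y => V y a j) : Df S fun y => LinearIndependent ℂ (V y) := by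
  have h1 : ∀ a j, Pf S fun z : ι ⊕ A → ℂ => V (z ∘ Sum.inl) a j := fun a j => by
    obtain ⟨f, f1, f2⟩ := h a j
    exact (Pf.eval f1 fun i => Pf.coord (Sum.inl i)).congr fun z => f2 _
  refine (Df.all (R := fun y l => (∀ j, ∑ a, l a * V y a j = 0) → ∀ a, l a = 0)
    ((Df.all_fin fun j => (Pf.sum _ fun a => (Pf.coord (Sum.inr a)).mul (h1 a j)).eq0).imp
      (Df.all_fin fun a => (Pf.coord (Sum.inr a)).eq0))).congr fun y => ?_
  rw [Fintype.linearIndependent_iff]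
  simp only [funext_iff, Finset.sum_apply, Pi.smul_apply, smul_eq_mul, Pi.zero_apply]

/-- substitution -/
theorem Df.comp {R : (κ → ℂ) → Prop} (h : Df S R) {V : (ι → ℂ) → κ → ℂ}
    (hV : ∀ j, Pf S fun y => V y j) : Df S fun y => R (V y) := by
  choose f h1 h2 using hV
  have e : ∀ y, V y = ev y f := fun y => _root_.funext fun j => (h2 j y).symm
  obtain ⟨U, h3, h4⟩ := h.con
  refine ⟨⟨PrimeSpectrum.comap (aeval f : P κ →ₐ[ℂ] P ι).toRingHom ⁻¹' U, ?_, fun y => ?_⟩,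
    fun θ hθ y hy => ?_⟩
  · obtain ⟨D, rfl⟩ := PrimeSpectrum.exists_constructibleSetData_iff.2 h3
    rw [← PrimeSpectrum.ConstructibleSetData.toSet_map]
    exact PrimeSpectrum.ConstructibleSetData.isConstructible_toSet _
  · rw [h4, Set.mem_preimage]
    refine iff_of_eq (congrArg (· ∈ U) (PrimeSpectrum.ext (Ideal.ext fun g => ?_)))
    change _ ↔ aeval f g ∈ (ptS y).asIdeal
    rw [mem_ptS, mem_ptS, gmeet_eval, e]
    rfl
  · rw [e] at hy ⊢
    rw [hθ.ev h1]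
    exact h.inv θ hθ _ hy

/-- a definable condition true at one generic point holds on a dense open set -/
theorem Df.spread (h : Df S Q) (hS : S.Countable) {𝔮 : Ideal (P ι)} (hq : 𝔮.IsPrime) {y : ι → ℂ}
    (hy : Gnr (cf S) (vZ 𝔮) y) (hQ : Q y) :
    ∃ f, f ∉ 𝔮 ∧ ∀ x ∈ vZ 𝔮, eval x f ≠ 0 → Q x := by
  obtain ⟨U, h1, h2⟩ := h.con
  have h3 : (⟨𝔮, hq⟩ : PrimeSpectrum (P ι)) ∈ U := by
    by_contra hn
    obtain ⟨f, f1, f2⟩ := con_piece h1.compl (q := ⟨𝔮, hq⟩) hn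
    obtain ⟨y', y1, y2, -, -, y3⟩ := gen hS hq f1
    obtain ⟨θ, hθ, e⟩ := aut_sp hS (gnr_sp hy y1) (gnr_sp y3 hy.1)
    exact f2 y' y1 y2 ((h2 _).1 (e ▸ h.inv θ hθ y hQ))
  obtain ⟨f, f1, f2⟩ := con_piece h1 h3
  exact ⟨f, f1, fun x hx h0 => (h2 x).2 (f2 x hx h0)⟩

theorem Df.general (h : Df S Q) (hS : S.Countable) {Z : Set (ι → ℂ)} (hZ : Cn Z) {y : ι → ℂ}
    (hy : Gnr (cf S) Z y) (hQ : Q y) : General Z Q := by
  obtain ⟨f, f1, f2⟩ := h.spread hS hZ.prime (hZ.closed.symm ▸ hy) hQ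
  exact ⟨f, f1, fun x hx h0 _ => f2 x (hZ.closed.symm ▸ hx) h0⟩

end df

end Pool.Agent.MP_429080_ag.H91

/-! Linear changes of coordinates, and irreducibility of the cone of lines. -/

namespace Pool.Agent.MP_429080_ag.H91

open MvPolynomial Module Pool.Agent.EGH Pool.Agent.MP_d171e3_nt Pool.Agent.MP_429080_ag.H26
open Pool.Agent.MP_429080_ag.H26.T

set_option linter.unusedSectionVars false

/-- `Z` is cut out by `k` forms with independent gradients -/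
def Good {τ : Type} [Fintype τ] (Z : Set (τ → ℂ)) (k : ℕ) : Prop :=
  ∃ (μ : Type) (_ : Fintype μ) (f : μ → P τ) (d : μ → ℕ), Fintype.card μ = k ∧ (∀ m, 0 < d m) ∧
    (∀ m, (f m).IsHomogeneous (d m)) ∧ (∀ w, w ∈ Z ↔ ∀ m, eval w (f m) = 0) ∧
    ∀ w ∈ Z, w ≠ 0 → LinearIndependent ℂ fun m => grad (f m) w

section PartLin
variable {τ ρ : Type} [Fintype τ] [Fintype ρ] {Z : Set (τ → ℂ)} {k k' : ℕ}
  {j : (ρ → ℂ) →ₗ[ℂ] (τ → ℂ)}

theorem Good.ci (h : Good Z k) (h2 : 2 * k < Fintype.card τ) :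
    IsCI Z k ∧ (vI Z).IsPrime ∧ dm (vI Z) + k = Fintype.card τ := by
  obtain ⟨μ, _, f, d, rfl, hd, hf, hZ, hi⟩ := h
  have e : Z = vZ (Ideal.span (Set.range f)) := Set.ext fun w => by
    rw [hZ, mem_vZ_span, Set.forall_mem_range]
  obtain ⟨𝔭, hp, -⟩ := exists_min_at (e.le ((hZ 0).2 fun m => gsat2_eval0 (hd m) (hf m)))
  have h1 := ci_min_dim f hp
  obtain ⟨h3, h4, -⟩ := ce_ci f d hd hf hp.isPrime (hmin (ci_hom hf) hp)
    (fun m => hp.le (Ideal.subset_span ⟨m, rfl⟩)) (by omega)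
    fun w hw => hi w (e.ge (vZ_anti hp.le hw))
  have e2 : vI Z = Ideal.span (Set.range f) := by rw [e, vI_vZ h3]
  let a := (Fintype.equivFin μ).symm
  exact ⟨⟨f ∘ a, d ∘ a, fun i => hf _, by rwa [a.surjective.range_comp]⟩, e2 ▸ h3, e2 ▸ h4⟩

theorem good_of_ci (hZ : Sm Z k) (h : IsCI Z k) : Good Z k := by
  obtain ⟨f, d, hf, e⟩ := h
  have hi : ∀ w ∈ Z, w ≠ 0 → LinearIndependent ℂ fun m => grad (f m) w := fun w hw h0 => by
    rw [linearIndependent_iff_card_eq_finrank_span, Set.finrank, ← nm_gens e hw, hZ.rk w hw h0,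
      Fintype.card_fin]
  refine ⟨Fin k, inferInstance, f, d, Fintype.card_fin k, fun m => Nat.pos_of_ne_zero fun h0 => ?_,
    hf, fun w => ?_, hi⟩
  · obtain ⟨z, hz, h1⟩ := hZ.ne
    have h2 := hf m
    rw [h0, ← totalDegree_zero_iff_isHomogeneous, totalDegree_eq_zero_iff_eq_C] at h2
    refine (hi z hz h1).ne_zero m ?_
    rw [h2]
    ext i
    simp [grad]
  · rw [← hZ.closed, show vI Z = _ from e, mem_vZ_span, Set.forall_mem_range]

theorem grad_lin (θ : (τ → ℂ) →ₗ[ℂ] ℂ) (z v : τ → ℂ) : grad (lin θ) z ⬝ᵥ v = θ v := by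
  classical
  have := euler (lin_hom θ) v
  rw [eval_lin, Nat.cast_one, one_mul] at this
  rw [← this]
  congr 1
  ext t
  simp [grad, lin, Pi.single_apply, apply_ite]

theorem Good.lin (hj : Function.Injective j) (hZ : ∀ z ∈ Z, ∃ u, j u = z)
    (hk : k' + Fintype.card τ = k + Fintype.card ρ) (h : Good (j ⁻¹' Z) k') : Good Z k := by
  classical
  obtain ⟨μ, _, f, d, rfl, hd, hf, hm, hi⟩ := h
  obtain ⟨r, hr⟩ := j.exists_leftInverse_of_injective (LinearMap.ker_eq_bot.2 hj)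
  have hr' : ∀ u, r (j u) = u := fun u => LinearMap.congr_fun hr u
  have h1 : ∀ α, α ∈ LinearMap.ker (res j) ↔ ∀ v ∈ LinearMap.range j, v ⬝ᵥ α = 0 := fun α => by
    rw [LinearMap.mem_ker, res_eq_zero]
    exact ⟨fun h _ ⟨u, e⟩ => by rw [← e, dotProduct_comm, h], fun h u => by
      rw [dotProduct_comm, h _ ⟨u, rfl⟩]⟩
  have h2 := ann_rank h1
  rw [LinearMap.finrank_range_of_inj hj, finrank_fintype_fun_eq_card] at h2
  let b := Module.finBasis ℂ (LinearMap.ker (res j))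
  have h3 : ∀ α, res j (res r α) = α := fun α => funext fun t => by
    simpa [hr'] using (res_dot j _ (Pi.single t 1)).trans (res_dot r α _)
  have h4 : ∀ (α w : τ → ℂ), grad (dp α X) w = α := fun α w => funext fun t => by
    simp [grad, dp, Pi.single_apply, apply_ite]
  have h5 : ∀ (α w : τ → ℂ), eval w (dp α X) = w ⬝ᵥ α := fun α w => by
    rw [eval_dp, dotProduct_comm]
    congr 1
    ext t
    simp [ev]
  refine ⟨μ ⊕ Fin (finrank ℂ (LinearMap.ker (res j))), inferInstance,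
    Sum.elim (fun m => pull r (f m)) fun i => dp (b i) X, Sum.elim d fun _ => 1, by simp; omega,
    by rintro (m | i) <;> simp [hd], ?_, fun w => ⟨fun hw => ?_, fun hw => ?_⟩, fun w hw h0 => ?_⟩
  · rintro (m | i)
    exacts [pull_hom r (hf m), dp_hom _ (isHomogeneous_X ℂ)]
  · obtain ⟨u, rfl⟩ := hZ w hw
    rintro (m | i)
    · rw [Sum.elim_inl, eval_pull, hr', (hm u).1 hw]
    · rw [Sum.elim_inr, h5, (h1 _).1 (b i).2 _ ⟨u, rfl⟩]
  · obtain ⟨u, rfl⟩ : w ∈ LinearMap.range j := (ann_iff h1 w).2 fun α hα => by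
      have e := congrArg Subtype.val (b.sum_repr ⟨α, hα⟩)
      simp only [Submodule.coe_sum, Submodule.coe_smul] at e
      rw [← e, dotProduct_sum]
      exact Finset.sum_eq_zero fun i _ => by
        rw [dotProduct_smul, ← h5, show eval w (dp (b i : τ → ℂ) X) = 0 from hw (Sum.inr i), smul_zero]
    exact (hm u).2 fun m => by simpa only [Sum.elim_inl, eval_pull, hr'] using hw (Sum.inl m)
  · obtain ⟨u, rfl⟩ := hZ w hw
    have e : (fun m => grad (Sum.elim (fun m => pull r (f m)) (fun i => dp (b i) X) m) (j u)) =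
        Sum.elim (fun m => res r (grad (f m) u)) fun i => (b i : τ → ℂ) := by
      ext (m | i) : 1
      · simp only [Sum.elim_inl, grad_pull_res, hr']
      · simp only [Sum.elim_inr, h4]
    have h6 : LinearIndependent ℂ fun i => (b i : τ → ℂ) :=
      b.linearIndependent.map' (LinearMap.ker (res j)).subtype (Submodule.ker_subtype _)
    rw [e]
    refine LinearIndependent.sum_type (.of_comp (res j) ?_) h6 (Disjoint.mono
        (b := LinearMap.range (res r)) (d := LinearMap.ker (res j)) (Submodule.span_le.2 ?_)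
        (Submodule.span_le.2 ?_) (Submodule.disjoint_def.2 ?_))
    · simpa only [Function.comp_def, h3] using hi u hw fun e => h0 (by rw [e, map_zero])
    · rintro _ ⟨m, rfl⟩
      exact ⟨_, rfl⟩
    · rintro _ ⟨i, rfl⟩
      exact (b i).2
    · rintro _ ⟨α, rfl⟩ hα
      rw [← h3 α, LinearMap.mem_ker.1 hα, map_zero]

theorem van_lin {l : (τ → ℂ) →ₗ[ℂ] (ρ → ℂ)} (hl : ∀ u, l (j u) = u) (h : ∀ z ∈ Z, ∃ u, j u = z) :
    vI (j ⁻¹' Z) = (vI Z).comap (pull l) ∧ vI Z = (vI (j ⁻¹' Z)).comap (pull j) := by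
  refine ⟨Ideal.ext fun f => ?_, Ideal.ext fun f => ?_⟩ <;> rw [Ideal.mem_comap, mem_van, mem_van]
  · refine ⟨fun a z hz => ?_, fun a u hu => by rw [← hl u, ← eval_pull, a _ hu]⟩
    obtain ⟨u, rfl⟩ := h z hz
    rw [eval_pull, hl, a u hz]
  · refine ⟨fun a u hu => by rw [eval_pull, a _ hu], fun a z hz => ?_⟩
    obtain ⟨u, rfl⟩ := h z hz
    rw [← eval_pull, a u hz]

theorem cn_lin (hZ : Cn Z) (hj : Function.Injective j) (h : ∀ z ∈ Z, ∃ u, j u = z) :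
    Cn (j ⁻¹' Z) ∧ dm (vI (j ⁻¹' Z)) = dm (vI Z) := by
  obtain ⟨l, hl⟩ := j.exists_leftInverse_of_injective (LinearMap.ker_eq_bot.2 hj)
  obtain ⟨hI, hJ⟩ := van_lin (LinearMap.congr_fun hl) h
  have hp := hZ.prime
  have hp' : (vI (j ⁻¹' Z)).IsPrime := hI ▸ Ideal.comap_isPrime _ _
  refine ⟨⟨Set.ext fun u => ⟨fun hu => hZ.closed.le (mem_vZ.2 fun f hf =>
    (eval_pull _ _ _).symm.trans (mem_vZ.1 hu _ (hJ.le hf))), fun hu => mem_vZ.2 fun f hf =>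
      mem_van.1 hf u hu⟩, fun a u hu => ?_, hp', ?_⟩, le_antisymm
    (by rw [hI]; exact dm_comap_le _ hp) (by rw [hJ]; exact dm_comap_le _ hp')⟩
  · rw [Set.mem_preimage, map_smul]
    exact hZ.cone a _ hu
  · obtain ⟨z, hz, h0⟩ := hZ.ne
    obtain ⟨u, rfl⟩ := h z hz
    exact ⟨u, hz, fun e => h0 (by rw [e, map_zero])⟩

theorem tangent_le_span (Z : Set (τ → ℂ)) (z : τ → ℂ) : tangent Z z ≤ Submodule.span ℂ Z := by
  intro v hv
  by_contra hn
  obtain ⟨θ, h1, h2⟩ := Submodule.exists_dual_map_eq_bot_of_notMem hn inferInstance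
  refine h1 ((grad_lin θ z v).symm.trans (mem_tangent.1 hv _ (mem_van.2 fun y hy => ?_)))
  rw [eval_lin, ← Submodule.mem_bot ℂ, ← h2]
  exact Submodule.mem_map_of_mem (Submodule.subset_span hy)

theorem tangent_lin (hj : Function.Injective j) (h : ∀ z ∈ Z, ∃ u, j u = z) (u : ρ → ℂ) :
    (tangent (j ⁻¹' Z) u).map j = tangent Z (j u) := by
  obtain ⟨l, hl⟩ := j.exists_leftInverse_of_injective (LinearMap.ker_eq_bot.2 hj)
  have hl' : ∀ u, l (j u) = u := LinearMap.congr_fun hl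
  obtain ⟨hI, hJ⟩ := van_lin hl' h
  refine le_antisymm ?_ fun w hw => ?_
  · rintro _ ⟨v, hv, rfl⟩ f hf
    exact (grad_pull j f u v).symm.trans (hv _ (hJ.le hf))
  · obtain ⟨v, rfl⟩ : w ∈ LinearMap.range j :=
      Submodule.span_le.2 (fun z hz => h z hz) (tangent_le_span Z _ hw)
    refine ⟨v, fun f hf => ?_, rfl⟩
    have := (grad_pull l f _ _).symm.trans (hw _ (hI.le hf))
    rwa [hl', hl'] at this

theorem sm_lin (hZ : Sm Z k) (hj : Function.Injective j) (h : ∀ z ∈ Z, ∃ u, j u = z) :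
    ∃ k', k' + Fintype.card τ = k + Fintype.card ρ ∧ Sm (j ⁻¹' Z) k' := by
  obtain ⟨hc, hd⟩ := cn_lin hZ.toCn hj h
  obtain ⟨u₀, hu₀, -⟩ := hc.ne
  have h1 := nm_rank_le hc.prime hu₀
  have h6 := hZ.dim
  refine ⟨Fintype.card ρ - dm (vI Z), by omega, hc, by omega, fun u hu h0 => ?_⟩
  have h3 := dual_rank (j ⁻¹' Z) u
  have h4 := dual_rank Z (j u)
  have h5 := hZ.rk _ hu fun e => h0 (hj (e.trans (map_zero j).symm))
  rw [← tangent_lin hj h, ← (Submodule.equivMapOfInjective j hj _).finrank_eq] at h4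
  omega

/-- coordinates on the span -/
theorem exists_coord (Z : Set (τ → ℂ)) :
    ∃ j : (Fin (finrank ℂ (Submodule.span ℂ Z)) → ℂ) →ₗ[ℂ] (τ → ℂ), Function.Injective j ∧
      (∀ z ∈ Z, ∃ u, j u = z) ∧ Submodule.span ℂ (j ⁻¹' Z) = ⊤ := by
  let e := (Module.finBasis ℂ (Submodule.span ℂ Z)).equivFun
  have hj : Function.Injective ((Submodule.span ℂ Z).subtype ∘ₗ e.symm.toLinearMap) :=
    Subtype.val_injective.comp e.symm.injective
  have h : ∀ z ∈ Z, ∃ u, ((Submodule.span ℂ Z).subtype ∘ₗ e.symm.toLinearMap) u = z :=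
    fun z hz => ⟨e ⟨z, Submodule.subset_span hz⟩, by simp⟩
  refine ⟨_, hj, h, Submodule.map_injective_of_injective hj ?_⟩
  rw [Submodule.map_span, Set.image_preimage_eq_of_subset h, Submodule.map_top,
    LinearMap.range_comp_of_range_eq_top _ e.symm.range, Submodule.range_subtype]

end PartLin

section PartEqd
variable {σ : Type} [Fintype σ] {n c k : ℕ} {C : Set (σ → ℂ)} {x : σ → ℂ}
  {φ : (Fin n → ℂ) →ₗ[ℂ] (σ → ℂ)}

theorem frame_cmp {ρ : Type} [Fintype ρ] (hφ : IsFrame C x φ) (χ : (ρ → ℂ) →ₗ[ℂ] (σ → ℂ))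
    (hχ : ∀ w, χ w ∈ tangent C x) : ∃ (j : (ρ → ℂ) →ₗ[ℂ] (Fin n → ℂ)) (l : (ρ → ℂ) →ₗ[ℂ] ℂ),
      ∀ w, χ w = φ (j w) + l w • x := by
  choose w s h using fun i => frame_decomp hφ (hχ (Pi.basisFun ℂ ρ i))
  have e : χ = φ ∘ₗ (Pi.basisFun ℂ ρ).constr ℂ w + ((Pi.basisFun ℂ ρ).constr ℂ s).smulRight x :=
    (Pi.basisFun ℂ ρ).ext fun i => by
      rw [h, LinearMap.add_apply, LinearMap.comp_apply, LinearMap.smulRight_apply,
        Basis.constr_basis, Basis.constr_basis]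
  exact ⟨_, _, fun v => LinearMap.congr_fun e v⟩

theorem good_frame {φ' : (Fin n → ℂ) →ₗ[ℂ] (σ → ℂ)} (hφ : IsFrame C x φ) (hφ' : IsFrame C x φ')
    (h0 : x ≠ 0) {Z : Set (Fin n → ℂ)} (hZ : Z ⊆ lines C x φ') (h : Good Z k) :
    ∃ Z ⊆ lines C x φ, Good Z k := by
  obtain ⟨j, l, e⟩ := frame_cmp hφ φ' (frame_mem hφ')
  have hj : Function.Injective j := (injective_iff_map_eq_zero j).2 fun w hw =>
    (frame_inj hφ' h0 (s := -l w) (by rw [e, hw, map_zero, zero_add, neg_smul, neg_add_cancel])).1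
  refine ⟨j '' Z, ?_, Good.lin hj (fun z ⟨u, _, hu⟩ => ⟨u, hu⟩) rfl
    ((Set.preimage_image_eq Z hj).symm ▸ h)⟩
  rintro _ ⟨w, hw, rfl⟩ s t
  convert hZ hw (s - t * l w) t using 1
  rw [e]
  module

theorem Pre.uniq (H : Pre C x φ c) {p q : Ideal (P (Fin n))}
    (hp : p ∈ (vI (lines C x φ)).minimalPrimes) (hq : q ∈ (vI (lines C x φ)).minimalPrimes)
    (h : n < dm p + dm q) : p = q := by
  have hH : HomI (w0 (Fin n)) (vI (lines C x φ)) := homI_cone fun a _ => lines_smul a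
  obtain ⟨z, h0, h1, h2⟩ := meet hp.isPrime hq.isPrime (hmin hH hp) (hmin hH hq) (by simpa using h)
  obtain ⟨r, -, -, -, h3⟩ := H.loc (vz_sub H.sm.toCn hp.le h1) h0
  exact (h3 p hp h1).trans (h3 q hq h2).symm

/-- a large component is the top part of the cone of lines -/
theorem Pre.ctx (H : Pre C x φ c) (hc : Fintype.card σ = n + 1 + c) {p : Ideal (P (Fin n))}
    (hp : p ∈ (vI (lines C x φ)).minimalPrimes) (hd : dm p + k = n) (h : 2 * k < n) :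
    tpl C x φ = vZ p ∧ Ctt C x φ c k := by
  have h1 : ∀ w ∈ lines C x φ, w ≠ 0 → k ≤ finrank ℂ (NT C x φ w) ∧
      (finrank ℂ (NT C x φ w) ≤ k → w ∈ vZ p) := fun w hw h0 => by
    obtain ⟨q, hq, a1, a2, -⟩ := H.loc hw h0
    have a3 : finrank ℂ (NT C x φ w) ≤ k → p = q := fun _ => Pre.uniq H hp hq (by omega)
    refine ⟨not_lt.1 fun a4 => ?_, fun a4 => a3 a4 ▸ a1⟩
    rw [← a3 a4.le] at a2
    omega
  have h2 : ∀ w ∈ vZ p, finrank ℂ (NT C x φ w) ≤ k := fun w hw => by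
    have := nt_dm H.sm.toCn hp.isPrime hp.le hw
    omega
  obtain ⟨y, hy, y0⟩ := exists_ne_pt hp.isPrime (by omega) 0
  have h3 : tpl C x φ = vZ p := Set.ext fun w => ⟨fun hw => ?_, fun hw =>
    ⟨vz_sub H.sm.toCn hp.le hw, fun v hv h0 => (h2 w hw).trans (h1 v hv h0).1⟩⟩
  · exact ⟨h3, H.sm, hc, H.mem, H.ne, H.free, H.frame, by rw [h3, vI_vZ hp.isPrime]; exact hp.isPrime,
      by rwa [h3, vI_vZ hp.isPrime], by omega⟩
  · rcases eq_or_ne w 0 with rfl | h0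
    · simpa using cone_of_homI (hmin (homI_cone fun a _ => lines_smul a) hp) 0 hy
    · exact (h1 w hw.1 h0).2 ((hw.2 y (vz_sub H.sm.toCn hp.le hy) y0).trans (h2 y hy))

theorem Pre.ctx' (H : Pre C x φ c) (hc : Fintype.card σ = n + 1 + c) {z : Fin n → ℂ}
    (hz : z ∈ lines C x φ) (h0 : z ≠ 0) (hk : finrank ℂ (NT C x φ z) = k) (h : 2 * k < n) :
    Ctt C x φ c k := by
  obtain ⟨q, hq, a1, a2, -⟩ := H.loc hz h0
  have a3 := nt_dm H.sm.toCn hq.isPrime hq.le a1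
  exact (Pre.ctx H hc hq (by omega) h).2

end PartEqd

end Pool.Agent.MP_429080_ag.H91
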