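import Pool.Agent.MP_429080_ag.H91.Aut
import Pool.Agent.MP_429080_ag.FR.G

/-! Lines through generic points. -/

namespace Pool.Agent.MP_429080_ag.H91

open MvPolynomial Module Pool.Agent.EGH Pool.Agent.MP_d171e3_nt Pool.Agent.MP_429080_ag.H26
open Pool.Agent.MP_429080_ag.H26.T
  Pool.Agent.MP_429080_ag.H73

set_option linter.unusedSectionVars false

/-- the cone swept out by the lines through `x` -/
def Lam {σ : Type} (C : Set (σ → ℂ)) (x : σ → ℂ) : Set (σ → ℂ) :=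
  {w | ∀ s t : ℂ, s • x + t • w ∈ C}

/-- its part of largest dimension -/
def Lm {σ : Type} [Fintype σ] (C : Set (σ → ℂ)) (x : σ → ℂ) : Set (σ → ℂ) :=
  {w | w ∈ Lam C x ∧ ∀ v ∈ Lam C x, v ∉ ℂ ∙ x → finrank ℂ (W0 C x v) ≤ finrank ℂ (W0 C x w)}

/-- its span -/
noncomputable def Dd {σ : Type} [Fintype σ] (C : Set (σ → ℂ)) (x : σ → ℂ) :
    Submodule ℂ (σ → ℂ) :=
  Submodule.span ℂ (Lm C x)

section PartL
variable {σ : Type} [Fintype σ] {n c k : ℕ} {C : Set (σ → ℂ)} {S : Set ℂ} {x w b : σ → ℂ}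
  {φ : (Fin n → ℂ) →ₗ[ℂ] (σ → ℂ)}

theorem lam_symm (h : w ∈ Lam C x) : x ∈ Lam C w :=
  fun s t => by rw [add_comm]; exact h t s

theorem lam_mem (h : w ∈ Lam C x) : w ∈ C := by
  simpa using h 0 1

theorem lam_comb (h : w ∈ Lam C x) (s t : ℂ) : s • x + t • w ∈ Lam C x := fun a b => by
  have := h (a + b * s) (b * t)
  rwa [add_smul, mul_smul, mul_smul, add_assoc, ← smul_add] at this

theorem lam_tangent (h : w ∈ Lam C x) (s t : ℂ) : w ∈ tangent C (s • x + t • w) :=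
  mem_tangent_of_line fun e => by
    rw [add_assoc, ← add_smul]
    exact h _ _

theorem lam_iff (hφ : IsFrame C x φ) :
    w ∈ Lam C x ↔ ∃ z ∈ lines C x φ, ∃ s : ℂ, w = φ z + s • x := by
  constructor
  · intro h
    have h1 := lam_tangent h 1 0
    rw [one_smul, zero_smul, add_zero] at h1
    obtain ⟨z, s, rfl⟩ := frame_decomp hφ h1
    refine ⟨z, fun a b => ?_, s, rfl⟩
    have := h (a - b * s) b
    rwa [smul_add, smul_smul, sub_smul, add_comm (b • φ z), ← add_assoc, sub_add_cancel] at this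
  · rintro ⟨z, hz, s, rfl⟩
    have := lam_comb (C := C) (x := x) (w := φ z) hz s 1
    rwa [one_smul, add_comm] at this

theorem mem_w0 (h : ∀ᶠ t in Filter.cofinite, b ∈ tangent C (x + (t : ℂ) • w)) :
    b ∈ W0 C x w := by
  refine mem_W0.2 fun G hG j => ?_
  rw [← om_dot, Polynomial.eq_zero_of_infinite_isRoot
    (∑ i, lp x w (pderiv i G) * Polynomial.C (b i)) ?_, Polynomial.coeff_zero]
  refine (Set.infinite_of_finite_compl h).mono fun t ht => ?_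
  exact (grad_line x w b G t).trans (mem_tangent.1 ht G hG)

theorem w0_mem (h : b ∈ W0 C x w) (t : ℂ) : b ∈ tangent C (x + t • w) :=
  (Submodule.mem_iInf _).1 h t

theorem w0_sh (hC : Cn C) (x w : σ → ℂ) (s : ℂ) : W0 C x w ≤ W0 C x (w + s • x) := fun b hb => by
  refine mem_w0 ?_
  have h1 : ∀ᶠ t : ℂ in Filter.cofinite, 1 + t * s ≠ 0 := by
    rcases eq_or_ne s 0 with rfl | hs
    · simp
    · refine (Filter.eventually_cofinite_ne (-s⁻¹)).mono fun t ht e => ht ?_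
      field_simp
      linear_combination e
  refine h1.mono fun t ht => ?_
  have e : x + t • (w + s • x) = (1 + t * s) • (x + (t / (1 + t * s)) • w) := by
    rw [smul_add (1 + t * s), smul_smul, mul_div_cancel₀ _ ht, smul_add, smul_smul, add_smul,
      one_smul]
    abel
  rw [e, tangent_smul hC ht]
  exact w0_mem hb _

theorem w0_shift (hC : Cn C) (x w : σ → ℂ) (s : ℂ) : W0 C x (w + s • x) = W0 C x w :=
  le_antisymm (by simpa using w0_sh hC x (w + s • x) (-s)) (w0_sh hC x w s)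

theorem w0_symm (hC : Cn C) (x w : σ → ℂ) : W0 C x w ≤ W0 C w x := fun b hb => by
  refine mem_w0 ((Filter.eventually_cofinite_ne 0).mono fun t ht => ?_)
  have e : w + t • x = t • (x + t⁻¹ • w) := by
    rw [smul_add, smul_smul, mul_inv_cancel₀ ht, one_smul, add_comm]
  rw [e, tangent_smul hC ht]
  exact w0_mem hb _

theorem fr_mem (H : Pre C x φ c) {z : Fin n → ℂ} {s : ℂ} : φ z + s • x ∈ ℂ ∙ x ↔ z = 0 := by
  refine ⟨fun h => ?_, fun h => Submodule.mem_span_singleton.2 ⟨s, by simp [h]⟩⟩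
  obtain ⟨t, ht⟩ := Submodule.mem_span_singleton.1 h
  exact (frame_inj H.frame H.ne (s := s - t) (by rw [sub_smul, ht]; abel)).1

theorem w0_nt (H : Pre C x φ c) {z : Fin n → ℂ} (hz : z ∈ lines C x φ) (s : ℂ) :
    finrank ℂ (W0 C x (φ z + s • x)) + finrank ℂ (NT C x φ z) = n + 1 := by
  rw [w0_shift H.sm.toCn]
  exact nt_w0 H.mem H.ne H.frame hz

theorem w0_max (H : Ctt C x φ c k) (h : w ∈ Lam C x) (hn : w ∉ ℂ ∙ x) :
    finrank ℂ (W0 C x w) + k ≤ n + 1 := by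
  obtain ⟨z, hz, s, rfl⟩ := (lam_iff H.frame).1 h
  have h1 := w0_nt H.pre hz s
  have h2 := H.nt_min hz (mt (fr_mem H.pre).2 hn)
  omega

theorem lm_iff (H : Ctt C x φ c k) :
    w ∈ Lm C x ↔ ∃ z ∈ tpl C x φ, ∃ s : ℂ, w = φ z + s • x := by
  constructor
  · rintro ⟨h, h1⟩
    obtain ⟨z, hz, s, rfl⟩ := (lam_iff H.frame).1 h
    refine ⟨z, ⟨hz, fun v hv h0 => ?_⟩, s, rfl⟩
    have h2 := h1 _ ((lam_iff H.frame).2 ⟨v, hv, 0, rfl⟩) (mt (fr_mem H.pre).1 h0)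
    have h3 := w0_nt H.pre hz s
    have h4 := w0_nt H.pre hv 0
    omega
  · rintro ⟨z, hz, s, rfl⟩
    refine ⟨(lam_iff H.frame).2 ⟨z, hz.1, s, rfl⟩, fun v hv hn => ?_⟩
    obtain ⟨u, hu, t, rfl⟩ := (lam_iff H.frame).1 hv
    have h2 := hz.2 u hu (mt (fr_mem H.pre).2 hn)
    have h3 := w0_nt H.pre hz.1 s
    have h4 := w0_nt H.pre hu t
    omega

theorem lm_of (H : Ctt C x φ c k) (h : w ∈ Lam C x) (hk : n + 1 ≤ finrank ℂ (W0 C x w) + k) :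
    w ∈ Lm C x := ⟨h, fun v hv hn => by
  have := w0_max H hv hn
  omega⟩

theorem lm_rk (H : Ctt C x φ c k) (h : w ∈ Lm C x) : n + 1 ≤ finrank ℂ (W0 C x w) + k := by
  obtain ⟨z, hz, s, rfl⟩ := (lm_iff H).1 h
  have h1 := w0_nt H.pre hz.1 s
  have h2 := (Submodule.finrank_mono (nt_le H.sm.toCn (fun _ hw => hw.1) z)).trans
    (gsm_rank_le H hz)
  omega

theorem lm_comb (H : Ctt C x φ c k) (h : w ∈ Lm C x) (s t : ℂ) : s • x + t • w ∈ Lm C x := by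
  obtain ⟨z, hz, a, rfl⟩ := (lm_iff H).1 h
  exact (lm_iff H).2 ⟨t • z, H.cn.cone t z hz, s + t * a, by rw [map_smul]; module⟩

theorem lm_self (H : Ctt C x φ c k) (s : ℂ) : s • x ∈ Lm C x := by
  obtain ⟨z, hz, -⟩ := H.cn.ne
  simpa using lm_comb H ((lm_iff H).2 ⟨z, hz, 0, rfl⟩) s 0

theorem Dd_eq (H : Ctt C x φ c k) :
    Dd C x = (Submodule.span ℂ (tpl C x φ)).map φ ⊔ ℂ ∙ x := by
  refine le_antisymm (Submodule.span_le.2 fun w hw => ?_) (sup_le ?_ ?_)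
  · obtain ⟨z, hz, s, rfl⟩ := (lm_iff H).1 hw
    exact Submodule.add_mem_sup (Submodule.mem_map_of_mem (Submodule.subset_span hz))
      (Submodule.smul_mem _ _ (Submodule.mem_span_singleton_self x))
  · rw [Submodule.map_span]
    refine Submodule.span_mono ?_
    rintro _ ⟨z, hz, rfl⟩
    exact (lm_iff H).2 ⟨z, hz, 0, by simp⟩
  · refine (Submodule.span_singleton_le_iff_mem _ _).2 (Submodule.subset_span ?_)
    simpa using lm_self H 1

theorem Dd_rank (H : Ctt C x φ c k) :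
    finrank ℂ (Dd C x) = finrank ℂ (Submodule.span ℂ (tpl C x φ)) + 1 := by
  have h4 := Submodule.finrank_sup_add_finrank_inf_eq
    ((Submodule.span ℂ (tpl C x φ)).map φ) (ℂ ∙ x)
  rwa [← Dd_eq H, finrank_span_singleton H.ne,
    (H.frame.2.1.mono_left LinearMap.map_le_range).eq_bot, finrank_bot,
    ← (Submodule.equivMapOfInjective φ H.frame.1 _).finrank_eq, add_zero] at h4

theorem lam_ne (H : Ctt C x φ c k) (h : w ∈ Lm C x) (hn : w ∉ ℂ ∙ x) :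
    ∃ z ∈ tpl C x φ, z ≠ 0 ∧ W0 C x w = W0 C x (φ z) := by
  obtain ⟨z, hz, s, rfl⟩ := (lm_iff H).1 h
  exact ⟨z, hz, mt (fr_mem H.pre).2 hn, w0_shift H.sm.toCn _ _ _⟩

/-- L3 -/
theorem w0_le (H : Ctt C x φ c k) (h : w ∈ Lm C x) (hn : w ∉ ℂ ∙ x) : W0 C x w ≤ Dd C x := by
  obtain ⟨z, hz, h0, e⟩ := lam_ne H h hn
  rw [e, Dd_eq H]
  intro a ha
  have ht := w0_mem ha 0
  rw [zero_smul, add_zero] at ht
  obtain ⟨v, s, rfl⟩ := frame_decomp H.frame ht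
  refine Submodule.add_mem_sup (Submodule.mem_map_of_mem (tangent_le_span _ z ?_))
    (Submodule.smul_mem _ _ (Submodule.mem_span_singleton_self x))
  have hx : x ∈ W0 C x (φ z) := mem_W0.2 fun G hG j => om_x hz.1 hG j
  have h1 := (Submodule.add_mem_iff_left _ (Submodule.smul_mem _ s hx)).1 ha
  rw [mem_tangent_nm, H.nm_eq hz h0, NT, span_dot]
  rintro _ ⟨G, hG, j, rfl⟩
  cases j with
  | zero => rw [tay_zero H.mem hG, grad_zero, zero_dotProduct]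
  | succ j => rw [grad_tay, mem_W0.1 h1 G hG]

theorem lam_pair (hs : StI S (vI C)) (h : w ∈ Lam C x) {D : Dr} (hD : D ∈ Der S) :
    Pair C x w (ap D x) (ap D w) := fun t => by
  have h1 := h 1 t
  have h2 := lam_tangent h 1 t
  rw [one_smul] at h1 h2
  have h3 := hs.der h1 (ap_mem hD _)
  rw [ap_add, ap_smul, ← add_assoc] at h3
  exact (Submodule.add_mem_iff_left _ (Submodule.smul_mem _ _ h2)).1 h3

theorem dv_le_w0 (hs : StI S (vI C)) (hx : Rt S x) (h : w ∈ Lam C x) : dv S w ≤ W0 C x w := by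
  rintro _ ⟨D, hD, rfl⟩
  refine mem_w0 ((Filter.eventually_cofinite_ne 0).mono fun t ht => ?_)
  have := lam_pair hs h hD t
  rw [hx.ap hD, zero_add] at this
  exact (Submodule.smul_mem_iff _ ht).1 this

theorem dv_le_w0' (hs : StI S (vI C)) (hw : Rt S w) (h : w ∈ Lam C x) : dv S x ≤ W0 C x w := by
  rintro _ ⟨D, hD, rfl⟩
  refine (Submodule.mem_iInf _).2 fun t => ?_
  have := lam_pair hs h hD t
  rwa [hw.ap hD, smul_zero, add_zero] at this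

theorem l1 (H : Ctt C x φ c k) (hS : S.Countable) :
    ∃ w ∈ Lam C x, n + 1 ≤ td S w + k ∧ ∀ w' ∈ Lm C x, Sp S w w' := by
  classical
  let ψ : (Fin n ⊕ Unit → ℂ) →ₗ[ℂ] (σ → ℂ) := φ.comp (LinearMap.funLeft ℂ ℂ Sum.inl) +
    (LinearMap.proj (Sum.inr ())).smulRight x
  have hψ : ∀ z s, ψ (Sum.elim z fun _ => s) = φ z + s • x := fun _ _ => rfl
  have hi : Function.Injective ψ := (injective_iff_map_eq_zero ψ).2 fun v hv => by
    obtain ⟨h1, h2⟩ := frame_inj H.frame H.ne (w := v ∘ Sum.inl) (s := v (Sum.inr ()))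
      ((add_comm _ _).trans hv)
    ext (i | i)
    exacts [congrFun h1 i, h2]
  obtain ⟨S', h1, h2, h3⟩ := exists_rtL hS ψ
  obtain ⟨z, z1, -, z2, z3, -⟩ := gen h1 H.prime (f := 1)
    ((Ideal.ne_top_iff_one _).1 H.prime.ne_top)
  obtain ⟨s, hs, -⟩ := gen_one (adj_countable h1 z)
  rw [H.cn.closed] at z1 z3
  refine ⟨_, (lam_iff H.frame).2 ⟨z, z1.1, s, rfl⟩, ?_, fun w' hw' => ?_⟩
  · have e1 := td_map h3 hi (Sum.elim z fun _ => s)
    have e2 := td_anti' h2 (φ z + s • x)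
    have e3 := H.dim
    rw [hψ, td_tower, td_one hs] at e1
    omega
  · obtain ⟨z', hz', s', rfl⟩ := (lm_iff H).1 hw'
    rw [← hψ, ← hψ]
    refine ((sp_elim (z3 z' hz') (fun u => ?_) _).map h3).anti' h2
    exact sp_one hs (u ())

theorem l2 (H : Ctt C x φ c k) (hs : StI S (vI C)) (hx : Rt S x) (h : w ∈ Lam C x) :
    td S w + k ≤ n + 1 := by
  by_cases hn : w ∈ ℂ ∙ x
  · have h1 := (stab_span (S := S) (T := {x}) (by rintro _ rfl; exact hx)).td_le hn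
    have h2 := H.lt
    rw [finrank_span_singleton H.ne] at h1
    omega
  · exact (Nat.add_le_add_right (Submodule.finrank_mono (dv_le_w0 hs hx h)) _).trans
      (w0_max H h hn)

theorem lm_td (H : Ctt C x φ c k) (hs : StI S (vI C)) (hx : Rt S x) (h : w ∈ Lam C x)
    (hd : n + 1 ≤ td S w + k) : w ∈ Lm C x :=
  lm_of H h (hd.trans (Nat.add_le_add_right (Submodule.finrank_mono (dv_le_w0 hs hx h)) _))

theorem mem_aut (hC : Cn C) (hs : StI S (vI C)) {τ : ℂ ≃+* ℂ} (hτ : Fx S τ) (h : x ∈ C) :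
    τ ∘ x ∈ C := by
  rw [← hC.closed] at h ⊢
  refine hs.sp h (lc_le.1 (hτ.lc x).ge)

theorem lam_aut (hC : Cn C) (hs : StI S (vI C)) {τ : ℂ ≃+* ℂ} (hτ : Fx S τ) (h : w ∈ Lam C x) :
    τ ∘ w ∈ Lam C (τ ∘ x) := fun s t => by
  have := mem_aut hC hs hτ (h (τ.symm s) (τ.symm t))
  convert this using 1
  ext i
  simp

theorem td_aut {ι κ : Type} [Fintype ι] [Fintype κ] {τ : ℂ ≃+* ℂ} (hτ : Fx S τ) (ξ : ι → ℂ)
    (η : κ → ℂ) : td (adj S (τ ∘ ξ)) (τ ∘ η) = td (adj S ξ) η := by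
  have h1 := td_tower S ξ η
  have h2 := td_tower S (τ ∘ ξ) (τ ∘ η)
  rw [← Sum.comp_elim, ← dm_lc, hτ.lc, ← dm_lc S (τ ∘ ξ), hτ.lc, dm_lc, dm_lc] at h2
  omega

end PartL

/-- a generic point and a generic line through it -/
structure Lf (σ : Type) [Fintype σ] (n c k : ℕ) where
  C : Set (σ → ℂ)
  S : Set ℂ
  x : σ → ℂ
  w : σ → ℂ
  sm : Sm C c
  card : Fintype.card σ = n + 1 + c
  cnt : S.Countable
  st : StI S (vI C)
  hyp : ∀ y, Lc S y = vI C → ∀ φ : (Fin n → ℂ) →ₗ[ℂ] (σ → ℂ), IsFrame C y φ → Ctt C y φ c k ∧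
    2 * finrank ℂ (Submodule.span ℂ (tpl C y φ)) + 3 * k + 2 ≤ 3 * n
  gx : Lc S x = vI C
  wm : w ∈ Lam C x
  wt : n + 1 ≤ td (adj S x) w + k

namespace Lf
variable {σ : Type} [Fintype σ] {n c k : ℕ} (Q : Lf σ n c k)

def Gen (y : σ → ℂ) : Prop := Lc Q.S y = vI Q.C
noncomputable def rr : Ideal (P (σ ⊕ σ)) := Lc Q.S (Sum.elim Q.x Q.w)
def R (y y' : σ → ℂ) : Prop := Sum.elim y y' ∈ vZ Q.rr
def Step (y y' : σ → ℂ) : Prop := Lc Q.S (Sum.elim y y') = Q.rr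
def Cl (y : σ → ℂ) : Prop := Relation.ReflTransGen Q.Step Q.x y
def S1 : Set ℂ := adj Q.S Q.x
def Mx (y : σ → ℂ) : Prop := Q.Cl y ∧ ∀ y', Q.Cl y' → td Q.S1 y' ≤ td Q.S1 y
noncomputable def DD (y : σ → ℂ) : Submodule ℂ Dr := Der Q.S ⊓ (Dd Q.C y).comap (apL y)

section PartR
variable {Q} {y y' : σ → ℂ}

theorem dm_C (Q : Lf σ n c k) : dm (vI Q.C) = n + 1 := by
  have h1 := Q.sm.dim
  have h2 := Q.card
  omega

theorem Gen.mem (h : Q.Gen y) : y ∈ Q.C := by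
  rw [← Q.sm.closed, ← show Lc Q.S y = _ from h]
  exact mem_lc.2 (Sp.refl _ _)

theorem Gen.ne (h : Q.Gen y) : y ≠ 0 := by
  refine ne_of_td (S := Q.S) ?_
  rw [← dm_lc, show Lc Q.S y = _ from h, Q.dm_C]
  omega

theorem Gen.td_eq (h : Q.Gen y) : td Q.S y = n + 1 := by
  rw [← dm_lc, show Lc Q.S y = _ from h, Q.dm_C]

theorem Gen.dv_eq (h : Q.Gen y) : dv Q.S y = tangent Q.C y := by
  rw [← lc_tangent, show Lc Q.S y = _ from h, Q.sm.closed]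

theorem Gen.ctx (h : Q.Gen y) : ∃ φ : (Fin n → ℂ) →ₗ[ℂ] (σ → ℂ), Ctt Q.C y φ c k ∧
    2 * finrank ℂ (Submodule.span ℂ (tpl Q.C y φ)) + 3 * k + 2 ≤ 3 * n := by
  obtain ⟨φ, hφ⟩ := exists_frame Q.sm Q.card h.mem h.ne
  exact ⟨φ, Q.hyp y h φ hφ⟩

theorem Gen.of_sp (h : Q.Gen y') (hy : y ∈ Q.C) (hs : Sp Q.S y y') : Q.Gen y :=
  le_antisymm ((lc_le.2 hs).trans h.le) (Q.st.le_lc (by rwa [Q.sm.closed]))

theorem Gen.l2 (h : Q.Gen y) (h' : y' ∈ Lam Q.C y) {S : Set ℂ} (hS : Q.S ⊆ S) (hy : Rt S y) :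
    td S y' + k ≤ n + 1 := by
  obtain ⟨φ, H, -⟩ := h.ctx
  exact H91.l2 H (Q.st.mono' hS) hy h'

theorem Gen.l1 (h : Q.Gen y) {S : Set ℂ} (hS : S.Countable) :
    ∃ w ∈ Lam Q.C y, n + 1 ≤ td S w + k ∧ ∀ w' ∈ Lm Q.C y, Sp S w w' := by
  obtain ⟨φ, H, -⟩ := h.ctx
  exact H91.l1 H hS

theorem Gen.lm (h : Q.Gen y) (h' : y' ∈ Lam Q.C y) {S : Set ℂ} (hS : Q.S ⊆ S) (hy : Rt S y)
    (hd : n + 1 ≤ td S y' + k) : y' ∈ Lm Q.C y := by
  obtain ⟨φ, H, -⟩ := h.ctx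
  exact lm_td H (Q.st.mono' hS) hy h' hd

theorem Gen.self (h : Q.Gen y) (s : ℂ) : s • y ∈ Lm Q.C y := by
  obtain ⟨φ, H, -⟩ := h.ctx
  exact lm_self H s

theorem Gen.sp (h : Q.Gen y) (h' : y' ∈ Lam Q.C y) {S : Set ℂ} (hS : S.Countable) (hS' : Q.S ⊆ S)
    (hy : Rt S y) (hd : n + 1 ≤ td S y' + k) {a : σ → ℂ} (ha : a ∈ Lm Q.C y) : Sp S y' a := by
  obtain ⟨w, w1, -, w2⟩ := h.l1 hS
  have := h.l2 w1 hS' hy
  exact (lc_le.1 (lc_eq_of_sp (w2 y' (h.lm h' hS' hy hd)) (by omega)).le).trans (w2 a ha)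

theorem lt (Q : Lf σ n c k) : k < n := by
  obtain ⟨φ, H, -⟩ := Gen.ctx (Q := Q) Q.gx
  exact H.lt

theorem dm_rr (Q : Lf σ n c k) : dm Q.rr + k = 2 * n + 2 := by
  have h1 := Gen.td_eq (Q := Q) Q.gx
  have h2 := Gen.l2 (Q := Q) Q.gx Q.wm (subset_adj _ _) (rt_adj _ _)
  have h3 := Q.wt
  rw [rr, dm_lc, td_tower]
  omega

theorem R.sp {S : Set ℂ} (h : Q.R y y') (hS : Q.S ⊆ S) {a a' : σ → ℂ}
    (hs : Sp S (Sum.elim y y') (Sum.elim a a')) : Q.R a a' :=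
  (stI_lc _ _).sp h (hs.anti' hS)

theorem r1 (h : Q.Gen y) (h' : y' ∈ Lm Q.C y) : Q.R y y' := by
  obtain ⟨τ, hτ, rfl⟩ := aut Q.cnt (Q.gx.trans h.symm)
  refine mem_lc.2 ((lc_le.1 (hτ.lc _).ge).trans ?_)
  rw [Sum.comp_elim]
  exact sp_adj (h.sp (lam_aut Q.sm.toCn Q.st hτ Q.wm) (adj_countable Q.cnt _) (subset_adj _ _)
    (rt_adj _ _) (by rw [td_aut hτ]; exact Q.wt) h')

theorem sp_comb {S : Set ℂ} {a a' b b' : σ → ℂ} {μ μ' : Fin 4 → ℂ}
    (h : Sp S (Sum.elim (Sum.elim a a') μ) (Sum.elim (Sum.elim b b') μ')) :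
    Sp S (Sum.elim (μ 0 • a + μ 1 • a') (μ 2 • a + μ 3 • a'))
      (Sum.elim (μ' 0 • b + μ' 1 • b') (μ' 2 • b + μ' 3 • b')) := by
  let p : Fin 4 → Fin 4 → σ → P ((σ ⊕ σ) ⊕ Fin 4) := fun i j s =>
    X (.inr i) * X (.inl (.inl s)) + X (.inr j) * X (.inl (.inr s))
  have h1 : ∀ i j s, Ov (cf S) (p i j s) := fun i j s =>
    ov_add (ov_mul (ov_X' _) (ov_X' _)) (ov_mul (ov_X' _) (ov_X' _))
  have := h.ev (s := Sum.elim (p 0 1) (p 2 3)) (by rintro (s | s) <;> exact h1 _ _ _)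
  convert this using 1 <;> ext (s | s) <;> simp [ev, p]

theorem R.comb (h : Q.R y y') (μ' : Fin 4 → ℂ) : ∃ μ : Fin 4 → ℂ,
    Sp Q.S (Sum.elim (μ 0 • Q.x + μ 1 • Q.w) (μ 2 • Q.x + μ 3 • Q.w)) (Sum.elim Q.x Q.w) ∧
    Sp Q.S (Sum.elim (μ 0 • Q.x + μ 1 • Q.w) (μ 2 • Q.x + μ 3 • Q.w))
      (Sum.elim (μ' 0 • y + μ' 1 • y') (μ' 2 • y + μ' 3 • y')) := by
  obtain ⟨μ, -, hμ⟩ := gen_top (adj_countable Q.cnt (Sum.elim Q.x Q.w)) (Fin 4)
  refine ⟨μ, ?_, sp_comb (sp_elim (mem_lc.1 h) hμ μ')⟩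
  simpa using sp_comb (sp_elim (Sp.refl _ _) hμ ![1, 0, 0, 1])

theorem r2 (h : Q.R y y') : y' ∈ Lam Q.C y := fun s t => by
  obtain ⟨μ, -, h1⟩ := h.comb ![s, t, 0, 0]
  have h2 := Q.st.sp (ξ := μ 0 • Q.x + μ 1 • Q.w) (by rw [Q.sm.closed]; exact Q.wm _ _)
    (h1.comp Sum.inl)
  rwa [Q.sm.closed] at h2

theorem r3 (h : Q.R y y') (s t s' t' : ℂ) : Q.R (s • y + t • y') (s' • y + t' • y') := by
  obtain ⟨μ, h1, h2⟩ := h.comb ![s, t, s', t']
  have h3 : Q.Gen _ := Gen.of_sp Q.gx (Q.wm _ _) (by simpa using h1.comp Sum.inl)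
  refine (r1 h3 (h3.lm (fun a b => ?_) (subset_adj _ _) (rt_adj _ _) ?_)).sp subset_rfl h2
  · convert Q.wm (a * μ 0 + b * μ 2) (a * μ 1 + b * μ 3) using 1
    simp only [smul_add, add_smul, mul_smul]
    abel
  · have h4 := td_sp h1
    have h5 := Q.dm_rr
    have h6 := h3.td_eq
    rw [rr, dm_lc] at h5
    rw [td_tower Q.S (μ 0 • Q.x + μ 1 • Q.w)] at h4
    omega

theorem R.symm (h : Q.R y y') : Q.R y' y := by
  simpa using r3 h 0 1 1 0

theorem Step.R (h : Q.Step y y') : Q.R y y' := mem_lc.2 (lc_le.1 h.ge)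

theorem Step.gen (h : Q.Step y y') : Q.Gen y := by
  have h1 := lc_comp Q.S (Sum.elim y y') Sum.inl
  rw [show Lc Q.S _ = _ from h, rr, lc_comp] at h1
  exact h1.symm.trans Q.gx

theorem Step.td_eq (h : Q.Step y y') : td Q.S (Sum.elim y y') + k = 2 * n + 2 := by
  rw [← dm_lc, show Lc Q.S _ = _ from h, Q.dm_rr]

theorem step_of_td (h : Q.R y y') (hd : 2 * n + 2 ≤ td Q.S (Sum.elim y y') + k) :
    Q.Step y y' :=
  lc_eq (lc_prime _ _) (stI_lc _ _) h (by have := Q.dm_rr; omega)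

theorem step_iff : Q.Step y y' ↔ Q.Gen y ∧ y' ∈ Lam Q.C y ∧ n + 1 ≤ td (adj Q.S y) y' + k := by
  have h1 := td_tower Q.S y y'
  refine ⟨fun h => ⟨h.gen, r2 h.R, ?_⟩, fun ⟨h2, h3, h4⟩ => step_of_td (r1 h2 (h2.lm h3 (subset_adj _ _) (rt_adj _ _) h4)) ?_⟩
  · have h2 := h.td_eq
    have h3 := h.gen.td_eq
    omega
  · have h5 := h2.td_eq
    omega

theorem Step.symm (h : Q.Step y y') : Q.Step y' y := by
  refine step_of_td h.R.symm ?_
  rw [← h.td_eq, td_tower, td_tower, td_swap]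

theorem Step.lm (h : Q.Step y y') : y' ∈ Lm Q.C y :=
  h.gen.lm (r2 h.R) (subset_adj _ _) (rt_adj _ _) (step_iff.1 h).2.2

theorem Step.sp (h : Q.Step y y') {a : σ → ℂ} (ha : a ∈ Lm Q.C y) : Sp (adj Q.S y) y' a :=
  h.gen.sp (r2 h.R) (adj_countable Q.cnt _) (subset_adj _ _) (rt_adj _ _) (step_iff.1 h).2.2 ha

theorem Step.not_mem (h : Q.Step y y') : y' ∉ ℂ ∙ y := fun hn => by
  have h1 := (stab_span (S := adj Q.S y) (T := {y}) (by rintro _ rfl; exact rt_adj _ _)).td_le hn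
  have h2 := Q.lt
  have h3 := (step_iff.1 h).2.2
  rw [finrank_span_singleton h.gen.ne] at h1
  omega

theorem Step.dv_eq (h : Q.Step y y') : dv (adj Q.S y) y' = W0 Q.C y y' := by
  obtain ⟨φ, H, -⟩ := h.gen.ctx
  refine Submodule.eq_of_le_of_finrank_le
    (dv_le_w0 (Q.st.mono' (subset_adj _ _)) (rt_adj _ _) (r2 h.R)) ?_
  have h1 := w0_max H (r2 h.R) h.not_mem
  have h2 : n + 1 ≤ finrank ℂ (dv (adj Q.S y) y') + k := (step_iff.1 h).2.2
  omega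

theorem Step.dv_eq' (h : Q.Step y y') : dv (adj Q.S y') y = W0 Q.C y y' := by
  rw [h.symm.dv_eq]
  exact le_antisymm (w0_symm Q.sm.toCn _ _) (w0_symm Q.sm.toCn _ _)

theorem Gen.step (h : Q.Gen y) {S : Set ℂ} (hS : S.Countable) :
    ∃ y', Q.Step y y' ∧ ∀ a ∈ Lm Q.C y, Sp S y' a := by
  obtain ⟨w, w1, w2, w3⟩ := h.l1 ((adj_countable Q.cnt y).union hS)
  refine ⟨w, step_iff.2 ⟨h, w1, w2.trans ?_⟩, fun a ha => (w3 a ha).anti' Set.subset_union_right⟩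
  exact Nat.add_le_add_right (td_anti' Set.subset_union_left _) _

theorem Cl.gen (h : Q.Cl y) : Q.Gen y := by
  cases h with
  | refl => exact Q.gx
  | tail _ h => exact h.symm.gen

end PartR

end Lf

end Pool.Agent.MP_429080_ag.H91

/-! From a generic point to general points. -/

namespace Pool.Agent.MP_429080_ag.H91

open MvPolynomial Module Pool.Agent.EGH Pool.Agent.MP_d171e3_nt Pool.Agent.MP_429080_ag.H26
open Pool.Agent.MP_429080_ag.H26.T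
  Pool.Agent.MP_429080_ag.H73

set_option linter.unusedSectionVars false

section s8
variable {ι κ σ τ : Type} [Fintype ι] [Fintype κ] [Fintype σ] [Fintype τ] {S : Set ℂ} {n : ℕ}
  {C : Set (σ → ℂ)}

theorem gnr_of_lc (hC : Cn C) {y : σ → ℂ} (hy : Lc S y = vI C) : Gnr (cf S) C y :=
  ⟨by rw [← hC.closed, ← hy]; exact mem_lc.2 (Sp.refl S y),
    fun f hf h0 => hy ▸ (ov_mem_lc hf).2 h0⟩

theorem s8_frame {x : σ → ℂ} {φ : (Fin n → ℂ) →ₗ[ℂ] (σ → ℂ)} : IsFrame C x φ ↔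
    (∀ w, ∀ s : ℂ, φ w + s • x = 0 → w = 0) ∧
      ∀ v, (∃ w, ∃ s : ℂ, v = φ w + s • x) ↔ v ∈ tangent C x := by
  have h1 : ∀ v, v ∈ LinearMap.range φ ⊔ (ℂ ∙ x) ↔ ∃ w, ∃ s : ℂ, v = φ w + s • x := fun v => by
    simp only [Submodule.mem_sup, LinearMap.mem_range, Submodule.mem_span_singleton]
    constructor
    · rintro ⟨_, ⟨w, rfl⟩, _, ⟨s, rfl⟩, rfl⟩
      exact ⟨w, s, rfl⟩
    · rintro ⟨w, s, rfl⟩
      exact ⟨_, ⟨w, rfl⟩, _, ⟨s, rfl⟩, rfl⟩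
  constructor
  · rintro ⟨f1, f2, f3⟩
    refine ⟨fun w s h => f1 ?_, fun v => by rw [← f3, h1]⟩
    rw [map_zero]
    refine Submodule.disjoint_def.1 f2 _ ⟨w, rfl⟩ ?_
    rw [eq_neg_of_add_eq_zero_left h]
    exact neg_mem (Submodule.smul_mem _ _ (Submodule.mem_span_singleton_self x))
  · rintro ⟨f1, f2⟩
    refine ⟨(injective_iff_map_eq_zero φ).2 fun w h => f1 w 0 (by simp [h]),
      Submodule.disjoint_def.2 ?_, Submodule.ext fun v => (h1 v).trans (f2 v)⟩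
    rintro _ ⟨w, rfl⟩ h
    obtain ⟨s, hs⟩ := Submodule.mem_span_singleton.1 h
    rw [f1 w (-s) (by rw [neg_smul, hs, add_neg_cancel]), map_zero]

/-- polynomial maps -/
abbrev Pv (S : Set ℂ) (V : (ι → ℂ) → τ → ℂ) : Prop := ∀ j, Pf S fun z => V z j

/-- polynomial families of linear maps -/
def Pl (S : Set ℂ) (Φ : (ι → ℂ) → (Fin n → ℂ) →ₗ[ℂ] (σ → ℂ)) : Prop :=
  ∀ a, Pv S fun z => Φ z (Pi.single a 1)

variable {V W : (ι → ℂ) → τ → ℂ} {F : (ι → ℂ) → ℂ} {X : (ι → ℂ) → σ → ℂ}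
  {Φ : (ι → ℂ) → (Fin n → ℂ) →ₗ[ℂ] (σ → ℂ)} {m : ℕ} {G : Fin m → P σ}

theorem Pf.lift (κ : Type) [Fintype κ] (h : Pf S F) :
    Pf S fun z : ι ⊕ κ → ℂ => F (z ∘ Sum.inl) :=
  let ⟨_, f1, f2⟩ := h
  (Pf.eval f1 fun i => Pf.coord (Sum.inl i)).congr fun _ => f2 _

theorem Pv.lift (κ : Type) [Fintype κ] (h : Pv S V) :
    Pv S fun z : ι ⊕ κ → ℂ => V (z ∘ Sum.inl) := fun j => (h j).lift κ

theorem Pl.lift (κ : Type) [Fintype κ] (h : Pl S Φ) :
    Pl S fun z : ι ⊕ κ → ℂ => Φ (z ∘ Sum.inl) := fun a => (h a).lift κ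

theorem Pv.inr : Pv S fun z : ι ⊕ κ → ℂ => z ∘ Sum.inr := fun j => Pf.coord (Sum.inr j)

theorem Pv.zero : Pv S fun _ : ι → ℂ => (0 : τ → ℂ) := fun _ => Pf.zero

theorem Pv.add (h : Pv S V) (h' : Pv S W) : Pv S fun z => V z + W z := fun j => (h j).add (h' j)

theorem Pv.smul (h : Pf S F) (h' : Pv S W) : Pv S fun z => F z • W z := fun j => h.mul (h' j)

theorem Pl.app (h : Pl S Φ) {U : (ι → ℂ) → Fin n → ℂ} (hU : Pv S U) :
    Pv S fun z => Φ z (U z) := fun j =>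
  (Pf.sum Finset.univ fun a => (hU a).mul (h a j)).congr fun z => by
    beta_reduce
    conv_rhs => rw [pi_eq_sum_univ' (U z), map_sum]
    simp only [map_smul, Finset.sum_apply, Pi.smul_apply, smul_eq_mul]

theorem s8_mem (hC : Cn C) (hG : ∀ i, Ov (cf S) (G i)) (e : vI C = Ideal.span (Set.range G))
    (hX : Pv S X) : Df S fun z => X z ∈ C :=
  (Df.vz hG hX).congr fun _ => by rw [← e, hC.closed]

theorem s8_lam (hC : Cn C) (hG : ∀ i, Ov (cf S) (G i)) (e : vI C = Ideal.span (Set.range G))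
    (hX : Pv S X) {Y : (ι → ℂ) → σ → ℂ} (hY : Pv S Y) : Df S fun z => Y z ∈ Lam C (X z) :=
  Df.all1 (R := fun z s => ∀ t : ℂ, s • X z + t • Y z ∈ C)
    (Df.all1 (R := fun z t => z (Sum.inr ()) • X (z ∘ Sum.inl) + t • Y (z ∘ Sum.inl) ∈ C)
      (s8_mem hC hG e ((Pv.smul ((Pf.coord (Sum.inr ())).lift Unit) ((hX.lift Unit).lift Unit)).add
        (Pv.smul (Pf.coord (Sum.inr ())) ((hY.lift Unit).lift Unit)))))

/-- a line with many deformations -/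
def Rk (C : Set (σ → ℂ)) (N : ℕ) (x w : σ → ℂ) : Prop :=
  w ∈ Lam C x ∧ N ≤ finrank ℂ (W0 C x w)

/-- a family of lines of dimension `e` with span of dimension at most `r` -/
def Hy (C : Set (σ → ℂ)) (e r : ℕ) (x : σ → ℂ) : Prop :=
  (∃ w, Rk C e x w ∧ ¬ Rk C (e + 1) x w ∧ ¬ ∃ s : ℂ, s • x = w) ∧
    ∃ b : Fin r × σ → ℂ, ∀ w, Rk C e x w → ∃ u : Fin r → ℂ, ∑ i, u i • (fun s => b (i, s)) = w

theorem s8_rk (hC : Cn C) (hG : ∀ i, Ov (cf S) (G i)) (e : vI C = Ideal.span (Set.range G))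
    (hX : Pv S X) {Y : (ι → ℂ) → σ → ℂ} (hY : Pv S Y) (N : ℕ) :
    Df S fun z => Rk C N (X z) (Y z) := by
  have h1 : Df S fun z => ∃ v : Fin N × σ → ℂ, (∀ t : ℂ, ∀ a i, grad (G i) (X z + t • Y z) ⬝ᵥ
      (fun s => v (a, s)) = 0) ∧ LinearIndependent ℂ fun a s => v (a, s) :=
    Df.ex (R := fun z v => (∀ t : ℂ, ∀ a i, grad (G i) (X z + t • Y z) ⬝ᵥ
      (fun s => v (a, s)) = 0) ∧ LinearIndependent ℂ fun a s => v (a, s))
      ((Df.all1 (R := fun z t => ∀ a i, grad (G i) (X (z ∘ Sum.inl) + t • Y (z ∘ Sum.inl)) ⬝ᵥ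
        (fun s => z (Sum.inr (a, s))) = 0) (Df.all_fin fun a => Df.all_fin fun i =>
          (Pf.dot (fun j => Pf.eval (Ov.pderiv (hG i) j) (((hX.lift _).lift Unit).add
            (Pv.smul (Pf.coord (Sum.inr ())) ((hY.lift _).lift Unit))))
            fun s => Pf.coord (Sum.inl (Sum.inr (a, s)))).eq0)).and
        (Df.indep fun a s => Pf.coord (Sum.inr (a, s))))
  refine ((s8_lam hC hG e hX hY).and h1).congr fun z => and_congr_right fun hz => ?_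
  have hm : ∀ v, v ∈ W0 C (X z) (Y z) ↔ ∀ t : ℂ, ∀ i, grad (G i) (X z + t • Y z) ⬝ᵥ v = 0 :=
    fun v => (Submodule.mem_iInf _).trans (forall_congr' fun t => by
      rw [mem_tangent_nm, nm_gens e (by simpa using hz 1 t), span_dot, Set.forall_mem_range])
  constructor
  · rintro ⟨v, h1, h2⟩
    refine (Fintype.card_fin N).ge.trans ((finrank_span_eq_card h2).ge.trans
      (Submodule.finrank_mono (Submodule.span_le.2 ?_)))
    rintro _ ⟨a, rfl⟩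
    exact (hm _).2 fun t i => h1 t a i
  · intro h
    obtain ⟨v, hv⟩ := exists_linearIndependent_of_le_finrank h
    have h2 := hv.map' _ (Submodule.ker_subtype _)
    exact ⟨fun p => (v p.1 : σ → ℂ) p.2, fun t a i => (hm _).1 (v a).2 t i, h2⟩

theorem s8_hy (hC : Cn C) (hG : ∀ i, Ov (cf S) (G i)) (e : vI C = Ideal.span (Set.range G))
    (N r : ℕ) : Df S (Hy C N r) := by
  have hX : ∀ (κ : Type) [Fintype κ], Pv S fun z : σ ⊕ κ → ℂ => z ∘ Sum.inl :=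
    fun _ _ j => Pf.coord (Sum.inl j)
  exact (Df.ex (R := fun x w => Rk C N x w ∧ ¬ Rk C (N + 1) x w ∧ ¬ ∃ s : ℂ, s • x = w)
    ((s8_rk hC hG e (hX σ) Pv.inr _).and ((s8_rk hC hG e (hX σ) Pv.inr _).not.and
      (Df.ex1 (R := fun z s => s • (z ∘ Sum.inl) = z ∘ Sum.inr) (Df.veq
        (Pv.smul (Pf.coord (Sum.inr ())) ((hX σ).lift Unit)) (Pv.inr.lift Unit))).not))).and
    (Df.ex (R := fun x b => ∀ w, Rk C N x w → ∃ u : Fin r → ℂ, ∑ i, u i • (fun s => b (i, s)) = w)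
      (Df.all (R := fun z w => Rk C N (z ∘ Sum.inl) w →
        ∃ u : Fin r → ℂ, ∑ i, u i • (fun s => z (Sum.inr (i, s))) = w)
        ((s8_rk hC hG e ((hX _).lift σ) Pv.inr _).imp (Df.ex (R := fun z u =>
          ∑ i, u i • (fun s => z (Sum.inl (Sum.inr (i, s)))) = z ∘ Sum.inr)
          (Df.veq (fun s => (Pf.sum Finset.univ fun i => (Pf.coord (Sum.inr i)).mul
            (Pf.coord (Sum.inl (Sum.inl (Sum.inr (i, s)))))).congr fun z => by simp)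
            (Pv.inr.lift _))))))

theorem Df.dich {Q : (σ → ℂ) → Prop} (h : Df S Q) (hS : S.Countable) (hC : Cn C) :
    General C Q ∨ General C fun y => ¬ Q y := by
  obtain ⟨y, hy⟩ := gen0 hS hC.prime
  rw [hC.closed] at hy
  by_cases hQ : Q y
  exacts [.inl (h.general hS hC hy hQ), .inr (h.not.general hS hC hy hQ)]

theorem general_all (hp : (vI C).IsPrime) {A : Type} [Fintype A] {p : A → (σ → ℂ) → Prop}
    (h : ∀ a, General C (p a)) : General C fun x => ∀ a, p a x := by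
  choose f h1 h2 using h
  refine ⟨∏ a, f a, fun hm => ?_, fun x hx he h0 a => h2 a x hx (fun e => he ?_) h0⟩
  · obtain ⟨a, -, ha⟩ := (Ideal.IsPrime.prod_mem_iff (hp := hp)).1 hm
    exact h1 a ha
  · rw [map_prod]
    exact Finset.prod_eq_zero (Finset.mem_univ a) e

theorem s8_isFrame (hC : Cn C) (hG : ∀ i, Ov (cf S) (G i)) (e : vI C = Ideal.span (Set.range G))
    (hX : Pv S X) (hΦ : Pl S Φ) : Df S fun z => X z ∈ C ∧ IsFrame C (X z) (Φ z) := by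
  have h1 : Df S fun z => ∀ w, ∀ s : ℂ, Φ z w + s • X z = 0 → w = 0 :=
    Df.all (R := fun z w => ∀ s : ℂ, Φ z w + s • X z = 0 → w = 0)
      (Df.all1 (R := fun z s => Φ (z ∘ Sum.inl) (z ∘ Sum.inr) + s • X (z ∘ Sum.inl) = 0 →
        z ∘ Sum.inr = 0)
      ((Df.veq ((((hΦ.lift _).app Pv.inr).lift Unit).add (Pv.smul (Pf.coord (Sum.inr ()))
        ((hX.lift _).lift Unit))) Pv.zero).imp (Df.veq (Pv.inr.lift Unit) Pv.zero)))
  have h2 : Df S fun z => ∀ v, (∃ w, ∃ s : ℂ, v = Φ z w + s • X z) ↔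
      ∀ i, grad (G i) (X z) ⬝ᵥ v = 0 :=
    Df.all (R := fun z v => (∃ w, ∃ s : ℂ, v = Φ z w + s • X z) ↔ ∀ i, grad (G i) (X z) ⬝ᵥ v = 0)
      ((Df.ex (R := fun z w => ∃ s : ℂ, z ∘ Sum.inr = Φ (z ∘ Sum.inl) w + s • X (z ∘ Sum.inl))
        (Df.ex1 (R := fun z s => (z ∘ Sum.inl) ∘ Sum.inr =
          Φ ((z ∘ Sum.inl) ∘ Sum.inl) (z ∘ Sum.inr) + s • X ((z ∘ Sum.inl) ∘ Sum.inl))
          (Df.veq ((Pv.inr.lift _).lift Unit) (((((hΦ.lift _).lift _).app Pv.inr).lift Unit).add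
            (Pv.smul (Pf.coord (Sum.inr ())) (((hX.lift _).lift _).lift Unit)))))).iff
        (Df.all_fin fun i => (Pf.dot (fun j => Pf.eval (Ov.pderiv (hG i) j) (hX.lift _))
          Pv.inr).eq0))
  refine ((s8_mem hC hG e hX).and (h1.and h2)).congr fun z => and_congr_right fun hz => ?_
  simp only [s8_frame, mem_tangent_nm, nm_gens e hz, span_dot, Set.forall_mem_range]

end s8

section PartSpread
variable {σ : Type} [Fintype σ] {n c k : ℕ} {C : Set (σ → ℂ)} {S : Set ℂ} {y : σ → ℂ}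
  {φ : (Fin n → ℂ) →ₗ[ℂ] (σ → ℂ)}

theorem hy_ctx {e r : ℕ} (H : Pre C y φ c) (hc : Fintype.card σ = n + 1 + c) (he : e + k = n + 1)
    (hk : 2 * k < n) (h : Hy C e r y) :
    Ctt C y φ c k ∧ finrank ℂ (Submodule.span ℂ (tpl C y φ)) + 1 ≤ r := by
  obtain ⟨⟨w, ⟨w1, w2⟩, w3, w4⟩, b, hb⟩ := h
  have w5 := not_le.1 fun h => w3 ⟨w1, h⟩
  obtain ⟨z, hz, s, rfl⟩ := (lam_iff H.frame).1 w1
  have h1 := w0_nt H hz s
  have K : Ctt C y φ c k := Pre.ctx' H hc hz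
    (fun h => w4 (Submodule.mem_span_singleton.1 ((fr_mem H).2 h))) (by omega) hk
  refine ⟨K, (Dd_rank K).ge.trans ((Submodule.finrank_mono (Submodule.span_le.2 fun w hw =>
    (Submodule.mem_span_range_iff_exists_fun ℂ).2 (hb w ⟨hw.1, ?_⟩))).trans ?_)⟩
  · have := lm_rk K hw
    omega
  · exact (finrank_range_le_card (R := ℂ) fun i s => b (i, s)).trans (Fintype.card_fin r).le

theorem ctx_hy {e r : ℕ} (K : Ctt C y φ c k) (he : e + k = n + 1)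
    (hr : finrank ℂ (Submodule.span ℂ (tpl C y φ)) + 1 = r) : Hy C e r y := by
  obtain ⟨z, hz, h0⟩ := K.cn.ne
  have h1 := K.w0_rank hz h0
  let β := finBasisOfFinrankEq ℂ (Dd C y) ((Dd_rank K).trans hr)
  refine ⟨⟨φ z, ⟨hz.1, by omega⟩, fun h => by have := h.2; omega, fun h => h0 ((fr_mem K.pre
    (s := 0)).1 (by simpa using Submodule.mem_span_singleton.2 h))⟩,
    fun p => (β p.1 : σ → ℂ) p.2, fun w hw => ?_⟩
  have h2 : w ∈ Dd C y := Submodule.subset_span (lm_of K hw.1 (by have := hw.2; omega))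
  exact ⟨β.repr ⟨w, h2⟩, (Submodule.coe_sum _ _ _).symm.trans
    (congrArg Subtype.val (β.sum_repr ⟨w, h2⟩))⟩

theorem spread (hC : Sm C c) (hS : S.Countable) (hs : StI S (vI C)) (hy : Lc S y = vI C)
    (hφ : IsFrame C y φ) {Z : Set (Fin n → ℂ)} (hZ : Z ⊆ lines C y φ) (h : Good Z k) :
    General C fun x => ∃ φ : (Fin n → ℂ) →ₗ[ℂ] (σ → ℂ), IsFrame C x φ ∧
      ∃ Z ⊆ lines C x φ, Good Z k := by
  obtain ⟨m, G, hG, e⟩ := hs.gens
  obtain ⟨μ, _, f, d, g1, g2, g3, g4, g5⟩ := h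
  let B := (Fin n × σ) ⊕ Σ a : μ, (f a).support
  let Φ : (B → ℂ) → (Fin n → ℂ) →ₗ[ℂ] (σ → ℂ) := fun b =>
    Fintype.linearCombination ℂ fun a j => b (Sum.inl (a, j))
  let F : (B → ℂ) → μ → P (Fin n) := fun b a =>
    ∑ u : (f a).support, b (Sum.inr ⟨a, u⟩) • monomial u.1 1
  have hm : ∀ u : Fin n →₀ ℕ, Ov (cf S) (monomial u (1 : ℂ)) := fun u =>
    ov_iff.2 ⟨monomial u 1, by simp⟩
  have hX : Pv S fun z : σ ⊕ B → ℂ => z ∘ Sum.inl := fun j => Pf.coord (Sum.inl j)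
  have hΦ : Pl S fun z : σ ⊕ B → ℂ => Φ (z ∘ Sum.inr) := fun a j =>
    (Pf.coord (Sum.inr (Sum.inl (a, j)))).congr fun z => by
      simp [Φ, Fintype.linearCombination_apply_single]
  have hl := s8_lam hC.toCn hG e (hX.lift (Fin n)) ((hΦ.lift _).app Pv.inr)
  have h1 : ∀ a, Pf S fun z : (σ ⊕ B) ⊕ Fin n → ℂ =>
      eval (z ∘ Sum.inr) (F ((z ∘ Sum.inl) ∘ Sum.inr) a) := fun a =>
    (Pf.sum Finset.univ fun u : (f a).support => (Pf.coord (Sum.inl (Sum.inr (Sum.inr ⟨a, u⟩)))).mul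
      (Pf.eval (hm u) Pv.inr)).congr fun z => by
        simp only [F, map_sum, smul_eval, Function.comp_apply]
  have h2 : ∀ a, Pv S fun z : (σ ⊕ B) ⊕ Fin n → ℂ =>
      grad (F ((z ∘ Sum.inl) ∘ Sum.inr) a) (z ∘ Sum.inr) := fun a j =>
    (Pf.sum Finset.univ fun u : (f a).support => (Pf.coord (Sum.inl (Sum.inr (Sum.inr ⟨a, u⟩)))).mul
      (Pf.eval (Ov.pderiv (hm u) j) Pv.inr)).congr fun z => by
        simp only [F, grad, map_sum, Derivation.map_smul, smul_eval, Function.comp_apply]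
  have h3 : Df S fun x => ∃ b : B → ℂ, (x ∈ C ∧ IsFrame C x (Φ b)) ∧
      ∀ w, (∀ a, eval w (F b a) = 0) → w ∈ lines C x (Φ b) ∧
        (¬ w = 0 → LinearIndependent ℂ fun a => grad (F b a) w) :=
    Df.ex ((s8_isFrame hC.toCn hG e hX hΦ).and (Df.all (R := fun z w =>
      (∀ a, eval w (F (z ∘ Sum.inr) a) = 0) → w ∈ lines C (z ∘ Sum.inl) (Φ (z ∘ Sum.inr)) ∧
        (¬ w = 0 → LinearIndependent ℂ fun a => grad (F (z ∘ Sum.inr) a) w))
      ((Df.all_fin fun a => (h1 a).eq0).imp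
        (hl.and ((Df.veq Pv.inr Pv.zero).not.imp (Df.indep h2))))))
  have h4 := gnr_of_lc hC.toCn hy
  obtain ⟨g, hg, h5⟩ := h3.general hS hC.toCn h4 (by
    let b : B → ℂ := Sum.elim (fun p => φ (Pi.single p.1 1) p.2) fun p => (f p.1).coeff p.2
    have e1 : Φ b = φ := (Pi.basisFun ℂ (Fin n)).ext fun a => by
      simp [Φ, b, Fintype.linearCombination_apply_single]
    have e2 : F b = f := _root_.funext fun a => by
      refine Eq.trans ?_ (f a).as_sum.symm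
      rw [← Finset.sum_coe_sort]
      exact Finset.sum_congr rfl fun u _ => by simp [b, smul_monomial]
    refine ⟨b, ?_⟩
    rw [e1, e2]
    exact ⟨⟨h4.1, hφ⟩, fun w hw => ⟨hZ ((g4 w).2 hw), g5 w ((g4 w).2 hw)⟩⟩)
  refine ⟨g, hg, fun x hx he h0 => ?_⟩
  obtain ⟨b, ⟨-, b1⟩, b2⟩ := h5 x hx he h0
  refine ⟨Φ b, b1, {w | ∀ a, eval w (F b a) = 0}, fun w hw => (b2 w hw).1, μ, inferInstance, F b, d,
    g1, g2, fun a => ?_, fun _ => Iff.rfl, fun w hw => (b2 w hw).2⟩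
  refine IsHomogeneous.sum _ _ _ fun u _ => ?_
  rw [smul_monomial]
  refine isHomogeneous_monomial _ ?_
  rw [Finsupp.degree_eq_weight_one]
  exact g3 a (mem_support_iff.1 u.2)

end PartSpread

end Pool.Agent.MP_429080_ag.H91

/-! The distribution spanned by the lines is integrable. -/

namespace Pool.Agent.MP_429080_ag.H91

open MvPolynomial Module Pool.Agent.EGH Pool.Agent.MP_d171e3_nt Pool.Agent.MP_429080_ag.H26
open Pool.Agent.MP_429080_ag.H26.T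
  Pool.Agent.MP_429080_ag.H73

set_option linter.unusedSectionVars false

section PartSkew
variable {τ : Type} [Fintype τ] {Z : Set (τ → ℂ)} {k : ℕ} {S : Set ℂ}

theorem sk_td {m : ℕ} {G : Fin m → P τ} (hZ : Sm Z k) (hs : Submodule.span ℂ Z = ⊤)
    (hg : Gens S Z G) (hS : S.Countable) {y h : τ → ℂ} (hy : Ct Z h y) (hne : h ≠ 0)
    (hr : Rt S h) : td S y ≤ k := by
  obtain ⟨a, 𝔭, ha, hp, hh, hz, -, hd, hsp⟩ := l3c hS y
  have e4 := sz hZ hs LinearMap.id hp hh (fun y' hy' => hg.sp (hsp y' hy') (hZ.cone a _ hy.1))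
    ⟨_, hz, hy.2.1⟩ (Ω := ℂ ∙ h) (by simpa using hne) fun y' hy' hy0 =>
      (Submodule.span_singleton_le_iff_mem _ _).2
        (Ct.sp hZ hg hr (Ct.smul hZ.toCn hy ha) (hsp y' hy') hy0).2.2
  rw [finrank_span_singleton hne] at e4
  omega

theorem exists_dot (β : Bil (τ → ℂ)) : ∃ B : (τ → ℂ) →ₗ[ℂ] (τ → ℂ), ∀ u v, B u ⬝ᵥ v = β u v := by
  classical
  refine ⟨LinearMap.pi fun t => β.flip (Pi.single t 1), fun u v => ?_⟩
  conv_rhs => rw [pi_eq_sum_univ' v]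
  simp [dotProduct, mul_comm]

/-- SKEW -/
theorem skew (hZ : Sm Z k) (hs : Submodule.span ℂ Z = ⊤) (h3 : 3 * k + 1 ≤ Fintype.card τ)
    (β : Bil (τ → ℂ)) (h : ∀ S : Set ℂ, S.Countable → ∃ z ∈ Z, (∀ w ∈ Z, Sp S z w) ∧
      ∀ u ∈ tangent Z z, ∀ v ∈ tangent Z z, β u v = 0) (u v : τ → ℂ) : β u v = 0 := by
  obtain ⟨B, eB⟩ := exists_dot β
  obtain ⟨S1, a1, -, hB⟩ := exists_rtL Set.countable_empty B
  obtain ⟨S2, m, G, b1, b2, hg, -⟩ := exists_gens99 hZ.toCn a1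
  replace hB := hB.mono' b2
  obtain ⟨z, hz, hsp, h1⟩ := h S2 b1
  simp only [← eB] at h1
  obtain ⟨z₀, c1, c2⟩ := hZ.ne
  have h0 := sp_ne (hsp z₀ c1) c2
  obtain ⟨z₁, d1, -, d2, -⟩ := gen b1 hZ.prime ((Ideal.ne_top_iff_one _).1 hZ.prime.ne_top)
  have hd := d2.trans (td_sp (hsp z₁ (hZ.closed.le d1)))
  have h2 : B z = 0 := by
    by_contra hne
    have e1 := sk_td hZ hs (hg.mono' (subset_adj S2 (B z))) (adj_countable b1 _)
      ⟨hz, h0, nm_iff.2 (h1 z (self_mem_tangent hZ.toCn hz))⟩ hne (rt_adj _ _)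
    have e2 : td S2 (B z) ≤ finrank ℂ (Nm Z z) := by
      rw [td, dv_map hB]
      refine Submodule.finrank_mono ?_
      rintro _ ⟨u, hu, rfl⟩
      exact nm_iff.2 (h1 u (dv_le_tangent hg hz h0 hu))
    have e3 := td_le_add S2 (B z) z
    have e4 := hZ.dim
    have e5 := hZ.rk z hz h0
    omega
  have h4 : Submodule.span ℂ Z ≤ LinearMap.ker B := Submodule.span_le.2 fun w hw =>
    (((hsp w hw).map hB).eq_of_rt fun i => by simp [h2]).trans h2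
  rw [← eB, LinearMap.mem_ker.1 (h4 (hs.ge Submodule.mem_top)), zero_dotProduct]

theorem ap_brk (D D' : Dr) (y : τ → ℂ) : ap ⁅D, D'⁆ y = ap D (ap D' y) - ap D' (ap D y) :=
  _root_.funext fun _ => Derivation.commutator_apply _

/-- the derivative of a vector rational over `y` depends only on the derivative of `y` -/
theorem exists_lift {y α : τ → ℂ} (h : Rt (adj S y) α) :
    ∃ A : (τ → ℂ) →ₗ[ℂ] (τ → ℂ), ∀ D ∈ Der S, A (ap D y) = ap D α := by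
  let f := (apL y).domRestrict (Der S)
  let g := (LinearMap.ker f).liftQ ((apL α).domRestrict (Der S)) fun D hD =>
    h.ap (mem_Der_adj.2 ⟨D.2, hD⟩)
  obtain ⟨A, hA⟩ := LinearMap.exists_extend (g.comp f.quotKerEquivRange.symm.toLinearMap)
  exact ⟨A, fun D hD => (LinearMap.congr_fun hA ⟨f ⟨D, hD⟩, _, rfl⟩).trans
    (congrArg g (f.quotKerEquivRange_symm_apply_image ⟨D, hD⟩ _))⟩

end PartSkew

namespace Lf
variable {σ : Type} [Fintype σ] {n c k : ℕ} {Q : Lf σ n c k} {y y' : σ → ℂ} {D D' : Dr}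

section PartTan

theorem mem_DD : D ∈ Q.DD y ↔ D ∈ Der Q.S ∧ ap D y ∈ Dd Q.C y := Iff.rfl

theorem stab_Dd (h : Q.Gen y) : Stab (adj Q.S y) (Dd Q.C y) := by
  obtain ⟨φ, H, -⟩ := h.ctx
  intro D hD w hw
  induction hw using Submodule.span_induction with
  | mem w hw =>
    by_cases hn : w ∈ ℂ ∙ y
    · exact (Submodule.span_singleton_le_iff_mem _ _).2 (Submodule.subset_span
        (by simpa using h.self 1))
        (stab_span (fun v hv => hv ▸ rt_adj _ _) D hD w hn)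
    · exact w0_le H hw hn (dv_le_w0 (Q.st.mono' (subset_adj _ _)) (rt_adj _ _) hw.1 (ap_mem hD w))
  | zero => rw [ap_zero]; exact zero_mem _
  | add u v _ _ hu hv => rw [ap_add]; exact add_mem hu hv
  | smul a v h1 hv =>
    rw [ap_smul]
    exact add_mem (Submodule.smul_mem _ _ hv) (Submodule.smul_mem _ _ h1)

theorem Step.w0_le (h : Q.Step y y') : W0 Q.C y y' ≤ Dd Q.C y := by
  obtain ⟨φ, H, -⟩ := (step_iff.1 h).1.ctx
  exact H91.w0_le H h.lm h.not_mem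

theorem Step.der_le (h : Q.Step y y') : Der (adj Q.S y') ≤ Q.DD y := fun _ hD =>
  ⟨(mem_Der_adj.1 hD).1, h.w0_le (h.dv_eq'.le (ap_mem hD y))⟩

theorem der_le_DD : Der (adj Q.S y) ≤ Q.DD y := fun _ hD =>
  mem_DD.2 ⟨(mem_Der_adj.1 hD).1, (mem_Der_adj.1 hD).2.symm ▸ zero_mem _⟩

theorem Step.mem_w0 (h : Q.Step y y') : y' ∈ W0 Q.C y y' := (Submodule.mem_iInf _).2 fun t => by
  simpa using lam_tangent (step_iff.1 h).2.1 1 t

theorem int (h : Q.Gen y) (hD : D ∈ Q.DD y) (hD' : D' ∈ Q.DD y) : ⁅D, D'⁆ ∈ Q.DD y := by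
  refine mem_DD.2 ⟨Der_comm hD.1 hD'.1, ?_⟩
  rw [← ann_ann (Dd Q.C y)]
  intro α hα
  refine span_dot.2 (fun α hα => ?_) α ((stab_Dd h).ann.le_span hα)
  obtain ⟨hα, hr⟩ := hα
  obtain ⟨A, hA⟩ := exists_lift hr
  let β : Bil (σ → ℂ) := LinearMap.mk₂ ℂ (fun a b => a ⬝ᵥ A b - b ⬝ᵥ A a)
    (fun _ _ _ => by simp; ring) (fun _ _ _ => by simp; ring) (fun _ _ _ => by simp; ring)
    fun _ _ _ => by simp; ring
  have hβ : ∀ a b, β a b = a ⬝ᵥ A b - b ⬝ᵥ A a := fun _ _ => rfl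
  have h1 : ∀ E ∈ Q.DD y, ∀ E' ∈ Q.DD y, ap ⁅E, E'⁆ y ⬝ᵥ α = β (ap E y) (ap E' y) := by
    intro E hE E' hE'
    have e1 := ap_dot E (ap E' y) α
    have e2 := ap_dot E' (ap E y) α
    rw [hα (ap E' y) hE'.2, map_zero] at e1
    rw [hα (ap E y) hE.2, map_zero] at e2
    rw [hβ, hA _ hE.1, hA _ hE'.1, ap_brk, sub_dotProduct]
    linear_combination e2 - e1
  have h2 : ∀ w, Q.Step y w → ∀ a ∈ W0 Q.C y w, ∀ b ∈ W0 Q.C y w, β a b = 0 := by
    intro w hw a ha b hb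
    obtain ⟨E, hE, rfl⟩ := hw.dv_eq'.ge ha
    obtain ⟨E', hE', rfl⟩ := hw.dv_eq'.ge hb
    exact (h1 E (hw.der_le hE) E' (hw.der_le hE')).symm.trans
      (hα _ (hw.der_le (Der_comm hE hE')).2)
  have h3 : ∀ b ∈ Dd Q.C y, β y b = 0 := by
    obtain ⟨B, eB⟩ := exists_dot β
    obtain ⟨w, hw, hs⟩ := h.step (adj_countable Set.countable_empty (B y))
    refine (Submodule.span_le (p := LinearMap.ker (β y))).2 fun b hb => ?_
    exact (eB y b).symm.trans ((hs b hb).dot (rt_adj _ _) ((eB y w).trans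
      (h2 w hw y (w0_symm Q.sm.toCn _ _ hw.symm.mem_w0) w hw.mem_w0)))
  obtain ⟨φ, H, hn⟩ := h.ctx
  obtain ⟨j, j1, j2, j3⟩ := exists_coord (tpl Q.C y φ)
  obtain ⟨k', hk, hZ⟩ := sm_lin H.smL j1 j2
  obtain ⟨π, hπ⟩ := LinearMap.exists_leftInverse_of_injective
    ((φ.comp j).coprod (LinearMap.toSpanSingleton ℂ _ y)) (LinearMap.ker_eq_bot'.2 fun p hp => by
      have := frame_inj H.frame H.ne ((add_comm _ _).trans hp)
      exact Prod.ext (j1 (this.1.trans (map_zero j).symm)) this.2)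
  have hπ' : ∀ u (s : ℂ), ((LinearMap.fst ℂ _ _).comp π) (φ (j u) + s • y) = u := fun u s =>
    congrArg Prod.fst (LinearMap.congr_fun hπ (u, s))
  have h4 := skew hZ j3 (by simp only [Fintype.card_fin] at hk ⊢; omega)
    (β.compl₁₂ (φ.comp j) (φ.comp j)) fun S hS => by
      obtain ⟨S', a1, a2, a3⟩ := exists_rtL hS ((LinearMap.fst ℂ _ _).comp π)
      obtain ⟨w, hw, hs⟩ := h.step a1
      obtain ⟨z, hz, s, rfl⟩ := (lm_iff H).1 hw.lm
      obtain ⟨u, rfl⟩ := j2 z hz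
      have e : ∀ v ∈ tangent (j ⁻¹' tpl Q.C y φ) u, φ (j v) ∈ W0 Q.C y (φ (j u) + s • y) := by
        intro v hv
        rw [w0_shift Q.sm.toCn]
        exact mem_W0.2 fun G hG i => (grad_tay _ _ _ _).symm.trans
          ((tangent_lin j1 j2 u).le ⟨v, hv, rfl⟩ _ (tay_mem Q.sm.toCn hG _))
      refine ⟨u, hz, fun u' hu' => ?_, fun v hv v' hv' => h2 _ hw _ (e v hv) _ (e v' hv')⟩
      have := (hs (φ (j u') + (0 : ℂ) • y) ((lm_iff H).2 ⟨_, hu', 0, rfl⟩)).map a3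
      rw [hπ', hπ'] at this
      exact this.anti' a2
  have h5 : ∀ a ∈ Dd Q.C y, ∃ (u : _) (s : ℂ), φ (j u) + s • y = a := fun a ha => by
    rw [Dd_eq H] at ha
    obtain ⟨_, ⟨z, hz, rfl⟩, _, hs, rfl⟩ := Submodule.mem_sup.1 ha
    obtain ⟨s, rfl⟩ := Submodule.mem_span_singleton.1 hs
    obtain ⟨u, rfl⟩ := (Submodule.span_le (p := LinearMap.range j)).2 j2 hz
    exact ⟨u, s, rfl⟩
  obtain ⟨u, s, e⟩ := h5 (ap D y) hD.2
  obtain ⟨u', s', e'⟩ := h5 (ap D' y) hD'.2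
  have e1 := h3 (ap D y) hD.2
  have e2 := h3 (ap D' y) hD'.2
  have e3 : β (φ (j u)) (φ (j u')) = 0 := h4 u u'
  rw [dotProduct_comm, h1 D hD D' hD']
  rw [hβ] at e1 e2 e3 ⊢
  rw [← e] at e1 ⊢
  rw [← e'] at e2 ⊢
  simp only [map_add, map_smul, add_dotProduct, dotProduct_add, smul_dotProduct,
    dotProduct_smul, smul_eq_mul] at e1 e2 e3 ⊢
  linear_combination e3 + s * e2 - s' * e1

theorem inv (h : Q.Step y y') : Q.DD y ≤ Q.DD y' := by
  have hg := (step_iff.1 h).1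
  have hg' := (step_iff.1 h.symm).1
  have h1 : Stab (adj Q.S y) ((Q.DD y ⊓ Q.DD y').map (apL y)) := by
    rintro E hE _ ⟨D, hD, rfl⟩
    refine ⟨⁅E, D⁆, ⟨int hg (der_le_DD hE) hD.1, int hg' (h.symm.der_le hE) hD.2⟩, ?_⟩
    change ap ⁅E, D⁆ y = ap E (ap D y)
    rw [ap_brk, (mem_Der_adj.1 hE).2, ap_zero, sub_zero]
  have h2 : Dd Q.C y ≤ (Q.DD y ⊓ Q.DD y').map (apL y) := Submodule.span_le.2 fun a ha => by
    obtain ⟨E, hE, e⟩ := h.dv_eq'.ge h.mem_w0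
    exact (h.sp ha).mem_stab h1 ⟨E, ⟨h.der_le hE, der_le_DD hE⟩, e⟩
  intro D hD
  obtain ⟨E, hE, e⟩ := h2 hD.2
  have h3 : D - E ∈ Q.DD y' := h.symm.der_le (mem_Der_adj.2 ⟨sub_mem hD.1 hE.1.1,
    (map_sub (apL y) D E).trans (sub_eq_zero.2 e.symm)⟩)
  simpa using add_mem h3 hE.2

theorem tan (h : Q.Cl y) : dv Q.S1 y ≤ Dd Q.C y := by
  rintro _ ⟨D, hD, rfl⟩
  suffices D ∈ Q.DD y from this.2
  induction h with
  | refl => exact der_le_DD hD
  | tail _ h2 h3 => exact inv h2 h3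

end PartTan

end Lf

end Pool.Agent.MP_429080_ag.H91

/-! The leaf through a generic point is a smooth cone. -/

namespace Pool.Agent.MP_429080_ag.H91

open MvPolynomial Module Pool.Agent.EGH Pool.Agent.MP_d171e3_nt Pool.Agent.MP_429080_ag.H26
open Pool.Agent.MP_429080_ag.H26.T
  Pool.Agent.MP_429080_ag.H73

set_option linter.unusedSectionVars false

namespace Lf
variable {σ : Type} [Fintype σ] {n c k : ℕ} {Q : Lf σ n c k} {u y y' : σ → ℂ}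

section PartF

theorem cnt1 (Q : Lf σ n c k) : Q.S1.Countable := adj_countable Q.cnt _

theorem sub1 (Q : Lf σ n c k) : Q.S ⊆ Q.S1 := subset_adj _ _

theorem Step.aut (h : Q.Step y y') {τ : ℂ ≃+* ℂ} (hτ : Fx Q.S τ) : Q.Step (τ ∘ y) (τ ∘ y') := by
  rw [Step, ← Sum.comp_elim, hτ.lc]
  exact h

theorem Cl.aut (h : Q.Cl y) {τ : ℂ ≃+* ℂ} (hτ : Fx Q.S τ) (hx : Q.Cl (τ ∘ Q.x)) :
    Q.Cl (τ ∘ y) := by
  induction h with
  | refl => exact hx
  | tail _ h ih => exact Relation.ReflTransGen.tail ih (h.aut hτ)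

theorem Cl.back (h : Q.Cl y) : Relation.ReflTransGen Q.Step y Q.x := by
  induction h with
  | refl => exact .refl
  | tail _ h ih => exact .head h.symm ih

theorem exists_mx (Q : Lf σ n c k) : ∃ u, Q.Mx u := by
  obtain ⟨_, ⟨u, h1, rfl⟩, h2⟩ := Set.exists_max_image ((fun y => td Q.S1 y) '' {y | Q.Cl y}) id
    ((Set.finite_Iic (Fintype.card σ)).subset (by rintro _ ⟨y, -, rfl⟩; exact td_le_card _ _))
    ⟨_, Q.x, Relation.ReflTransGen.refl, rfl⟩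
  exact ⟨u, h1, fun y hy => h2 _ ⟨y, hy, rfl⟩⟩

theorem Mx.of_lc (H : Q.Mx u) (h : Lc Q.S1 y = Lc Q.S1 u) : Q.Mx y := by
  obtain ⟨τ, hτ, rfl⟩ := aut Q.cnt1 h.symm
  refine ⟨H.1.aut (hτ.anti (Q.sub1.trans subset_cf)) ?_, fun y' h' => ?_⟩
  · rw [hτ.rt (rt_adj _ _)]
    exact Relation.ReflTransGen.refl
  · rw [← dm_lc _ (τ ∘ u), h, dm_lc]
    exact H.2 y' h'

theorem Mx.lam (H : Q.Mx u) : Lm Q.C u ⊆ vZ (Lc Q.S1 u) := fun a ha => by
  obtain ⟨w, w1, w2⟩ := H.1.gen.step Q.cnt1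
  have h1 : u ∈ Lm Q.C u := by simpa using H.1.gen.self 1
  rw [lc_eq_of_sp (w2 u h1) (H.2 w (Relation.ReflTransGen.tail H.1 w1))]
  exact mem_lc.2 (w2 a ha)

theorem Mx.sub (H : Q.Mx u) : vZ (Lc Q.S1 u) ⊆ Q.C := fun y hy => by
  rw [← Q.sm.closed, ← show Lc Q.S u = _ from H.1.gen]
  exact mem_lc.2 ((mem_lc.1 hy).anti' Q.sub1)

theorem Mx.f1 (H : Q.Mx u) (hy : y ∈ vZ (Lc Q.S1 u)) (hg : Q.Gen y) :
    Lm Q.C y ⊆ vZ (Lc Q.S1 u) := fun w hw => by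
  obtain ⟨a, a', h1, h2, h3, h4⟩ := diag Q.sm Q.cnt1 (lc_prime Q.S (Sum.elim Q.x Q.w))
    (fun _ _ h => lam_mem (lam_symm (r2 h))) (lc_prime Q.S1 u) (fun _ h => H.sub h) (r1 hg hw) hy
    hg.ne
  have h5 : Q.Gen a := hg.of_sp (H.sub h2) ((h3.comp Sum.inl).anti' Q.sub1)
  have h6 := h5.l2 (r2 h1) (Q.sub1.trans (subset_adj _ a)) (rt_adj _ _)
  have h7 := Q.dm_rr
  have h8 := Q.dm_C
  rw [td_tower] at h4
  have h9 := lc_eq (lc_prime _ _) (stI_lc _ _) h2 (by unfold rr at h7; omega)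
  have h11 := (stI_lc Q.S1 u).td_le (lc_prime _ _) h2
  have h10 := (H.of_lc h9).lam (h5.lm (r2 h1) (Q.sub1.trans (subset_adj _ a)) (rt_adj _ _)
    (by unfold rr at h7; omega))
  rw [h9] at h10
  exact (stI_lc _ _).sp h10 (h3.comp Sum.inr)

theorem Mx.f2 (H : Q.Mx u) (hy : Q.Cl y) : y ∈ vZ (Lc Q.S1 u) := by
  have h1 : Relation.ReflTransGen Q.Step u y := H.1.back.trans hy
  clear hy
  induction h1 with
  | refl => exact mem_lc.2 (Sp.refl _ _)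
  | tail _ h ih => exact H.f1 ih h.gen h.lm

theorem Mx.f3 (H : Q.Mx u) : vI {y | Q.Cl y} = Lc Q.S1 u := by
  refine le_antisymm (fun f hf => by_contra fun hn => ?_)
    fun f hf => mem_van.2 fun y hy => mem_vZ.1 (H.f2 hy) f hf
  obtain ⟨ξ, h1, h2, -, h3⟩ := gen_lc Q.cnt1 (lc_prime Q.S1 u) hn
  exact h2 (mem_van.1 hf ξ (H.of_lc (lc_eq (lc_prime _ _) (stI_lc _ _) h1 h3)).1)

theorem Mx.cn (H : Q.Mx u) : Cn (vZ (Lc Q.S1 u)) := by
  refine ⟨by rw [vI_vZ (lc_prime _ _)], fun a z hz => ?_, by rw [vI_vZ (lc_prime _ _)]; exact lc_prime _ _,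
    u, mem_lc.2 (Sp.refl _ _), H.1.gen.ne⟩
  obtain ⟨μ, -, hμ⟩ := gen_top (adj_countable Q.cnt1 (Sum.elim u u)) (Fin 4)
  have h1 : Sp Q.S1 (Sum.elim u u) (Sum.elim z z) := by
    simpa [Sum.comp_elim] using (mem_lc.1 hz).comp (Sum.elim id id : σ ⊕ σ → σ)
  have h2 := (sp_comb (sp_elim h1 hμ ![a, 0, 0, 0])).comp Sum.inl
  have h3 := H.lam (H.1.gen.self (μ 0 + μ 1))
  rw [add_smul] at h3
  simpa using (stI_lc _ _).sp h3 h2

end PartF

/-- a rational first integral with value `l` -/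
structure FI (Q : Lf σ n c k) (l : ℂ) (g h : P σ) : Prop where
  ovg : Ov (cf Q.S) g
  ovh : Ov (cf Q.S) h
  ne : h ∉ vI Q.C
  val : ∀ y, Q.Cl y → eval y g = l * eval y h

section PartFI
variable {l : ℂ} {g h : P σ}

theorem rel (hg : Ov (cf Q.S) g) (hh : Ov (cf Q.S) h)
    (hv : ∀ y, Q.Cl y → eval y g = l * eval y h) (hR : Q.R y y') :
    eval y g * eval y' h = eval y' g * eval y h := by
  have := (mem_lc.1 hR).eval_eq (f := rename Sum.inl g * rename Sum.inr h)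
    (g := rename Sum.inr g * rename Sum.inl h) (ov_mul (ov_rename _ hg) (ov_rename _ hh))
    (ov_mul (ov_rename _ hg) (ov_rename _ hh)) (by
      simp only [map_mul, eval_rename, Sum.elim_comp_inl, Sum.elim_comp_inr]
      rw [hv _ .refl, hv _ (.single rfl)]
      ring)
  simpa only [map_mul, eval_rename, Sum.elim_comp_inl, Sum.elim_comp_inr] using this

theorem Cl.aut_symm {τ : ℂ ≃+* ℂ} (hτ : Fx Q.S τ) (h : Q.Cl (τ ∘ Q.x)) : Q.Cl (τ.symm ∘ Q.x) := by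
  have key : ∀ a b, Relation.ReflTransGen Q.Step a b →
      Relation.ReflTransGen Q.Step (τ.symm ∘ a) (τ.symm ∘ b) := fun a b h => by
    induction h with
    | refl => exact .refl
    | tail _ h ih => exact .tail ih (h.aut hτ.symm)
  have := key _ _ h.back
  rwa [act_symm_act] at this

theorem Mx.fi (H : Q.Mx u) : ∃ (r : ℕ) (l : Fin r → ℂ), n + 1 ≤ td Q.S l + td Q.S1 u ∧
    ∀ j, ∃ g h, Q.FI (l j) g h := by
  obtain ⟨r, l, h1, h2⟩ := rref (Lc Q.S1 u)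
  have h3 : ∀ τ, Fx Q.S τ → Q.Cl (τ ∘ Q.x) → τ ∘ l = l := fun τ hτ hx => h2 τ fun f hf => by
    rw [← H.f3] at hf ⊢
    exact vI_act (fun y hy => Cl.aut hy hτ.symm (Cl.aut_symm hτ hx)) hf
  refine ⟨r, l, ?_, fun j => ?_⟩
  · have h4 := (h1 _ (rt_adj Q.S l)).td_le (lc_prime _ _) (mem_lc.2 (Sp.refl _ u))
    have h5 := td_le_add Q.S l u
    rw [dm_lc] at h4
    rw [H.1.gen.td_eq] at h5
    omega
  have hg : Q.Gen Q.x := Q.gx
  have key : ∀ g h : P σ, Ov (cf Q.S) g → Ov (cf Q.S) h → eval Q.x g = l j * eval Q.x h →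
      ∀ y, Q.Cl y → eval y g = l j * eval y h := fun g h a1 a2 a3 y hy => by
    obtain ⟨τ, hτ, rfl⟩ := aut Q.cnt (hg.trans hy.gen.symm)
    rw [hτ.eval a1, hτ.eval a2, a3, map_mul, show τ (l j) = l j from congrFun (h3 τ hτ hy) j]
  obtain ⟨g, h, a1, a2, a3, a4⟩ := fix Q.cnt Q.x (l := l j) fun τ hτ e =>
    congrFun (h3 τ hτ (by rw [e]; exact .refl)) j
  exact ⟨g, h, a1, a2, fun e => a3 (mem_van.1 e _ hg.mem), key g h a1 a2 a4⟩

theorem FI.rel (H : Q.FI l g h) (hR : Q.R y y') :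
    eval y g * eval y' h = eval y' g * eval y h :=
  Lf.rel H.ovg H.ovh H.val hR

end PartFI

section PartPole
variable {l : ℂ} {g h : P σ}

theorem Step.free (H : Q.Step y y') {S : Set ℂ} (hS : Q.S ⊆ S)
    (hd : 2 * n + 2 ≤ td S (Sum.elim y y') + k) (s : ℂ) : n ≤ td S (s • y + y') := by
  obtain ⟨φ, K, -⟩ := H.gen.ctx
  have hl := r2 H.R
  have hs := Q.st.mono' hS
  have hi : LinearIndependent ℂ ![y, y'] := (LinearIndependent.pair_iff' K.ne).2 fun a e =>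
    H.not_mem (Submodule.mem_span_singleton.2 ⟨a, e⟩)
  have h1 := td_tower S y y'
  have h2 := H.gen.l2 hl (hS.trans (subset_adj S y)) (rt_adj _ _)
  have h3 := tangent_rank Q.sm K.mem K.ne
  have h4 := Q.card
  have h5 : td S y ≤ _ := Submodule.finrank_mono (hs.der K.mem)
  have h6 := w0_max K hl H.not_mem
  have e1 : dv S y = tangent Q.C y := Submodule.eq_of_le_of_finrank_le (hs.der K.mem)
    (show _ ≤ td S y by omega)
  have e2 : dv (adj S y) y' = W0 Q.C y y' := Submodule.eq_of_le_of_finrank_le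
    (dv_le_w0 (hs.mono' (subset_adj _ _)) (rt_adj _ _) hl) (show _ ≤ td (adj S y) y' by omega)
  have h7 : tangent Q.C (s • y + y') ≤ dv S (s • y + y') ⊔ ℂ ∙ y := fun v hv => by
    obtain ⟨a, b, hp, rfl⟩ := span_pairs Q.sm hl hi K.free s hv
    obtain ⟨D, hD, rfl⟩ := mem_dv.1 (e1.ge (gline_fst hp))
    obtain ⟨E, hE, e⟩ := mem_dv.1 (e2.ge (show b - ap D y' ∈ _ from H91.mem_w0
      ((Filter.eventually_cofinite_ne 0).mono fun t ht => by
        have := Submodule.smul_mem _ t⁻¹ (sub_mem (hp t) (lam_pair hs hl hD t))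
        rwa [add_sub_add_left_eq_sub, ← smul_sub, inv_smul_smul₀ ht] at this)))
    obtain ⟨hE, e'⟩ := mem_Der_adj.1 hE
    refine Submodule.mem_sup.2 ⟨_, add_mem (ap_mem hD _) (ap_mem hE _), -(D s + E s) • y,
      Submodule.mem_span_singleton.2 ⟨_, rfl⟩, ?_⟩
    rw [ap_add, ap_add, ap_smul, ap_smul, e, e']
    module
  have h8 := (Submodule.finrank_mono h7).trans (Submodule.finrank_add_le_finrank_add_finrank _ _)
  have h9 := tangent_rank Q.sm (line_mem hl s) (line_ne hi s)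
  rw [finrank_span_singleton K.ne] at h8
  change _ ≤ td S _ + 1 at h8
  omega

theorem FI.pole (H : Q.FI l g h) (hR : Q.R y y') (h0 : y ≠ 0)
    (hy : y ∈ vZ ((vI Q.C ⊔ Ideal.span {h}).colon {g})) :
    y' ∈ vZ ((vI Q.C ⊔ Ideal.span {h}).colon {g}) := by
  by_contra hn
  obtain ⟨𝔭, hp, hy⟩ := exists_min_at hy
  have h1 : vI Q.C ≤ 𝔭 := fun f hf => hp.1.2 (Submodule.mem_colon_singleton.2
    (Ideal.mem_sup_left (Ideal.mul_mem_right _ _ hf)))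
  have h2 : h ∈ 𝔭 := hp.1.2 (Submodule.mem_colon_singleton.2
    (Ideal.mem_sup_right (Ideal.mem_span_singleton.2 ⟨g, rfl⟩)))
  have h3 : dm 𝔭 ≤ n := by
    by_contra e
    exact H.ne (eq_of_dm Q.sm.prime hp.1.1 h1 (by rw [Q.dm_C]; omega) ▸ h2)
  obtain ⟨h4, π, A, s, N, hπ, hA, hN, h5⟩ := hart Q.sm H.ne hp hy h0
  obtain ⟨S₁, a1, a2, a3⟩ := exists_stI Q.cnt 𝔭
  obtain ⟨S, b1, b2, b3⟩ := exists_ov a1 fun _ : Unit => A
  replace a3 := a3.mono' b2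
  obtain ⟨a, a', c1, c2, c3, c4⟩ := diag Q.sm b1 (lc_prime _ _)
    (fun _ _ e => lam_mem (lam_symm (r2 e))) hp.1.1
    (fun z hz => Q.sm.closed.le (vZ_anti h1 hz)) hR hy h0
  obtain ⟨t, ht, -⟩ := gen_one (adj_countable b1 (Sum.elim a a'))
  have h6 : t ≠ 0 := fun e => ht (e ▸ zero_mem _)
  have e : t⁻¹ • t • (a - a') + a' = a := by rw [inv_smul_smul₀ h6, sub_add_cancel]
  by_cases h7 : t⁻¹ ∈ cf (adj (adj S (t • (a - a'))) a')
  swap
  · have := sp_shift (sp_adj (sp_one h7 0)) (rt_adj _ _)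
    rw [add_comm, e] at this
    exact hn (vZ_anti hp.1.2 (a3.sp (a3.sp c2 (this.anti' (subset_adj _ _))) (c3.comp Sum.inr)))
  have h8 : td S (Sum.elim (Sum.elim a a') fun _ : Unit => t) ≤
      td S (Sum.elim (t • (a - a')) a') := td_le_of_rt (by
    rw [adj_elim]
    rintro ((i | i) | i)
    · exact (congrFun e i).subst (motive := (· ∈ cf _))
        (add_mem (mul_mem h7 ((rt_adj S _).mono' (subset_adj _ _) i)) (rt_adj _ a' i))
    · exact rt_adj _ a' i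
    · exact inv_mem_iff.1 h7)
  have h9 : ∀ ε : ℂ, Q.R (t • (a - a')) (a + ε • (t • (a - a') - a)) := fun ε => by
    convert r3 c1 t (-t) (1 + ε * t - ε) (-(ε * t)) using 1 <;> module
  have e1 := Q.dm_rr
  have e2 := Q.dm_C
  rw [td_tower, td_one ht] at h8
  change dm Q.rr + _ ≤ _ at c4
  have e3 : Q.Step (t • (a - a')) a' := step_of_td
    (by convert r3 c1 t (-t) 0 1 using 1 <;> module)
    (by have := td_anti' (a2.trans b2) (Sum.elim (t • (a - a')) a'); omega)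
  have e4 := e3.free (a2.trans b2) (by omega) t⁻¹
  rw [e] at e4
  have e5 : eval a A ≠ 0 := fun e =>
    hA (lc_eq hp.1.1 a3 c2 (h3.trans e4) ▸ (ov_mem_lc (b3 ())).2 e)
  have e6 : eval (t • (a - a')) h ≠ 0 := fun e => H.ne (e3.gen ▸ (ov_mem_lc H.ovh).2 e)
  generalize t • (a - a') = b at h9 e6
  have e7 : lp a (b - a) h * (lp a (b - a) (s * π ^ N) * Polynomial.C (eval b g) -
      lp a (b - a) A * Polynomial.C (eval b h)) = 0 := Polynomial.funext fun ε => by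
    have f1 := H.rel (h9 ε)
    have f2 := mem_van.1 h5 _ (lam_mem (r2 (h9 ε)))
    simp only [Polynomial.eval_mul, Polynomial.eval_sub, Polynomial.eval_C, eval_lp,
      Polynomial.eval_zero]
    simp only [map_sub, map_mul] at f2 ⊢
    linear_combination eval b h * f2 +
      eval (a + ε • (b - a)) s * eval (a + ε • (b - a)) (π ^ N) * f1
  rcases mul_eq_zero.1 e7 with e8 | e8
  · have := congrArg (Polynomial.eval 1) e8
    rw [eval_lp, one_smul, add_sub_cancel, Polynomial.eval_zero] at this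
    exact e6 this
  · have := congrArg (Polynomial.eval 0) e8
    simp only [Polynomial.eval_mul, Polynomial.eval_sub, Polynomial.eval_C, eval_lp,
      Polynomial.eval_zero, zero_smul, add_zero] at this
    rw [map_mul, map_pow, mem_vZ.1 c2 π hπ, zero_pow hN.ne'] at this
    exact mul_ne_zero e5 e6 (by linear_combination -this)

end PartPole

section PartSm

theorem Mx.chain (H : Q.Mx u) {p : (σ → ℂ) → Prop} (hx : p Q.x)
    (hp : ∀ a b, Q.R a b → a ≠ 0 → b ≠ 0 → p a → p b) (hy : y ∈ vZ (Lc Q.S1 u)) (h0 : y ≠ 0) :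
    p y := by
  have key : ∀ v, Q.Cl v → ∀ a : ℂ, a ≠ 0 → ∀ b, b ≠ 0 → Sp Q.S1 (a • v) b → p b := by
    intro v hv
    induction hv with
    | refl =>
      intro a _ b hb hs
      have h1 := hs.mem_stab (stab_span (T := {Q.x}) (by rintro _ rfl; exact rt_adj _ _))
        (Submodule.smul_mem _ a (Submodule.mem_span_singleton_self _))
      obtain ⟨s, rfl⟩ := Submodule.mem_span_singleton.1 h1
      have hg : Q.Gen Q.x := Q.gx
      exact hp _ _ (r1 hg (hg.self s)) hg.ne hb hx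
    | @tail v v' _ h ih =>
      intro a _ b hb hs
      obtain ⟨a', b', h1, h2, h3⟩ := pel Q.cnt1 hs h.gen.ne
      have h4 : Q.R (a • v') (a' • v) := by simpa using r3 h.R 0 a a' 0
      exact hp _ _ (h4.sp Q.sub1 h3).symm h2 hb (ih a' h1 b' h2 (h3.comp Sum.inr))
  exact key u H.1 1 one_ne_zero y h0 (by rw [one_smul]; exact mem_lc.1 hy)

theorem Mx.der (H : Q.Mx u) {l : ℂ} {g h : P σ} (F : Q.FI l g h) (hy : y ∈ vZ (Lc Q.S1 u))
    (h0 : y ≠ 0) {D : Dr} (hD : D ∈ Der Q.S) (ht : ap D y ∈ tangent (vZ (Lc Q.S1 u)) y) :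
    D l = 0 := by
  have hne : ∀ v, Q.Gen v → eval v h ≠ 0 := fun v hv e =>
    F.ne ((show Lc Q.S v = _ from hv) ▸ (ov_mem_lc F.ovh).2 e)
  have h1 : y ∉ vZ ((vI Q.C ⊔ Ideal.span {h}).colon {g}) := by
    refine H.chain (p := fun a => a ∉ vZ ((vI Q.C ⊔ Ideal.span {h}).colon {g})) (fun hx => ?_)
      (fun a b hR _ hb ha e => ha (F.pole hR.symm hb e)) hy h0
    exact hne _ Q.gx (mem_vZ.1 hx h (le_col _ _ (Ideal.mem_sup_right (Ideal.subset_span rfl))))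
  obtain ⟨h', a1, a2, a3⟩ := ((Q.st.sup (stI_span (by rintro _ rfl; exact F.ovh))).colon
    F.ovg).exists_ne h1
  obtain ⟨g', a4⟩ := gsat1_sup.1 (mem_col.1 a1)
  have a5 := Q.st D hD _ a4
  rw [dc_sub, dc_ov hD (ov_mul a2 F.ovg), dc_mul, dc_ov hD F.ovh, mul_zero, add_zero, zero_sub,
    neg_mem_iff] at a5
  have a6 := mem_van.1 ((Q.sm.prime.mem_or_mem a5).resolve_right F.ne) y (H.sub hy)
  have a7 : g' + (-l) • h' ∈ Lc Q.S1 u := by
    rw [← H.f3]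
    refine mem_van.2 fun v hv => mul_right_cancel₀ (hne v hv.gen) ?_
    have b1 := mem_van.1 a4 v hv.gen.mem
    simp only [map_sub, map_mul, map_add, smul_eval, F.val v hv] at b1 ⊢
    linear_combination -b1
  have a8 := mem_vZ.1 hy _ a7
  have a9 := mem_tangent.1 ht _ (by rwa [vI_vZ (lc_prime _ _)])
  rw [grad_add, grad_smul, add_dotProduct, smul_dotProduct, smul_eq_mul] at a9
  rw [map_add, smul_eval] at a8
  have b2 := congrArg D a8
  rw [map_zero, map_add, D.leibniz, ap_eval', a6, ap_eval hD a2, map_neg, smul_eq_mul,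
    smul_eq_mul] at b2
  refine (mul_eq_zero.1 ?_).resolve_left a3
  linear_combination a9 - b2

theorem Mx.sm (H : Q.Mx u) : ∃ c', Sm (vZ (Lc Q.S1 u)) c' := by
  obtain ⟨r, l, h1, h2⟩ := H.fi
  have hp := H.cn.prime
  have h3 := dm_le_card hp
  refine ⟨Fintype.card σ - dm (vI (vZ (Lc Q.S1 u))), H.cn, by omega, fun y hy h0 => ?_⟩
  have h4 := nm_rank_le hp hy
  have h5 := dual_rank (vZ (Lc Q.S1 u)) y
  let T := tangent (vZ (Lc Q.S1 u)) y
  let V := dv Q.S (Sum.elim y l)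
  have h6 := acod_rank ((LinearMap.funLeft ℂ ℂ Sum.inr).comp V.subtype)
    (T.mkQ.comp ((LinearMap.funLeft ℂ ℂ Sum.inl).comp V.subtype)) (by
      rintro ⟨_, D, hD, rfl⟩ hv
      ext j
      obtain ⟨g, h, F⟩ := h2 j
      exact H.der F hy h0 hD ((Submodule.Quotient.mk_eq_zero T).1 hv))
  rw [LinearMap.range_comp, Submodule.range_subtype, ← dv_map (rtL_funLeft _ _),
    LinearMap.range_comp, LinearMap.range_comp, Submodule.range_subtype,
    ← dv_map (rtL_funLeft _ _)] at h6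
  have h7 : finrank ℂ ((dv Q.S y).map T.mkQ) ≤ finrank ℂ ((tangent Q.C y).map T.mkQ) :=
    Submodule.finrank_mono (Submodule.map_mono (Q.st.der (H.sub hy)))
  have h8 := finrank_map_add T.mkQ (tangent Q.C y)
  have h9 : T ≤ tangent Q.C y := fun v hv => mem_tangent.2 fun f hf =>
    mem_tangent.1 hv f (vanishingIdeal_anti_mono H.sub hf)
  rw [Submodule.ker_mkQ, inf_eq_right.2 h9] at h8
  have h10 := tangent_rank Q.sm (H.sub hy) h0
  have h11 := Q.card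
  have h12 : td Q.S l ≤ finrank ℂ ((dv Q.S y).map T.mkQ) := h6
  have h13 : dm (vI (vZ (Lc Q.S1 u))) = td Q.S1 u := by rw [vI_vZ (lc_prime _ _), dm_lc]
  have h14 : finrank ℂ T = finrank ℂ (tangent (vZ (Lc Q.S1 u)) y) := rfl
  omega

end PartSm

end Lf

end Pool.Agent.MP_429080_ag.H91

/-! The theorem without the spanning hypothesis. -/

namespace Pool.Agent.MP_429080_ag.H91

open MvPolynomial Module Pool.Agent.EGH Pool.Agent.MP_d171e3_nt Pool.Agent.MP_429080_ag.H26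
open Pool.Agent.MP_429080_ag.H26.T
  Pool.Agent.MP_429080_ag.H73

set_option linter.unusedSectionVars false

/-- the black box -/
theorem box {σ : Type} [Fintype σ] {n c k m : ℕ} {C : Set (σ → ℂ)} {x : σ → ℂ}
    {φ : (Fin n → ℂ) →ₗ[ℂ] (σ → ℂ)} (H : Ctt C x φ c k) (hs : Submodule.span ℂ C = ⊤)
    (hl : Submodule.span ℂ (tpl C x φ) = ⊤) (h3 : 3 * k + 2 ≤ n) {S : Set ℂ} (hS : S.Countable)
    {G : Fin m → P σ} (hG : Gens S C G) (hx : tangent C x ≤ dv S x) (hφ : RtL (adj S x) φ) :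
    c ≤ k := not_lt.1 fun hk => (cf_at H hs hl h3 hS hG hx hφ hk).elim Cf.false

section PartTop
variable {σ : Type} [Fintype σ] {n c k : ℕ}

/-- the lines of a subcone tangent to the span of the lines -/
theorem t8_lines {ρ : Type} [Fintype ρ] {t : ℕ} {C F : Set (σ → ℂ)} {y' : ρ → ℂ}
    {ψ : (ρ → ℂ) →ₗ[ℂ] (σ → ℂ)} {φ : (Fin n → ℂ) →ₗ[ℂ] (σ → ℂ)} {φ' : (Fin t → ℂ) →ₗ[ℂ] (ρ → ℂ)}
    (hψ : Function.Injective ψ) (hr : ∀ z ∈ F, ∃ u, ψ u = z) (H : Ctt C (ψ y') φ c k)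
    (hφ' : IsFrame (ψ ⁻¹' F) y' φ') (hFC : F ⊆ C) (hL : Lm C (ψ y') ⊆ F)
    (hT : tangent F (ψ y') = Dd C (ψ y')) :
    ∃ j : (Fin t → ℂ) →ₗ[ℂ] (Fin n → ℂ), Function.Injective j ∧
      (∀ z ∈ tpl C (ψ y') φ, ∃ u, j u = z) ∧ j ⁻¹' tpl C (ψ y') φ ⊆ lines (ψ ⁻¹' F) y' φ' ∧
      ∀ u, j u ∈ tpl C (ψ y') φ → u ≠ 0 →
        finrank ℂ (W0 (ψ ⁻¹' F) y' (φ' u)) + k ≤ n + 1 := by
  have hφ := H.frame
  have h1 : Dd C (ψ y') ≤ tangent C (ψ y') := Submodule.span_le.2 fun w hw => by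
    simpa using lam_tangent hw.1 1 0
  obtain ⟨j, l, e⟩ := frame_cmp hφ (ψ.comp φ') fun w => h1 (by
    rw [← hT, ← tangent_lin hψ hr]
    exact ⟨_, frame_mem hφ' w, rfl⟩)
  replace e : ∀ w, ψ (φ' w) = φ (j w) + l w • ψ y' := e
  refine ⟨j, (injective_iff_map_eq_zero j).2 fun w hw => (s8_frame.1 hφ').1 w (-l w) (hψ ?_),
    fun z hz => ?_, fun w hw s t => ?_, fun u hu h0 => ?_⟩
  · rw [map_add, map_smul, e, hw, map_zero, map_zero, zero_add, neg_smul, add_neg_cancel]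
  · have h2 : φ z ∈ Dd C (ψ y') :=
      Submodule.subset_span ((lm_iff H).2 ⟨z, hz, 0, by simp⟩)
    rw [← hT, ← tangent_lin hψ hr] at h2
    obtain ⟨v, hv, h3⟩ := h2
    obtain ⟨w, s, rfl⟩ := frame_decomp hφ' hv
    rw [map_add, map_smul, e] at h3
    refine ⟨w, sub_eq_zero.1 ((s8_frame.1 hφ).1 _ (l w + s) ?_)⟩
    rw [map_sub, ← h3, add_smul]
    abel
  · have h2 := hL (lm_comb H ((lm_iff H).2 ⟨j w, hw, l w, rfl⟩) s t)
    rwa [← e, ← map_smul, ← map_smul, ← map_add] at h2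
  · have h2 : (W0 (ψ ⁻¹' F) y' (φ' u)).map ψ ≤ W0 C (ψ y') (φ (j u) + l u • ψ y') := by
      rintro _ ⟨b, hb, rfl⟩
      refine (Submodule.mem_iInf _).2 fun t => mem_tangent.2 fun f hf => ?_
      rw [← e, ← map_smul, ← map_add]
      exact mem_tangent.1 ((tangent_lin hψ hr _).le ⟨b, w0_mem hb t, rfl⟩) f
        (vanishingIdeal_anti_mono hFC hf)
    rw [(Submodule.equivMapOfInjective ψ hψ _).finrank_eq]
    refine (Nat.add_le_add_right (Submodule.finrank_mono h2) _).trans (w0_max H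
      ((lam_iff hφ).2 ⟨_, hu.1, _, rfl⟩) fun h => h0 ((s8_frame.1 hφ').1 u (-l u) (hψ ?_)))
    rw [map_add, map_smul, e, (fr_mem H.pre).1 h, map_zero, map_zero, zero_add, neg_smul,
      add_neg_cancel]

theorem Lf.good (Q : Lf σ n c k) : ∃ y, Q.Gen y ∧ ∃ φ : (Fin n → ℂ) →ₗ[ℂ] (σ → ℂ),
    IsFrame Q.C y φ ∧ Good (tpl Q.C y φ) k := by
  obtain ⟨u, hu⟩ := Q.exists_mx
  obtain ⟨c', hF⟩ := hu.sm
  obtain ⟨N, ψ, p1, p2, p3⟩ : ∃ (N : ℕ) (ψ : (Fin N → ℂ) →ₗ[ℂ] (σ → ℂ)), Function.Injective ψ ∧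
      (∀ z ∈ vZ (Lc Q.S1 u), ∃ v, ψ v = z) ∧ Submodule.span ℂ (ψ ⁻¹' vZ (Lc Q.S1 u)) = ⊤ :=
    ⟨_, exists_coord _⟩
  obtain ⟨c'', -, hF'⟩ := sm_lin hF p1 p2
  have c1 : Q.S1.Countable := adj_countable Q.cnt _
  obtain ⟨f, hf, hfree⟩ := general_free hF'.toCn
  obtain ⟨S₂, c₂, l₂, r₂⟩ := exists_rtL c1 ψ
  obtain ⟨S, m, G, c₃, l₃, hG, -⟩ := exists_gens99 hF'.toCn c₂
  obtain ⟨y', y1, y2, y3, -, y4⟩ := gen c₃ hF'.prime hf
  rw [hF'.closed] at y1 y4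
  have h0 : y' ≠ 0 := by
    obtain ⟨j, hj⟩ := hF'.toCn.exists_X
    rintro rfl
    exact hj (y4.2 _ (ov_X' j) (by simp))
  have h1 : Lc Q.S1 (ψ y') = Lc Q.S1 u := by
    refine lc_eq (lc_prime _ _) (stI_lc _ _) y1 ?_
    rw [← vI_vZ (lc_prime Q.S1 u), ← (cn_lin hF.toCn p1 p2).2]
    exact y3.trans ((td_map (r₂.mono' l₃) p1 y').ge.trans (td_anti' (l₂.trans l₃) _))
  have hy := hu.of_lc h1
  have hg := hy.1.gen
  have hL : Lm Q.C (ψ y') ⊆ vZ (Lc Q.S1 u) := h1 ▸ hy.lam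
  obtain ⟨φ, H, hn⟩ := hg.ctx
  have hT : tangent (vZ (Lc Q.S1 u)) (ψ y') = Dd Q.C (ψ y') := by
    refine le_antisymm ?_ (Submodule.span_le.2 fun w hw => mem_tangent_of_line fun e => hL ?_)
    · rw [← h1, lc_tangent]
      exact Lf.tan hy.1
    · simpa using lm_comb H hw 1 e
  have h2 := tangent_rank hF' y1 h0
  have h3 := (Submodule.equivMapOfInjective ψ p1 (tangent (ψ ⁻¹' vZ (Lc Q.S1 u)) y')).finrank_eq
  rw [tangent_lin p1 p2, hT, Dd_rank H] at h3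
  rw [h3] at h2
  obtain ⟨φ', f1, f2⟩ := exists_rat_frame hF' h2.symm (hG.mono' (subset_adj S y')) y1 h0
    (rt_adj S y')
  obtain ⟨j, j1, j2, j4, j5⟩ := t8_lines p1 p2 H f1 hu.sub hL hT
  obtain ⟨k', k1, hZ⟩ := sm_lin H.smL j1 j2
  rw [Fintype.card_fin, Fintype.card_fin] at k1
  have k2 : ∀ v ∈ j ⁻¹' tpl Q.C (ψ y') φ,
      finrank ℂ (NT (ψ ⁻¹' vZ (Lc Q.S1 u)) y' φ' v) ≤ k' := fun v hv => by
    have a1 := Submodule.finrank_mono (nt_le hF'.toCn j4 v)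
    have a2 := nm_rank_le hZ.prime hv
    have a3 := hZ.dim
    omega
  have H' : Ctt (ψ ⁻¹' vZ (Lc Q.S1 u)) y' φ' c'' k' := by
    obtain ⟨v, hv, v0⟩ := hZ.ne
    have a1 := j5 v hv v0
    have a2 := nt_w0 y1 h0 f1 (j4 hv)
    have a3 := k2 v hv
    exact Pre.ctx' ⟨hF', y1, h0, hfree y' y1 y2 h0, f1⟩ h2.symm (j4 hv) v0 (by omega) (by omega)
  have j3 : tpl (ψ ⁻¹' vZ (Lc Q.S1 u)) y' φ' = j ⁻¹' tpl Q.C (ψ y') φ := by
    have a1 := hZ.dim
    have a2 := H'.card'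
    rw [← H'.cn.closed, ← hZ.closed, eq_of_dm H'.prime hZ.prime
      (vanishingIdeal_anti_mono fun v hv => H'.mem_tpl (j4 hv) (k2 v hv)) (by omega)]
  have hs : Submodule.span ℂ (tpl (ψ ⁻¹' vZ (Lc Q.S1 u)) y' φ') = ⊤ := by
    refine Submodule.eq_top_of_finrank_eq ?_
    rw [j3, (Submodule.equivMapOfInjective j j1 _).finrank_eq, Submodule.map_span,
      Set.image_preimage_eq_of_subset fun z hz => j2 z hz]
    simp
  have h4 := box H' p3 hs (by omega) c₃ hG (gnr_tangent y4) f2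
  have h5 := ci_point H' p3 (by omega) (by omega)
  rw [j3] at h5
  exact ⟨ψ y', hg, φ, H.frame, (good_of_ci hZ h5).lin j1 j2 (by simpa using k1)⟩

theorem core {C : Set (σ → ℂ)} (hS : Sm C c) (hc : Fintype.card σ = n + 1 + c) {e r : ℕ}
    (he : e + k = n + 1) (hk : 2 * k < n) (hr : 2 * r + 3 * k ≤ 3 * n) (hL : General C (Hy C e r)) :
    General C fun x => ∃ φ : (Fin n → ℂ) →ₗ[ℂ] (σ → ℂ), IsFrame C x φ ∧
      ∃ Z ⊆ lines C x φ, Good Z k := by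
  obtain ⟨f, hf, hgen⟩ := general_and hS.prime hL (general_free hS.toCn)
    fun _ _ _ hp hf => And.intro hp hf
  obtain ⟨S₀, c₀, -, o₀⟩ := exists_ov Set.countable_empty fun _ : Unit => f
  obtain ⟨S, c₁, l₁, st⟩ := exists_stI c₀ (vI C)
  have key : ∀ y, Lc S y = vI C → ∀ φ : (Fin n → ℂ) →ₗ[ℂ] (σ → ℂ), IsFrame C y φ →
      Ctt C y φ c k ∧ 2 * finrank ℂ (Submodule.span ℂ (tpl C y φ)) + 3 * k + 2 ≤ 3 * n := by
    intro y hy φ hφ
    have y1 := gnr_of_lc hS.toCn hy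
    have h0 : y ≠ 0 := by
      obtain ⟨j, hj⟩ := hS.toCn.exists_X
      rintro rfl
      exact hj (y1.2 _ (ov_X' j) (by simp))
    obtain ⟨y2, y3⟩ := hgen y y1.1 (fun h => hf (y1.2 f (Ov.mono (o₀ ()) (cf_mono' l₁)) h)) h0
    obtain ⟨y4, y5⟩ := hy_ctx ⟨hS, y1.1, h0, y3, hφ⟩ hc he hk y2
    exact ⟨y4, by omega⟩
  obtain ⟨x, x1, -, x2, -⟩ := gen c₁ hS.prime (f := 1) ((Ideal.ne_top_iff_one _).1 hS.prime.ne_top)
  have gx := lc_eq hS.prime st x1 x2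
  have x3 := gnr_of_lc hS.toCn gx
  have h1 := hS.dim
  obtain ⟨φ₀, f₀⟩ := exists_frame hS hc x3.1 (ne_of_td (S := S) (by omega))
  obtain ⟨w, w1, w2, -⟩ := l1 (key x gx φ₀ f₀).1 (adj_countable c₁ x)
  obtain ⟨y, gy, φ, f1, hg⟩ := Lf.good ⟨C, S, x, w, hS, hc, c₁, st, key, gx, w1, w2⟩
  exact spread hS c₁ st gy f1 (fun _ h => h.1) hg

theorem main (C : Set (σ → ℂ)) (n : ℕ) (hC : IsSmoothCone C n) :
    General C fun x => ∀ φ : (Fin n → ℂ) →ₗ[ℂ] (σ → ℂ), IsFrame C x φ →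
      ∀ (Z : Set (Fin n → ℂ)) (a m : ℕ), (∀ p ∈ (vanishingIdeal ℂ Z).minimalPrimes,
        p ∈ (vanishingIdeal ℂ (lines C x φ)).minimalPrimes ∧ ∃ b : ℕ,
          ringKrullDim (MvPolynomial (Fin n) ℂ ⧸ p) = b + 1 ∧ n ≤ 2 * b + 1) →
        affDim Z = a + 1 → finrank ℂ (Submodule.span ℂ Z) = a + m + 1 → 2 * m < a →
          ∃ k : ℕ, a + 1 + k = n ∧ IsCI Z k := by
  have h1 : dm (vI C) = n + 1 := by
    have := (kd hC.irreducible).symm.trans hC.dim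
    exact_mod_cast this
  obtain ⟨c, hc⟩ : ∃ c, Fintype.card σ = n + 1 + c :=
    Nat.exists_eq_add_of_le (h1 ▸ dm_le_card hC.irreducible)
  have hS := sm_of_smoothCone hC hc
  obtain ⟨S, c₁, -, st⟩ := exists_stI Set.countable_empty (vI C)
  obtain ⟨N, G, hG, e⟩ := st.gens
  have h2 := general_all hS.prime (A := Fin n × Fin (n + 2)) (p := fun q x =>
    2 * q.1.1 < n → 2 * q.2.1 + 3 * q.1.1 ≤ 3 * n → Hy C (n + 1 - q.1.1) q.2.1 x →
      ∃ φ : (Fin n → ℂ) →ₗ[ℂ] (σ → ℂ), IsFrame C x φ ∧ ∃ Z ⊆ lines C x φ, Good Z q.1.1) fun q => by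
    by_cases h : 2 * q.1.1 < n ∧ 2 * q.2.1 + 3 * q.1.1 ≤ 3 * n
    · rcases (s8_hy hS.toCn hG e (n + 1 - q.1.1) q.2.1).dich c₁ hS.toCn with h' | h'
      · obtain ⟨f, f1, f2⟩ := core hS hc (by omega) h.1 h.2 h'
        exact ⟨f, f1, fun x a b d _ _ _ => f2 x a b d⟩
      · obtain ⟨f, f1, f2⟩ := h'
        exact ⟨f, f1, fun x a b d _ _ h => (f2 x a b d h).elim⟩
    · exact ⟨1, (Ideal.ne_top_iff_one _).1 hS.prime.ne_top, fun _ _ _ _ a b => (h ⟨a, b⟩).elim⟩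
  refine general_and hS.prime h2 (general_free hS.toCn)
    fun x hx h0 h3 hf φ hφ Y a m hY a1 a2 a4 => ?_
  have g1 : ∀ w ∈ Y, ∃ p ∈ (vI (lines C x φ)).minimalPrimes, vI Y ≤ p ∧ w ∈ vZ p ∧
      n + 1 ≤ 2 * dm p := fun w hw => by
    obtain ⟨p, p1, p2⟩ := exists_min_at (𝔞 := vI Y) (mem_vZ.2 fun f hf => mem_van.1 hf w hw)
    obtain ⟨p3, b, p4, p5⟩ := hY p p1
    have p6 := kd (S := vZ p) ((vI_vZ p1.isPrime).symm ▸ p1.isPrime)
    rw [affDim, show vanishingIdeal ℂ (vZ p) = p from vI_vZ p1.isPrime, p4, vI_vZ p1.isPrime] at p6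
    have p7 : b + 1 = dm p := by exact_mod_cast p6
    exact ⟨p, p3, p1.le, p2, by omega⟩
  obtain ⟨w, hw⟩ : Y.Nonempty := Set.nonempty_iff_ne_empty.2 (by
    rintro rfl
    rw [Submodule.span_empty, finrank_bot] at a2
    omega)
  obtain ⟨p, hp, g2, -, a3⟩ := g1 w hw
  have g3 : Y ⊆ vZ p := fun v hv => by
    obtain ⟨q, q1, -, q2, q3⟩ := g1 v hv
    exact Pre.uniq ⟨hS, hx, h0, hf, hφ⟩ q1 hp (by omega) ▸ q2
  have g4 : vI Y = p := le_antisymm g2 fun g hg => mem_van.2 fun v hv => mem_vZ.1 (g3 hv) g hg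
  have g5 : Submodule.span ℂ Y = Submodule.span ℂ (vZ p) := by
    refine le_antisymm (Submodule.span_mono g3) (Submodule.span_le.2 fun v hv => by_contra fun hn => ?_)
    obtain ⟨θ, t1, t2⟩ := Submodule.exists_dual_map_eq_bot_of_notMem hn inferInstance
    refine t1 ((eval_lin θ v).symm.trans (mem_vZ.1 hv _ (g4.le (mem_van.2 fun y hy => ?_))))
    rw [eval_lin, ← Submodule.mem_bot ℂ, ← t2]
    exact Submodule.mem_map_of_mem (Submodule.subset_span hy)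
  have b1 := kd (S := Y) (g4.symm ▸ hp.isPrime)
  rw [g4] at b1
  rw [g5] at a2
  have b2 : dm p = a + 1 := by exact_mod_cast b1.symm.trans a1
  have b3 := dm_le_card hp.isPrime
  have b4 := Submodule.finrank_le (Submodule.span ℂ (vZ p))
  rw [Fintype.card_fin] at b3
  rw [finrank_fin_fun] at b4
  obtain ⟨k, hk⟩ : ∃ k, a + 1 + k = n := ⟨n - (a + 1), by omega⟩
  obtain ⟨b5, K⟩ := Pre.ctx ⟨hS, hx, h0, hf, hφ⟩ hc hp (k := k) (by omega) (by omega)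
  obtain ⟨φ', f1, Z', z1, z2⟩ := h3 (⟨k, by omega⟩, ⟨a + m + 2, by omega⟩) (by simp only; omega)
    (by simp only; omega) (ctx_hy K (by simp only; omega) (by rw [b5]; exact congrArg (· + 1) a2))
  obtain ⟨Z, z3, z4⟩ := good_frame hφ f1 h0 z1 z2
  obtain ⟨d1, d2, d3⟩ := z4.ci (by simp; omega)
  obtain ⟨q, hq, hle⟩ := Ideal.exists_minimalPrimes_le (J := vI Z) (vanishingIdeal_anti_mono z3)
  have d4 := dm_anti hq.isPrime d2 hle
  simp only [Fintype.card_fin] at d3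
  obtain rfl := Pre.uniq K.pre hp hq (by omega)
  obtain ⟨f, d, f2, f3⟩ := d1
  refine ⟨k, hk, f, d, f2, g4.trans ((eq_of_dm hp.isPrime d2 hle ?_).trans f3)⟩
  omega

end PartTop

end Pool.Agent.MP_429080_ag.H91
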